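import Pool.Agent.K1H11.NS7.Str

/-!
# Local amplitudes
-/

open MeasureTheory Set Filter Topology
open scoped ENNReal NNReal ContDiff

namespace Pool.Agent.K1H11.NS

open H459R3.NS (ee fc fr cube S SP Per pd D Rap)
open Pool.Agent.H356R3.NS (shellSum critNorm leiLin)

lemma GP_eq (κ κ' : E3 → ℝ) (s : Fin 3 → Fin 3 → E3 → ℝ) (X : Fin 3 → E3 → ℝ) (c : Fin 3) (a : Fin 5) (y : E3) :
    GP (κ y) (fun i j _ => s i j y) (fun i _ => X i y) c a y = GP (κ y) s X c a y := rfl

lemma GP_loc_SP {κ : E3 → ℝ} (hκ : SP κ) {s : Fin 3 → Fin 3 → E3 → ℝ} {X : Fin 3 → E3 → ℝ} (hs : ∀ i j, SP (s i j))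
    (hX : ∀ i, SP (X i)) (c : Fin 3) (a : Fin 5) : SP fun y => GP (κ y) s X c a y := by
  have h1 : ∀ f : E3 → ℝ, SP f → SP fun x => κ x * (1 + f x) := fun f hf => hκ.mul ((SP.const 1).add hf)
  have h2 : ∀ f : E3 → ℝ, SP f → SP fun x => κ x * (1 + (-1) * f x) := fun f hf => h1 _ (SP.cmul hf (-1))
  unfold GP
  split_ifs
  · exact h1 _ (hs _ _)
  · exact h2 _ (hs _ _)
  · exact h1 _ (hX _)
  · exact h2 _ (hX _)
  · exact h2 _ (hX _)

lemma GP_bd {κ : ℝ} (hκ : 0 ≤ κ) {s : Fin 3 → Fin 3 → E3 → ℝ} {X : Fin 3 → E3 → ℝ} {y : E3}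
    (hs : ∀ i j, |s i j y| ≤ 1) (hX : ∀ i, |X i y| ≤ 1) (c : Fin 3) (a : Fin 5) :
    0 ≤ GP κ s X c a y ∧ GP κ s X c a y ≤ 2 * κ := by
  have h1 : ∀ f : ℝ, |f| ≤ 1 → 0 ≤ κ * (1 + f) ∧ κ * (1 + f) ≤ 2 * κ := by
    intro f hf
    rw [abs_le] at hf
    constructor
    · apply mul_nonneg hκ; linarith [hf.1]
    · nlinarith [hf.2]
  have h2 : ∀ f : ℝ, |f| ≤ 1 → 0 ≤ κ * (1 + (-1) * f) ∧ κ * (1 + (-1) * f) ≤ 2 * κ := by
    intro f hf
    refine h1 _ ?_
    rw [abs_mul]; simpa using hf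
  unfold GP
  split_ifs
  · exact h1 _ (hs _ _)
  · exact h2 _ (hs _ _)
  · exact h1 _ (hX _)
  · exact h2 _ (hX _)
  · exact h2 _ (hX _)

lemma SP_inv {f : E3 → ℝ} (hf : SP f) (h0 : ∀ x, f x ≠ 0) : SP fun x => (f x)⁻¹ where
  smooth := hf.smooth.inv h0
  per := fun i x => by simp only [hf.per i x]

lemma SP_sqrt {f : E3 → ℝ} (hf : SP f) (h0 : ∀ x, f x ≠ 0) : SP fun x => Real.sqrt (f x) where
  smooth := hf.smooth.sqrt h0
  per := fun i x => by simp only [hf.per i x]

/-- The amplitudes of the waves which change the velocity by `x`. -/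
theorem amp_loc {x : K → C3} (h0 : x 0 = 0) {θ δ : ℝ} (hδ : 0 < δ) (h : Str x θ) :
    ∃ F : Fin 3 → Fin 5 → E3 → ℝ, (∀ c a, SP (F c a)) ∧ (∀ c a y, 0 ≤ F c a y) ∧
      (∀ c a, ∫ y in cube, F c a y * F c a y ≤ 4 * (δ + 9 * θ)) ∧
      ∀ k, ∑ c, ∑ a, fr (fun y => F c a y * F c a y) k • bt k (ec (eP c a)) (ec (eP c a)) = x k := by
  obtain ⟨R, hR, hRc, hpd, hRi⟩ := h
  set q : E3 → ℝ := fun y => δ ^ 2 + ∑ i, ∑ j, R i j y * R i j y with hq
  have hSS : SP fun y => ∑ i, ∑ j, R i j y * R i j y := SP.sum fun i _ => SP.sum fun j _ => (hR i j).mul (hR i j)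
  have hqSP : SP q := (SP.const _).add hSS
  have hsum0 : ∀ y, 0 ≤ ∑ i, ∑ j, R i j y * R i j y := fun y =>
    Finset.sum_nonneg fun i _ => Finset.sum_nonneg fun j _ => mul_self_nonneg _
  have hq0 : ∀ y, 0 < q y := fun y => by
    have := hsum0 y
    simp only [hq]; positivity
  set κ2 : E3 → ℝ := fun y => Real.sqrt (q y) with hκ2
  have hκ2SP : SP κ2 := SP_sqrt hqSP fun y => (hq0 y).ne'
  have hκ2p : ∀ y, 0 < κ2 y := fun y => Real.sqrt_pos.2 (hq0 y)
  set κ : E3 → ℝ := fun y => Real.sqrt (κ2 y) with hκ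
  have hκSP : SP κ := SP_sqrt hκ2SP fun y => (hκ2p y).ne'
  have hκp : ∀ y, 0 < κ y := fun y => Real.sqrt_pos.2 (hκ2p y)
  have hκsq : ∀ y, κ y ^ 2 = κ2 y := fun y => Real.sq_sqrt (hκ2p y).le
  have hRle : ∀ i j y, |R i j y| ≤ κ2 y := by
    intro i j y
    apply Real.abs_le_sqrt
    have h1 : R i j y * R i j y ≤ ∑ i, ∑ j, R i j y * R i j y :=
      (Finset.single_le_sum (f := fun j => R i j y * R i j y) (fun j _ => mul_self_nonneg _) (Finset.mem_univ j)).trans
        (Finset.single_le_sum (f := fun i => ∑ j, R i j y * R i j y)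
          (fun i _ => Finset.sum_nonneg fun j _ => mul_self_nonneg _) (Finset.mem_univ i))
    simp only [hq]
    nlinarith [sq_nonneg δ]
  have hκle : ∀ y, κ2 y ≤ δ + ∑ i, ∑ j, |R i j y| := by
    intro y
    have ha : 0 ≤ ∑ i, ∑ j, |R i j y| := Finset.sum_nonneg fun i _ => Finset.sum_nonneg fun j _ => abs_nonneg _
    simp only [hκ2]
    rw [Real.sqrt_le_left (by positivity)]
    have h1 : ∑ i, ∑ j, R i j y * R i j y ≤ (∑ i, ∑ j, |R i j y|) ^ 2 := by
      have h2 : ∀ (ι : Type) [Fintype ι] (f : ι → ℝ), (∀ i, 0 ≤ f i) → ∑ i, f i ^ 2 ≤ (∑ i, f i) ^ 2 := by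
        intro ι _ f hf
        exact Finset.sum_sq_le_sq_sum_of_nonneg fun i _ => hf i
      calc ∑ i, ∑ j, R i j y * R i j y = ∑ i, ∑ j, |R i j y| ^ 2 := by
            refine Finset.sum_congr rfl fun i _ => Finset.sum_congr rfl fun j _ => ?_
            rw [sq_abs]; ring
        _ ≤ ∑ i, (∑ j, |R i j y|) ^ 2 := Finset.sum_le_sum fun i _ => h2 _ _ fun j => abs_nonneg _
        _ ≤ _ := h2 _ _ fun i => Finset.sum_nonneg fun j _ => abs_nonneg _
    simp only [hq]
    nlinarith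
  set s : Fin 3 → Fin 3 → E3 → ℝ := fun i j y => (1 / 4) * (R i j y * (κ2 y)⁻¹) with hsdef
  have hs : ∀ i j, SP (s i j) := fun i j => SP.cmul ((hR i j).mul (SP_inv hκ2SP fun y => (hκ2p y).ne')) _
  have hsb : ∀ i j y, |s i j y| ≤ 1 / 4 := by
    intro i j y
    simp only [s]
    rw [abs_mul, abs_mul, abs_of_pos (by norm_num : (0 : ℝ) < 1 / 4), abs_of_pos (inv_pos.2 (hκ2p y))]
    have h1 : |R i j y| * (κ2 y)⁻¹ ≤ 1 := by
      rw [← div_eq_mul_inv, div_le_one (hκ2p y)]
      exact hRle i j y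
    linarith
  set X : Fin 3 → E3 → ℝ := fun i x => s i i x +
    (-(1 / 2)) * (s i (i + 1) x * s i (i + 1) x + s i (i + 2) x * s i (i + 2) x) with hXdef
  have hsq : ∀ i, SP fun x => s i (i + 1) x * s i (i + 1) x + s i (i + 2) x * s i (i + 2) x := fun i =>
    ((hs _ _).mul (hs _ _)).add ((hs _ _).mul (hs _ _))
  have hX : ∀ i, SP (X i) := fun i => (hs i i).add (SP.cmul (hsq i) _)
  have hXb : ∀ i y, |X i y| ≤ 1 := by
    intro i y
    have h1 := hsb i i y
    have h2 : ∀ j, s i j y * s i j y ≤ 1 / 16 := by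
      intro j
      have h3 := hsb i j y
      rw [← abs_mul_abs_self]
      nlinarith [abs_nonneg (s i j y)]
    have h2' := h2 (i + 1)
    have h2'' := h2 (i + 2)
    have h4 := mul_self_nonneg (s i (i + 1) y)
    have h5 := mul_self_nonneg (s i (i + 2) y)
    rw [abs_le] at h1
    simp only [X]
    rw [abs_le]
    constructor
    · linarith [h1.1]
    · linarith [h1.2]
  set F : Fin 3 → Fin 5 → E3 → ℝ := fun c a y => GP (κ y) s X c a y with hF
  have hFSP : ∀ c a, SP (F c a) := fun c a => GP_loc_SP hκSP hs hX c a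
  have hFb : ∀ c a y, 0 ≤ F c a y ∧ F c a y ≤ 2 * κ y := fun c a y =>
    GP_bd (hκp y).le (fun i j => (hsb i j y).trans (by norm_num)) (fun i => hXb i y) c a
  refine ⟨F, hFSP, fun c a y => (hFb c a y).1, fun c a => ?_, fun k => ?_⟩
  · have i1 : IntegrableOn (fun y => F c a y * F c a y) cube :=
      H459R3.NS.integrableOn_cube ((hFSP c a).mul (hFSP c a)).smooth.continuous
    have i2 : ∀ i j, IntegrableOn (fun y => |R i j y|) cube := fun i j => int_abs (hR i j)
    have i3 : IntegrableOn (fun y => ∑ i, ∑ j, |R i j y|) cube :=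
      integrable_finset_sum _ fun i _ => integrable_finset_sum _ fun j _ => i2 i j
    have i4 : IntegrableOn (fun y : E3 => δ + ∑ i, ∑ j, |R i j y|) cube :=
      (H459R3.NS.integrableOn_cube continuous_const).add i3
    calc ∫ y in cube, F c a y * F c a y ≤ ∫ y in cube, 4 * (δ + ∑ i, ∑ j, |R i j y|) := by
          refine integral_mono i1 (i4.const_mul 4) fun y => ?_
          obtain ⟨h1, h2⟩ := hFb c a y
          have h3 := hκle y
          have h4 := hκsq y
          have h5 : F c a y * F c a y ≤ (2 * κ y) * (2 * κ y) := mul_le_mul h2 h2 h1 (by have := hκp y; positivity)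
          show F c a y * F c a y ≤ 4 * (δ + ∑ i, ∑ j, |R i j y|)
          nlinarith
      _ = 4 * (δ + ∑ i, ∑ j, ∫ y in cube, |R i j y|) := by
          rw [integral_const_mul, integral_add (H459R3.NS.integrableOn_cube continuous_const) i3,
            integral_const, cube_real, one_smul,
            integral_finset_sum _ fun i _ => integrable_finset_sum _ fun j _ => i2 i j]
          congr 2
          refine Finset.sum_congr rfl fun i _ => ?_
          rw [integral_finset_sum _ fun j _ => i2 i j]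
      _ ≤ 4 * (δ + ∑ i : Fin 3, ∑ j : Fin 3, θ) := by
          have : ∑ i, ∑ j, ∫ y in cube, |R i j y| ≤ ∑ i : Fin 3, ∑ j : Fin 3, θ :=
            Finset.sum_le_sum fun i _ => Finset.sum_le_sum fun j _ => hRi i j
          linarith
      _ = _ := by
          simp only [Finset.sum_const, Finset.card_univ, Fintype.card_fin, nsmul_eq_mul]
          push_cast; ring
  set lam : E3 → ℝ := fun y => κ2 y * (4 + ∑ i, (1 - X i y) * (1 - X i y)) with hlam
  have hlamSP : SP lam := hκ2SP.mul ((SP.const 4).add (SP.sum fun i _ =>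
    (SP.sub (SP.const 1) (hX i)).mul (SP.sub (SP.const 1) (hX i))))
  have hid : ∀ j m y, ∑ c, ∑ a, (eP c a j * eP c a m) * (F c a y * F c a y) =
      R j m y + (if j = m then lam y else 0) := by
    intro j m y
    have h1 := dec_id (κ y) (fun i j _ => s i j y) (fun i _ => X i y) (fun i j _ => R i j y)
      (fun i j => by funext _; simp only [s, hRc i j]) (fun i j _ _ => by
        have := (hκ2p y).ne'
        simp only [s, hκsq]; field_simp) (fun i _ => by
        have := (hκ2p y).ne'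
        simp only [X, s, hκsq]
        field_simp
        ring) j m y
    rw [hκsq] at h1
    have h2 : κ2 y * (4 + ∑ i, (1 - X i y) ^ 2) = lam y := by
      simp only [hlam]
      congr 2
      exact Finset.sum_congr rfl fun i _ => pow_two _
    rw [h2] at h1
    exact h1
  have hfr : ∀ j m, ∑ c, ∑ a, ((eP c a j * eP c a m : ℝ) : ℂ) *
      fr (fun y => F c a y * F c a y) k = fr (R j m) k + (if j = m then fr lam k else 0) := by
    intro j m
    have e1 : fr (fun y => ∑ c, ∑ a, (eP c a j * eP c a m) * (F c a y * F c a y)) k =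
        ∑ c, ∑ a, ((eP c a j * eP c a m : ℝ) : ℂ) * fr (fun y => F c a y * F c a y) k := by
      rw [fr_finsum Finset.univ (fun c y => ∑ a, (eP c a j * eP c a m) * (F c a y * F c a y))
        (fun c _ => SP.sum fun a _ => SP.cmul ((hFSP c a).mul (hFSP c a)) _)]
      refine Finset.sum_congr rfl fun c _ => ?_
      rw [fr_finsum Finset.univ (fun a y => (eP c a j * eP c a m) * (F c a y * F c a y))
        (fun a _ => SP.cmul ((hFSP c a).mul (hFSP c a)) _)]
      refine Finset.sum_congr rfl fun a _ => ?_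
      rw [fr_cmul]
    rw [← e1]
    have e2 : (fun y => ∑ c, ∑ a, (eP c a j * eP c a m) * (F c a y * F c a y)) =
        fun y => R j m y + (if j = m then lam y else 0) := funext fun y => hid j m y
    rw [e2]
    by_cases hjm : j = m
    · simp only [if_pos hjm]
      rw [fr_add (hR j m) hlamSP]
    · simp only [if_neg hjm, add_zero]
  funext i
  by_cases hk : k = 0
  · subst hk
    simp [h0, bt_freq_zero]
  have e3 : (∑ c, ∑ a, fr (fun y => F c a y * F c a y) k • bt k (ec (eP c a)) (ec (eP c a))) i =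
      ∑ j, ∑ m, coef k i j m * ∑ c, ∑ a, ((eP c a j * eP c a m : ℝ) : ℂ) *
        fr (fun y => F c a y * F c a y) k := by
    simp only [Finset.sum_apply, Pi.smul_apply, smul_eq_mul, bt, ec, Finset.mul_sum]
    have hT : ∀ T : Fin 3 → Fin 5 → Fin 3 → Fin 3 → ℂ, ∑ c, ∑ a, ∑ j, ∑ m, T c a j m =
        ∑ j, ∑ m, ∑ c, ∑ a, T c a j m := by
      intro T
      calc ∑ c, ∑ a, ∑ j, ∑ m, T c a j m = ∑ c, ∑ j, ∑ a, ∑ m, T c a j m :=
            Finset.sum_congr rfl fun c _ => Finset.sum_comm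
        _ = ∑ j, ∑ c, ∑ a, ∑ m, T c a j m := Finset.sum_comm
        _ = ∑ j, ∑ c, ∑ m, ∑ a, T c a j m :=
            Finset.sum_congr rfl fun j _ => Finset.sum_congr rfl fun c _ => Finset.sum_comm
        _ = _ := Finset.sum_congr rfl fun j _ => Finset.sum_comm
    have : ∀ c : Fin 3, ∀ a : Fin 5, ∑ j, ∑ m, fr (fun y => F c a y * F c a y) k *
        (coef k i j m * ((eP c a j : ℂ) * (eP c a m : ℂ))) =
        ∑ j, ∑ m, coef k i j m * (((eP c a j * eP c a m : ℝ) : ℂ) *
          fr (fun y => F c a y * F c a y) k) := fun c a =>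
      Finset.sum_congr rfl fun j _ => Finset.sum_congr rfl fun m _ => by push_cast; ring
    simp_rw [this]
    exact hT _
  rw [e3]
  simp_rw [hfr, mul_add, Finset.sum_add_distrib]
  have e4 : ∑ j, ∑ m, coef k i j m * (if j = m then fr lam k else 0) = (∑ j, coef k i j j) * fr lam k := by
    rw [Finset.sum_mul]
    refine Finset.sum_congr rfl fun j _ => ?_
    simp
  rw [e4, coef_id hk, zero_mul, add_zero]
  exact congrFun (congrFun hpd k) i

end Pool.Agent.K1H11.NS
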