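import Pool.Agent.K1H11.NS7.Loc2

/-!
# Averages over the walls, and the size of the waves
-/

open MeasureTheory Set Filter Topology
open scoped ENNReal NNReal ContDiff

namespace Pool.Agent.K1H11.NS

open H459R3.NS (ee fc fr cube S SP Per pd D Rap)
open Pool.Agent.H356R3.NS (shellSum critNorm leiLin)

/-- products with fast oscillations have small integrals -/
lemma int_gM {G : E3 → ℝ} (hG : SP G) {P : ℝ → ℝ} (hP : ContDiff ℝ ∞ P) (hPp : ∀ y, P (y + 1) = P y)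
    (hPi : ∫ y in (0 : ℝ)..1, P y = 0) (cc : Fin 3) {M : ℕ} (hM : 1 ≤ M) {Q : ℝ} (hQ : wn (gM P cc M) ≤ Q) :
    |∫ x in cube, gM P cc M x * G x| ≤ (∑' l, pw l ^ 1 * ‖fr G l‖) * Q / M := by
  have hM1 : (1 : ℝ) ≤ M := by exact_mod_cast hM
  have hM0 : (0 : ℝ) < M := by linarith
  have hq := gM_SP hP hPp cc M
  set S1 := ∑' l, pw l ^ 1 * ‖fr G l‖ with hS1
  have hS0 : 0 ≤ S1 := tsum_nonneg fun l => mul_nonneg (pow_pos (pw_pos l) 1).le (norm_nonneg _)
  have h1 := fr_mul hq hG 0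
  rw [fr_zero] at h1
  have hterm : ∀ l, ‖fr (gM P cc M) l * fr G (0 - l)‖ ≤ ‖fr (gM P cc M) l‖ * (S1 / M) := by
    intro l
    rw [norm_mul]
    by_cases hl : fr (gM P cc M) l = 0
    · rw [hl, norm_zero, zero_mul, zero_mul]
    obtain ⟨m, hm, hlm⟩ := gM_supp hP hPp hPi cc hM l hl
    apply mul_le_mul_of_nonneg_left _ (norm_nonneg _)
    rw [le_div_iff₀ hM0, mul_comm]
    have h2 : (M : ℝ) ≤ pw (0 - l) ^ 1 := by
      rw [pow_one]
      refine le_trans ?_ (nk_le_pw _)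
      rw [zero_sub, nk_neg, hlm, nk_nn]
      exact hm
    calc (M : ℝ) * ‖fr G (0 - l)‖ ≤ pw (0 - l) ^ 1 * ‖fr G (0 - l)‖ := mul_le_mul_of_nonneg_right h2 (norm_nonneg _)
      _ ≤ S1 := (rr_fr hG 1).le_tsum (0 - l) fun l _ => mul_nonneg (pow_pos (pw_pos l) 1).le (norm_nonneg _)
  have hs : Summable fun l => ‖fr (gM P cc M) l‖ * (S1 / M) := (rr_fr hq).summ.mul_right _
  have hs' : Summable fun l => ‖fr (gM P cc M) l * fr G (0 - l)‖ := hs.of_nonneg_of_le (fun _ => norm_nonneg _) hterm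
  have h3 : ‖((∫ x in cube, gM P cc M x * G x : ℝ) : ℂ)‖ ≤ S1 * Q / M := by
    rw [h1]
    refine (norm_tsum_le_tsum_norm hs').trans ((hs'.tsum_le_tsum hterm hs).trans ?_)
    rw [tsum_mul_right]
    calc (∑' l, ‖fr (gM P cc M) l‖) * (S1 / M) ≤ Q * (S1 / M) := mul_le_mul_of_nonneg_right hQ (by positivity)
      _ = _ := by ring
  rwa [Complex.norm_real, Real.norm_eq_abs] at h3

lemma cut_mean {η : ℝ} (h0 : 0 < η) (h1 : η ≤ 1 / 4) {g : ℝ → ℝ} (hg : Cut η g) :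
    ∫ y in (0 : ℝ)..1, g y ≤ Real.sqrt (2 * η) := by
  set r := Real.sqrt (2 * η) with hr
  have hr0 : 0 < r := Real.sqrt_pos.2 (by positivity)
  have hr2 : r ^ 2 = 2 * η := Real.sq_sqrt (by positivity)
  have hgc := hg.smooth.continuous
  have e1 := per_int hgc hg.per h0 h1 hg.supp
  have e2 := per_int (F := fun y => g y ^ 2) (hgc.pow 2) (fun y => by simp only [hg.per]) h0 h1
    (fun y hy => by simp only [hg.supp y hy]; norm_num)
  rw [hg.int] at e2
  rw [e1]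
  have i1 : IntervalIntegrable g volume (-η) η := hgc.intervalIntegrable _ _
  have i2 : IntervalIntegrable (fun y => g y ^ 2) volume (-η) η := (hgc.pow 2).intervalIntegrable _ _
  have i3 : IntervalIntegrable (fun _ : ℝ => 1 / (2 * r)) volume (-η) η := continuous_const.intervalIntegrable _ _
  calc ∫ y in (-η)..η, g y ≤ ∫ y in (-η)..η, (1 / (2 * r) + r / 2 * g y ^ 2) := by
        refine intervalIntegral.integral_mono_on (by linarith) i1 (i3.add (i2.const_mul _)) fun y _ => ?_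
        have h2 : 1 / (2 * r) + r / 2 * g y ^ 2 - g y = (r * g y - 1) ^ 2 / (2 * r) := by
          field_simp; ring
        have h3 : 0 ≤ (r * g y - 1) ^ 2 / (2 * r) := by positivity
        linarith
    _ = 1 / (2 * r) * (2 * η) + r / 2 * 1 := by
        rw [intervalIntegral.integral_add i3 (i2.const_mul _), intervalIntegral.integral_const,
          intervalIntegral.integral_const_mul, ← e2, smul_eq_mul]
        ring
    _ = r := by
        rw [← hr2]; field_simp; ring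

/-- integrals over the walls -/
lemma int_wall {F : E3 → ℝ} (hF : SP F) (hF0 : ∀ x, 0 ≤ F x) {E : ℝ} (hE : ∫ x in cube, F x * F x ≤ E)
    {η : ℝ} (h0 : 0 < η) (h1 : η ≤ 1 / 4) {g : ℝ → ℝ} (hg : Cut η g) (cc : Fin 3) {M : ℕ} (hM : 1 ≤ M) {Q : ℝ}
    (hQ : wn (gM (fun y => g y - ∫ z in (0 : ℝ)..1, g z) cc M) ≤ Q) :
    ∫ x in cube, F x * gM g cc M x ≤ Real.sqrt (2 * η) * (1 + E) + (∑' l, pw l ^ 1 * ‖fr F l‖) * Q / M := by
  set b := ∫ z in (0 : ℝ)..1, g z with hb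
  have hb0 : 0 ≤ b := intervalIntegral.integral_nonneg zero_le_one fun y _ => hg.nonneg y
  have hbr : b ≤ Real.sqrt (2 * η) := cut_mean h0 h1 hg
  have hP : ContDiff ℝ ∞ fun y => g y - b := hg.smooth.sub contDiff_const
  have hPp : ∀ y, g (y + 1) - b = g y - b := fun y => by rw [hg.per]
  have hPi : ∫ y in (0 : ℝ)..1, (g y - b) = 0 := by
    rw [intervalIntegral.integral_sub (hg.smooth.continuous.intervalIntegrable _ _)
      (continuous_const.intervalIntegrable _ _)]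
    simp [← hb]
  have h2 := int_gM hF hP hPp hPi cc hM hQ
  have i1 : IntegrableOn (fun x => gM (fun y => g y - b) cc M x * F x) cube := int_SP ((gM_SP hP hPp cc M).mul hF)
  have iF : IntegrableOn F cube := int_SP hF
  have e1 : ∫ x in cube, F x * gM g cc M x = b * (∫ x in cube, F x) + ∫ x in cube, gM (fun y => g y - b) cc M x * F x := by
    rw [← integral_const_mul, ← integral_add (iF.const_mul b) i1]
    congr 1
    funext x
    unfold gM
    ring
  have iFF : IntegrableOn (fun x => F x * F x) cube := int_SP (hF.mul hF)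
  have iF0 : 0 ≤ ∫ x in cube, F x := integral_nonneg hF0
  have h3 : ∫ x in cube, F x ≤ 1 + E := by
    calc ∫ x in cube, F x ≤ ∫ x in cube, (1 + F x * F x) := by
          refine integral_mono iF ((int_SP (SP.const 1)).add iFF) fun x => ?_
          show F x ≤ 1 + F x * F x
          nlinarith [sq_nonneg (F x - 1), hF0 x]
      _ = 1 + ∫ x in cube, F x * F x := by
          rw [integral_add (int_SP (SP.const 1)) iFF, integral_const, cube_real, one_smul]
      _ ≤ 1 + E := by linarith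
  rw [e1]
  have h4 := le_abs_self (∫ x in cube, gM (fun y => g y - b) cc M x * F x)
  have h5 : b * ∫ x in cube, F x ≤ Real.sqrt (2 * η) * (1 + E) := mul_le_mul hbr h3 iF0 (Real.sqrt_nonneg _)
  linarith

lemma int_wall2 {F : E3 → ℝ} (hF : SP F) {E : ℝ} (hE : ∫ x in cube, F x * F x ≤ E)
    {η : ℝ} {g : ℝ → ℝ} (hg : Cut η g) (cc : Fin 3) {M : ℕ} (hM : 1 ≤ M) {Q : ℝ}
    (hQ : wn (gM (fun y => g y ^ 2 - 1) cc M) ≤ Q) :
    ∫ x in cube, (F x * gM g cc M x) * (F x * gM g cc M x) ≤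
      E + (∑' l, pw l ^ 1 * ‖fr (fun x => F x * F x) l‖) * Q / M := by
  have hP : ContDiff ℝ ∞ fun y => g y ^ 2 - 1 := (hg.smooth.pow 2).sub contDiff_const
  have hPp : ∀ y, g (y + 1) ^ 2 - 1 = g y ^ 2 - 1 := fun y => by rw [hg.per]
  have hPi : ∫ y in (0 : ℝ)..1, (g y ^ 2 - 1) = 0 := by
    have i1 : IntervalIntegrable (fun y => g y ^ 2) volume 0 1 :=
      (hg.smooth.continuous.pow 2).intervalIntegrable _ _
    have i2 : IntervalIntegrable (fun _ : ℝ => (1 : ℝ)) volume 0 1 := continuous_const.intervalIntegrable _ _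
    rw [intervalIntegral.integral_sub i1 i2, hg.int]
    simp
  have hFF := hF.mul hF
  have h2 := int_gM hFF hP hPp hPi cc hM hQ
  have i1 : IntegrableOn (fun x => gM (fun y => g y ^ 2 - 1) cc M x * (F x * F x)) cube :=
    int_SP ((gM_SP hP hPp cc M).mul hFF)
  have e1 : ∫ x in cube, (F x * gM g cc M x) * (F x * gM g cc M x) =
      (∫ x in cube, F x * F x) + ∫ x in cube, gM (fun y => g y ^ 2 - 1) cc M x * (F x * F x) := by
    rw [← integral_add (int_SP hFF) i1]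
    congr 1
    funext x
    unfold gM
    ring
  rw [e1]
  have h4 := le_abs_self (∫ x in cube, gM (fun y => g y ^ 2 - 1) cc M x * (F x * F x))
  linarith

lemma q2_shift (y : K → ℝ≥0∞) (κ : K) : q2 (fun k => y (k - κ)) = q2 y := by
  unfold q2
  congr 1
  exact (Equiv.subRight κ).tsum_eq fun k => y k ^ (2 : ℝ)

lemma q2_fr {f : E3 → ℝ} (hf : SP f) : q2 (fun k => ‖fr f k‖ₑ) = ENNReal.ofReal (Real.sqrt (∫ x in cube, f x * f x)) := by
  obtain ⟨p1, p2⟩ := parseval hf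
  have h0 : 0 ≤ ∫ x in cube, f x * f x := integral_nonneg fun x => mul_self_nonneg _
  unfold q2
  rw [Real.sqrt_eq_rpow, ← ENNReal.ofReal_rpow_of_nonneg h0 (by norm_num)]
  congr 1
  rw [p2, ENNReal.ofReal_tsum_of_nonneg (fun _ => by positivity) p1]
  refine tsum_congr fun k => ?_
  show ‖fr f k‖ₑ ^ (2 : ℝ) = _
  rw [ENNReal.rpow_two, ← ofReal_norm, ENNReal.ofReal_pow (norm_nonneg _)]

lemma Lv_le {f : K → ℂ} {e : Fin 3 → ℝ} (he : ∀ i, |e i| ≤ 1) (cc : Fin 3) (k : K) :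
    ‖Lv f e cc k‖ ≤ 2 * (pw k ^ 3 * ‖f k‖) := by
  have h1 := one_le_pw k
  have h3 : pw k ≤ pw k ^ 3 := by
    calc pw k = pw k ^ 1 := (pow_one _).symm
      _ ≤ _ := pow_le_pow_right₀ h1 (by norm_num)
  rw [pi_norm_le_iff_of_nonneg (by have := pw_pos k; positivity)]
  intro i
  unfold Lv
  rw [norm_mul]
  have h4 : ‖(k cc : ℂ) * (e i : ℂ)‖ ≤ pw k := by
    rw [norm_mul, Complex.norm_intCast, Complex.norm_real, Real.norm_eq_abs]
    calc |(k cc : ℝ)| * |e i| ≤ pw k * 1 := mul_le_mul ((abs_le_nk k cc).trans (nk_le_pw k)) (he i) (abs_nonneg _)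
          (pw_pos k).le
      _ = _ := mul_one _
  have h5 : ‖(if i = cc then ∑ j, (k j : ℂ) * (e j : ℂ) else 0)‖ ≤ pw k := by
    split_ifs
    · refine (dt_e_le he k).trans ?_
      unfold pw; linarith
    · rw [norm_zero]; exact (pw_pos k).le
  calc ‖f k‖ * ‖(k cc : ℂ) * (e i : ℂ) - (if i = cc then ∑ j, (k j : ℂ) * (e j : ℂ) else 0)‖
      ≤ ‖f k‖ * (pw k + pw k) := mul_le_mul_of_nonneg_left ((norm_sub_le _ _).trans (add_le_add h4 h5)) (norm_nonneg _)
    _ ≤ ‖f k‖ * (pw k ^ 3 + pw k ^ 3) := by gcongr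
    _ = _ := by ring

/-- the size of a wave -/
lemma E2_Wv {β : ℝ} (hβ : 0 ≤ β) {f : E3 → ℝ} (hf : SP f) {e : Fin 3 → ℝ} (he : ∀ i, |e i| ≤ 1) (cc : Fin 3)
    {E S3 : ℝ} (hE : ∫ x in cube, f x * f x ≤ E) (hS : ∑' l, pw l ^ 3 * ‖fr f l‖ ≤ S3) {N N0 : ℕ} (hN0 : 1 ≤ N0)
    (hN : N0 ≤ N) : E2 (Wv β (fr f) e cc N) ≤ ENNReal.ofReal ((2 * β * Real.sqrt E + 4 * β * S3 / N0) * N) := by
  have hN0r : (1 : ℝ) ≤ N0 := by exact_mod_cast hN0
  have hNr : (N0 : ℝ) ≤ N := by exact_mod_cast hN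
  have hS0 : 0 ≤ S3 := (tsum_nonneg fun l => mul_nonneg (pow_pos (pw_pos l) 3).le (norm_nonneg _)).trans hS
  have h1 : ∀ κ, E2 (Shv κ (Ev (fr f) e)) ≤ ENNReal.ofReal (Real.sqrt E) := by
    intro κ
    have e1 : E2 (Shv κ (Ev (fr f) e)) = E2 (Ev (fr f) e) := q2_shift (fun k => ‖Ev (fr f) e k‖ₑ) κ
    rw [e1]
    refine (q2_mono fun k => ?_).trans ((le_of_eq (q2_fr hf)).trans (ENNReal.ofReal_le_ofReal (Real.sqrt_le_sqrt hE)))
    rw [← ofReal_norm, ← ofReal_norm]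
    exact ENNReal.ofReal_le_ofReal (Ev_norm he k)
  have h2 : ∀ κ, E2 (Shv κ (Lv (fr f) e cc)) ≤ ENNReal.ofReal (2 * S3) := by
    intro κ
    have e1 : E2 (Shv κ (Lv (fr f) e cc)) = E2 (Lv (fr f) e cc) := q2_shift (fun k => ‖Lv (fr f) e cc k‖ₑ) κ
    rw [e1]
    have hs3 : Summable fun k => 2 * (pw k ^ 3 * ‖fr f k‖) := (rr_fr hf 3).mul_left 2
    have hsn : SN (Lv (fr f) e cc) := hs3.of_nonneg_of_le (fun _ => norm_nonneg _) (Lv_le he cc)
    refine (E2_le_tsum hsn).trans (ENNReal.ofReal_le_ofReal ?_)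
    refine (Summable.tsum_le_tsum (Lv_le he cc) hsn hs3).trans ?_
    rw [tsum_mul_left]
    linarith
  have hsq := Real.sqrt_nonneg E
  unfold Wv
  refine (E2_add _ _).trans ?_
  rw [E2_smul, E2_smul, E2_smul, abs_of_nonneg hβ, Nat.abs_cast]
  have h3 : E2 (Shv (nn cc N) (Ev (fr f) e) + Shv (nn cc (-N)) (Ev (fr f) e)) ≤ ENNReal.ofReal (2 * Real.sqrt E) := by
    refine (E2_add _ _).trans ((add_le_add (h1 _) (h1 _)).trans (le_of_eq ?_))
    rw [← ENNReal.ofReal_add hsq hsq]; congr 1; ring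
  have h4 : E2 (Shv (nn cc N) (Lv (fr f) e cc) - Shv (nn cc (-N)) (Lv (fr f) e cc)) ≤ ENNReal.ofReal (4 * S3) := by
    have e1 : Shv (nn cc N) (Lv (fr f) e cc) - Shv (nn cc (-N)) (Lv (fr f) e cc) =
        Shv (nn cc N) (Lv (fr f) e cc) + (-1 : ℝ) • Shv (nn cc (-N)) (Lv (fr f) e cc) := by
      rw [neg_one_smul]; abel
    rw [e1]
    refine (E2_add _ _).trans ?_
    rw [E2_smul, abs_neg, abs_one, ENNReal.ofReal_one, one_mul]
    refine (add_le_add (h2 _) (h2 _)).trans (le_of_eq ?_)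
    rw [← ENNReal.ofReal_add (by positivity) (by positivity)]; congr 1; ring
  refine (add_le_add (mul_le_mul' le_rfl (mul_le_mul' le_rfl h3)) (mul_le_mul' le_rfl h4)).trans ?_
  rw [← ENNReal.ofReal_mul hβ, ← ENNReal.ofReal_mul (Nat.cast_nonneg _), ← ENNReal.ofReal_mul hβ,
    ← ENNReal.ofReal_add (by positivity) (by positivity)]
  apply ENNReal.ofReal_le_ofReal
  have h5 : β * (4 * S3) ≤ 4 * β * S3 / N0 * N := by
    rw [div_mul_eq_mul_div, le_div_iff₀ (by linarith)]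
    have : 0 ≤ 4 * β * S3 := by positivity
    nlinarith
  calc _ ≤ (N : ℝ) * (β * (2 * Real.sqrt E)) + 4 * β * S3 / N0 * N := by linarith
    _ = _ := by ring

end Pool.Agent.K1H11.NS
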