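import Pool.Agent.K1H11.NS7.L2

/-!
# The `ℓ^q` norm of the norms on windows
-/

open MeasureTheory Set Filter Topology
open scoped ENNReal NNReal

namespace Pool.Agent.K1H11.NS

/-- the norm in `L²((t/4, t]; ℓ¹)` -/
noncomputable def LV (t : ℝ) (x : Fam) : ℝ≥0∞ :=
  LN (fun s => (Ioc (t / 4) t).indicator (fun s => NW (Wa Wt.one) (at' x s)) s)

lemma LV_add (t : ℝ) {x y : Fam} (hx : CF x) (hy : CF y) : LV t (x + y) ≤ LV t x + LV t y := by
  unfold LV
  have mx : Measurable fun s => (Ioc (t / 4) t).indicator (fun s => NW (Wa Wt.one) (at' x s)) s :=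
    (NW_meas _ hx).indicator measurableSet_Ioc
  have my : Measurable fun s => (Ioc (t / 4) t).indicator (fun s => NW (Wa Wt.one) (at' y s)) s :=
    (NW_meas _ hy).indicator measurableSet_Ioc
  refine (LN_mono fun s _ => ?_).trans (LN_add_le mx my)
  by_cases hs : s ∈ Ioc (t / 4) t
  · simp only [indicator_of_mem hs]
    exact NW_add_le _ _ _
  · simp only [indicator_of_notMem hs, add_zero, le_refl]

lemma LV_le_XN (t : ℝ) (x : Fam) : LV t x ≤ XN x :=
  LN_mono fun s _ => indicator_le_self _ _ s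

lemma LV_zero (t : ℝ) : LV t (0 : Fam) = 0 := by
  refine le_antisymm ((LV_le_XN t 0).trans (le_of_eq ?_)) zero_le
  have h0 : ∀ s, NW (Wa Wt.one) (at' (0 : Fam) s) = 0 := fun s => NW_zero _
  simp [XN, LN, h0]

lemma LV_sum (t : ℝ) (n : ℕ) (x : ℕ → Fam) (hx : ∀ i, CF (x i)) :
    LV t (∑ i ∈ Finset.range n, x i) ≤ ∑ i ∈ Finset.range n, LV t (x i) := by
  induction n with
  | zero =>
    rw [Finset.sum_range_zero]
    simp [LV_zero]
  | succ n ih =>
    rw [Finset.sum_range_succ, Finset.sum_range_succ]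
    exact (LV_add t (LW_sum 0 n x hx).1 (hx n)).trans (add_le_add ih le_rfl)

lemma LV_le_of {x : Fam} (hx : Dom x) {t M : ℝ} (ht : 0 < t) (hM : 0 ≤ M)
    (h : ∀ s ∈ Ioc (t / 4) t, An x s ≤ M) : LV t x ≤ ENNReal.ofReal (Real.sqrt t * M) := by
  unfold LV LN
  have h1 : ∫⁻ s in Ioi 0, ((Ioc (t / 4) t).indicator (fun s => NW (Wa Wt.one) (at' x s)) s) ^ (2 : ℝ) ≤
      ENNReal.ofReal (t * M ^ 2) := by
    calc _ ≤ ∫⁻ s in Ioi 0, (Ioc (t / 4) t).indicator (fun _ => ENNReal.ofReal (M ^ 2)) s := by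
          refine setLIntegral_mono' measurableSet_Ioi fun s _ => ?_
          by_cases hs : s ∈ Ioc (t / 4) t
          · rw [indicator_of_mem hs, indicator_of_mem hs, NW_Wa_zero]
            show (∑' k, ‖x k s‖ₑ) ^ (2 : ℝ) ≤ _
            rw [An_eq hx, ENNReal.rpow_two, ← ENNReal.ofReal_pow (An_nonneg _ s)]
            exact ENNReal.ofReal_le_ofReal (pow_le_pow_left₀ (An_nonneg _ _) (h s hs) 2)
          · rw [indicator_of_notMem hs, indicator_of_notMem hs]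
            simp
      _ ≤ ∫⁻ s, (Ioc (t / 4) t).indicator (fun _ => ENNReal.ofReal (M ^ 2)) s := setLIntegral_le_lintegral _ _
      _ = ENNReal.ofReal (M ^ 2) * ENNReal.ofReal (t - t / 4) := by
          rw [lintegral_indicator measurableSet_Ioc, setLIntegral_const, Real.volume_Ioc]
      _ ≤ _ := by
          rw [← ENNReal.ofReal_mul (by positivity)]
          apply ENNReal.ofReal_le_ofReal
          have : 0 ≤ M ^ 2 := by positivity
          nlinarith
  calc _ ≤ (ENNReal.ofReal (t * M ^ 2)) ^ (1 / 2 : ℝ) := ENNReal.rpow_le_rpow h1 (by norm_num)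
    _ = _ := by
        rw [ENNReal.ofReal_rpow_of_nonneg (by positivity) (by norm_num), ← Real.sqrt_eq_rpow,
          Real.sqrt_mul ht.le, Real.sqrt_sq hM]

lemma LV_Ex {lam t : ℝ} (hl : 0 < lam) (ht : 0 < t) {X : K → C3} (hX : SN X) :
    LV t (Ex lam X) ≤ ENNReal.ofReal (Real.sqrt t * ((∑' k, ‖X k‖) * Real.exp (-(lam * (t / 4))))) := by
  have h0 : 0 ≤ ∑' k, ‖X k‖ := tsum_nonneg fun _ => norm_nonneg _
  refine LV_le_of (Ex_dom hl.le hX) ht (by positivity) fun s hs => ?_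
  have hs0 : 0 ≤ s := by have := hs.1; linarith
  unfold An
  rw [← tsum_mul_right]
  have hs' : Summable fun k => ‖Ex lam X k s‖ := (Ex_dom hl.le hX).sn s
  have hX' : Summable fun k => ‖X k‖ := hX
  refine hs'.tsum_le_tsum (fun k => ?_) (hX'.mul_right _)
  unfold Ex
  rw [norm_smul, Real.norm_of_nonneg (Real.exp_pos _).le, max_eq_left hs0, mul_comm]
  apply mul_le_mul_of_nonneg_left _ (norm_nonneg _)
  apply Real.exp_le_exp.2
  have : lam * (t / 4) ≤ lam * s := mul_le_mul_of_nonneg_left hs.1.le hl.le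
  linarith

/-- the `ℓ^q` norm of the norms on the windows `(4^{-j-1}, 4^{-j}]` -/
noncomputable def DN (q : ℝ) (x : Fam) : ℝ≥0∞ := (∑' j : ℕ, LV ((1 / 4) ^ j) x ^ q) ^ (1 / q)

lemma lq_add {q : ℝ} (hq : 1 ≤ q) (y z : ℕ → ℝ≥0∞) :
    (∑' j, (y j + z j) ^ q) ^ (1 / q) ≤ (∑' j, y j ^ q) ^ (1 / q) + (∑' j, z j ^ q) ^ (1 / q) := by
  have h := ENNReal.lintegral_Lp_add_le (μ := Measure.count) (p := q)
    (measurable_of_countable y).aemeasurable (measurable_of_countable z).aemeasurable hq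
  rw [lintegral_count, lintegral_count, lintegral_count] at h
  exact h

lemma DN_mono' {q : ℝ} (hq : 0 < q) {x : Fam} {y : ℕ → ℝ≥0∞} (h : ∀ j : ℕ, LV ((1 / 4) ^ j) x ≤ y j) :
    DN q x ≤ (∑' j, y j ^ q) ^ (1 / q) :=
  ENNReal.rpow_le_rpow (ENNReal.tsum_le_tsum fun j => ENNReal.rpow_le_rpow (h j) hq.le) (by positivity)

lemma DN_add {q : ℝ} (hq : 1 ≤ q) {x y : Fam} (hx : CF x) (hy : CF y) : DN q (x + y) ≤ DN q x + DN q y :=
  (DN_mono' (by linarith) fun j => LV_add _ hx hy).trans (lq_add hq _ _)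

lemma LV_le_DN {q : ℝ} (hq : 0 < q) (x : Fam) (j : ℕ) : LV ((1 / 4) ^ j) x ≤ DN q x := by
  unfold DN
  calc LV ((1 / 4) ^ j) x = (LV ((1 / 4) ^ j) x ^ q) ^ (1 / q) := by
        rw [← ENNReal.rpow_mul, mul_one_div_cancel hq.ne', ENNReal.rpow_one]
    _ ≤ _ := ENNReal.rpow_le_rpow (ENNReal.le_tsum j) (by positivity)

lemma DN_le_XN {q : ℝ} (hq : 2 ≤ q) (x : Fam) (hx : CF x) : DN q x ≤ XN x := by
  have h1 : ∑' j : ℕ, LV ((1 / 4) ^ j) x ^ (2 : ℝ) ≤ XN x ^ (2 : ℝ) := by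
    have e1 : ∀ t, LV t x ^ (2 : ℝ) = ∫⁻ s in Ioi 0,
        (Ioc (t / 4) t).indicator (fun s => NW (Wa Wt.one) (at' x s) ^ (2 : ℝ)) s := by
      intro t
      unfold LV LN
      rw [← ENNReal.rpow_mul, show (1 / 2 : ℝ) * 2 = 1 by norm_num, ENNReal.rpow_one]
      refine lintegral_congr fun s => ?_
      by_cases hs : s ∈ Ioc (t / 4) t
      · simp only [indicator_of_mem hs]
      · simp only [indicator_of_notMem hs]
        exact ENNReal.zero_rpow_of_pos (by norm_num)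
    simp_rw [e1]
    rw [← lintegral_tsum]
    · have e2 : XN x ^ (2 : ℝ) = ∫⁻ s in Ioi 0, NW (Wa Wt.one) (at' x s) ^ (2 : ℝ) := by
        unfold XN LN
        rw [← ENNReal.rpow_mul, show (1 / 2 : ℝ) * 2 = 1 by norm_num, ENNReal.rpow_one]
      rw [e2]
      refine lintegral_mono fun s => ?_
      have hdis : ∀ j j' : ℕ, s ∈ Ioc ((1 / 4 : ℝ) ^ j / 4) ((1 / 4) ^ j) →
          s ∈ Ioc ((1 / 4 : ℝ) ^ j' / 4) ((1 / 4) ^ j') → j = j' := by
        have key : ∀ j j' : ℕ, j < j' → s ∈ Ioc ((1 / 4 : ℝ) ^ j / 4) ((1 / 4) ^ j) →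
            s ∈ Ioc ((1 / 4 : ℝ) ^ j' / 4) ((1 / 4) ^ j') → False := by
          intro j j' hjj h1 h2
          have h3 : ((1 : ℝ) / 4) ^ j' ≤ (1 / 4) ^ (j + 1) :=
            pow_le_pow_of_le_one (by norm_num) (by norm_num) hjj
          rw [pow_succ] at h3
          have h4 := h1.1
          have h5 := h2.2
          linarith
        intro j j' h1 h2
        rcases lt_trichotomy j j' with h | h | h
        · exact absurd (key j j' h h1 h2) id
        · exact h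
        · exact absurd (key j' j h h2 h1) id
      by_cases hex : ∃ j : ℕ, s ∈ Ioc ((1 / 4 : ℝ) ^ j / 4) ((1 / 4) ^ j)
      · obtain ⟨j, hj⟩ := hex
        rw [tsum_eq_single j]
        · rw [indicator_of_mem hj]
        · intro j' hj'
          exact indicator_of_notMem (fun h => hj' (hdis _ _ h hj)) _
      · push Not at hex
        have : ∀ j : ℕ, (Ioc ((1 / 4 : ℝ) ^ j / 4) ((1 / 4) ^ j)).indicator
            (fun s => NW (Wa Wt.one) (at' x s) ^ (2 : ℝ)) s = 0 := fun j => indicator_of_notMem (hex j) _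
        rw [tsum_congr this, tsum_zero]
        exact zero_le
    · intro j
      exact (((NW_meas _ hx).pow_const _).indicator measurableSet_Ioc).aemeasurable
  have hq0 : 0 < q := by linarith
  have h2 : ∑' j : ℕ, LV ((1 / 4) ^ j) x ^ q ≤ (∑' j : ℕ, LV ((1 / 4) ^ j) x ^ (2 : ℝ)) ^ (q / 2) := by
    refine le_trans (le_of_eq (tsum_congr fun j => ?_)) (tsum_rpow_le (fun j : ℕ => LV ((1 / 4) ^ j) x ^ (2 : ℝ))
      (show 1 ≤ q / 2 by linarith))
    rw [← ENNReal.rpow_mul]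
    congr 1; ring
  unfold DN
  calc _ ≤ ((∑' j : ℕ, LV ((1 / 4) ^ j) x ^ (2 : ℝ)) ^ (q / 2)) ^ (1 / q) :=
        ENNReal.rpow_le_rpow h2 (by positivity)
    _ ≤ ((XN x ^ (2 : ℝ)) ^ (q / 2)) ^ (1 / q) :=
        ENNReal.rpow_le_rpow (ENNReal.rpow_le_rpow h1 (by positivity)) (by positivity)
    _ = XN x := by
        rw [← ENNReal.rpow_mul, ← ENNReal.rpow_mul]
        have : 2 * (q / 2 * (1 / q)) = 1 := by field_simp
        rw [this, ENNReal.rpow_one]

/-- sums over geometric sequences -/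
lemma geo_sum {a : ℝ} (ha : 0 < a) (m : ℕ) :
    ∑ j ∈ Finset.range m, min (a * (1 / 2) ^ j) (1 / (a * (1 / 2) ^ j)) ≤ 4 := by
  rw [← Finset.sum_range_reflect]
  refine sep_sum (x := fun j => a * (1 / 2) ^ (m - 1 - j)) (fun i _ => by positivity) fun i j hij hj => ?_
  have h1 : ((1 : ℝ) / 2) ^ (m - 1 - i) ≤ (1 / 2) ^ (m - 1 - j + 1) :=
    pow_le_pow_of_le_one (by norm_num) (by norm_num) (by omega)
  rw [pow_succ] at h1
  show 2 * (a * (1 / 2) ^ (m - 1 - i)) ≤ a * (1 / 2) ^ (m - 1 - j)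
  nlinarith

/-- the waves in the `ℓ^q` norm of the windows -/
lemma DN_waves {c D1 q : ℝ} (hc : 0 < c) (hD : 0 ≤ D1) (hq : 1 ≤ q) {n : ℕ} {N : ℕ → ℕ} (hN1 : ∀ i < n, 1 ≤ N i)
    (hN : ∀ i j, i < j → j < n → 16 * N i ≤ N j) {W : ℕ → K → C3} (hW : ∀ i < n, SN (W i))
    (hb : ∀ i < n, ∑' k, ‖W i k‖ ≤ D1 * N i) :
    DN q (∑ i ∈ Finset.range n, Ex (c * (N i : ℝ) ^ 2) (W i)) ≤
      (n : ℝ≥0∞) ^ (1 / q) * ENNReal.ofReal (4 * (D1 * Real.sqrt (4 / c))) := by
  have hq0 : 0 < q := by linarith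
  have hsc : 0 < Real.sqrt (c / 4) := Real.sqrt_pos.2 (by positivity)
  have h3 : 0 < Real.sqrt (4 / c) := Real.sqrt_pos.2 (by positivity)
  set y : ℕ → ℕ → ℝ := fun j i => Real.sqrt (c / 4) * N i * (1 / 2) ^ j with hy
  have hNp : ∀ i < n, (0 : ℝ) < N i := fun i hi => by exact_mod_cast hN1 i hi
  have hy0 : ∀ j, ∀ i < n, 0 < y j i := fun j i hi => by have := hNp i hi; simp only [hy]; positivity
  have hsq : ∀ j : ℕ, Real.sqrt ((1 / 4) ^ j) = (1 / 2) ^ j := by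
    intro j
    rw [show ((1 : ℝ) / 4) ^ j = ((1 / 2) ^ j) ^ 2 by rw [← pow_mul, mul_comm j 2, pow_mul]; norm_num]
    exact Real.sqrt_sq (by positivity)
  have hLV : ∀ j : ℕ, LV ((1 / 4) ^ j) (∑ i ∈ Finset.range n, Ex (c * (N i : ℝ) ^ 2) (W i)) ≤
      ENNReal.ofReal (D1 * Real.sqrt (4 / c) * ∑ i ∈ Finset.range n, min (y j i) (1 / y j i)) := by
    intro j
    have ht : (0 : ℝ) < (1 / 4) ^ j := by positivity
    refine (LV_sum _ n _ fun i => Ex_cf _ _).trans ?_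
    rw [Finset.mul_sum, ENNReal.ofReal_sum_of_nonneg (fun i hi => by
      have := hy0 j i (Finset.mem_range.1 hi)
      have h8 : 0 ≤ min (y j i) (1 / y j i) := le_min this.le (by positivity)
      positivity)]
    refine Finset.sum_le_sum fun i hi => ?_
    have hi' : i < n := Finset.mem_range.1 hi
    have hNi := hNp i hi'
    refine (LV_Ex (by positivity) ht (hW i hi')).trans (ENNReal.ofReal_le_ofReal ?_)
    have h4 := gauss_le (show 0 < c / 2 by positivity) (show 0 < N i * Real.sqrt ((1 / 4) ^ j) by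
      have := Real.sqrt_pos.2 ht; positivity)
    have e : c / 2 * (N i * Real.sqrt ((1 / 4) ^ j)) ^ 2 / 2 = c * (N i : ℝ) ^ 2 * ((1 / 4) ^ j / 4) := by
      rw [mul_pow, Real.sq_sqrt ht.le]; ring
    have e2 : c / 2 / 2 = c / 4 := by ring
    have e3 : 2 / (c / 2) = 4 / c := by field_simp; norm_num
    have e4 : Real.sqrt (c / 4) * (N i * Real.sqrt ((1 / 4) ^ j)) = y j i := by
      rw [hsq]; simp only [hy]; ring
    rw [e, e2, e3, e4] at h4
    calc Real.sqrt ((1 / 4) ^ j) * ((∑' k, ‖W i k‖) * Real.exp (-(c * (N i : ℝ) ^ 2 * ((1 / 4) ^ j / 4))))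
        ≤ Real.sqrt ((1 / 4) ^ j) * ((D1 * N i) * Real.exp (-(c * (N i : ℝ) ^ 2 * ((1 / 4) ^ j / 4)))) := by
          have := hb i hi'
          gcongr
      _ = D1 * (N i * Real.sqrt ((1 / 4) ^ j) * Real.exp (-(c * (N i : ℝ) ^ 2 * ((1 / 4) ^ j / 4)))) := by ring
      _ ≤ D1 * (Real.sqrt (4 / c) * min (y j i) (1 / y j i)) := mul_le_mul_of_nonneg_left h4 hD
      _ = _ := by ring
  have hS4 : ∀ j, ∑ i ∈ Finset.range n, min (y j i) (1 / y j i) ≤ 4 := by
    intro j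
    refine sep_sum (hy0 j) fun i i' hii hi' => ?_
    have h5 : (16 : ℝ) * N i ≤ N i' := by exact_mod_cast hN i i' hii hi'
    have h6 := hNp i (hii.trans hi')
    simp only [hy]
    have h7 : 2 * (N i : ℝ) ≤ N i' := by linarith
    calc 2 * (Real.sqrt (c / 4) * N i * (1 / 2) ^ j) = Real.sqrt (c / 4) * (2 * N i) * (1 / 2) ^ j := by ring
      _ ≤ _ := by gcongr
  have hm0 : ∀ j, ∀ i ∈ Finset.range n, 0 ≤ min (y j i) (1 / y j i) := fun j i hi => by
    have := hy0 j i (Finset.mem_range.1 hi)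
    exact le_min this.le (by positivity)
  have hS0 : ∀ j, 0 ≤ ∑ i ∈ Finset.range n, min (y j i) (1 / y j i) := fun j => Finset.sum_nonneg (hm0 j)
  set A := D1 * Real.sqrt (4 / c) with hA
  have hA0 : 0 ≤ A := by positivity
  have hpow : ∀ j, ENNReal.ofReal (A * ∑ i ∈ Finset.range n, min (y j i) (1 / y j i)) ^ q ≤
      ENNReal.ofReal (A ^ q * 4 ^ (q - 1)) * ∑ i ∈ Finset.range n, ENNReal.ofReal (min (y j i) (1 / y j i)) := by
    intro j
    rw [ENNReal.ofReal_rpow_of_nonneg (mul_nonneg hA0 (hS0 j)) hq0.le, ← ENNReal.ofReal_sum_of_nonneg (hm0 j),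
      ← ENNReal.ofReal_mul (by positivity)]
    apply ENNReal.ofReal_le_ofReal
    set Sj := ∑ i ∈ Finset.range n, min (y j i) (1 / y j i) with hSj
    rw [Real.mul_rpow hA0 (hS0 j), mul_assoc]
    apply mul_le_mul_of_nonneg_left _ (by positivity)
    rcases eq_or_lt_of_le (hS0 j) with h | h
    · rw [← h, Real.zero_rpow hq0.ne']
      exact mul_nonneg (by positivity) (hS0 j)
    · calc Sj ^ q = Sj ^ (q - 1) * Sj := by
            rw [← Real.rpow_add_one h.ne']; congr 1; ring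
        _ ≤ 4 ^ (q - 1) * Sj := by
            apply mul_le_mul_of_nonneg_right _ h.le
            exact Real.rpow_le_rpow h.le (hS4 j) (by linarith)
  have hgeo : ∀ i < n, ∑' j : ℕ, ENNReal.ofReal (min (y j i) (1 / y j i)) ≤ 4 := by
    intro i hi
    rw [ENNReal.tsum_eq_iSup_nat]
    refine iSup_le fun m => ?_
    rw [← ENNReal.ofReal_sum_of_nonneg fun j _ => hm0 j i (Finset.mem_range.2 hi)]
    have hNi := hNp i hi
    have := geo_sum (a := Real.sqrt (c / 4) * N i) (by positivity) m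
    rw [show (4 : ℝ≥0∞) = ENNReal.ofReal 4 by norm_num]
    exact ENNReal.ofReal_le_ofReal this
  refine (DN_mono' hq0 hLV).trans ?_
  have htot : ∑' j : ℕ, ENNReal.ofReal (A * ∑ i ∈ Finset.range n, min (y j i) (1 / y j i)) ^ q ≤
      n * ENNReal.ofReal (4 * A) ^ q := by
    calc _ ≤ ∑' j : ℕ, ENNReal.ofReal (A ^ q * 4 ^ (q - 1)) *
          ∑ i ∈ Finset.range n, ENNReal.ofReal (min (y j i) (1 / y j i)) := ENNReal.tsum_le_tsum hpow
      _ = ENNReal.ofReal (A ^ q * 4 ^ (q - 1)) * ∑ i ∈ Finset.range n, ∑' j : ℕ,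
          ENNReal.ofReal (min (y j i) (1 / y j i)) := by
          rw [ENNReal.tsum_mul_left, Summable.tsum_finsetSum fun i _ => ENNReal.summable]
      _ ≤ ENNReal.ofReal (A ^ q * 4 ^ (q - 1)) * ∑ _i ∈ Finset.range n, 4 :=
          mul_le_mul' le_rfl (Finset.sum_le_sum fun i hi => hgeo i (Finset.mem_range.1 hi))
      _ = _ := by
          rw [Finset.sum_const, Finset.card_range, nsmul_eq_mul, ENNReal.ofReal_rpow_of_nonneg (by positivity) hq0.le,
            Real.mul_rpow (by norm_num) hA0]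
          have e1 : (4 : ℝ) ^ q = 4 ^ (q - 1) * 4 := by
            rw [← Real.rpow_add_one (by norm_num)]; congr 1; ring
          rw [e1, show (4 : ℝ≥0∞) = ENNReal.ofReal 4 by norm_num, mul_comm (n : ℝ≥0∞) (ENNReal.ofReal 4), ← mul_assoc,
            ← ENNReal.ofReal_mul (by positivity), mul_comm (n : ℝ≥0∞)]
          congr 2
          ring
  calc _ ≤ (n * ENNReal.ofReal (4 * A) ^ q) ^ (1 / q) := ENNReal.rpow_le_rpow htot (by positivity)
    _ = _ := by
        rw [ENNReal.mul_rpow_of_nonneg _ _ (by positivity), ← ENNReal.rpow_mul, mul_one_div_cancel hq0.ne',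
          ENNReal.rpow_one]

/-- Minkowski's inequality for infinite sums -/
lemma lq_tsum {q : ℝ} (hq : 1 ≤ q) (y : ℕ → ℕ → ℝ≥0∞) :
    (∑' j, (∑' n, y n j) ^ q) ^ (1 / q) ≤ ∑' n, (∑' j, y n j ^ q) ^ (1 / q) := by
  have hq0 : 0 < q := by linarith
  set B := ∑' n, (∑' j, y n j ^ q) ^ (1 / q) with hB
  have hfin : ∀ N, (∑' j, (∑ n ∈ Finset.range N, y n j) ^ q) ^ (1 / q) ≤
      ∑ n ∈ Finset.range N, (∑' j, y n j ^ q) ^ (1 / q) := by
    intro N
    induction N with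
    | zero =>
      simp only [Finset.sum_range_zero, ENNReal.zero_rpow_of_pos hq0, tsum_zero]
      rw [ENNReal.zero_rpow_of_pos (by positivity)]
    | succ N ih =>
      simp_rw [Finset.sum_range_succ]
      exact (lq_add hq _ _).trans (add_le_add ih le_rfl)
  have h1 : ∑' j, (∑' n, y n j) ^ q ≤ B ^ q := by
    rw [ENNReal.tsum_eq_iSup_sum]
    refine iSup_le fun s => ?_
    have ht : Tendsto (fun N => ∑ j ∈ s, (∑ n ∈ Finset.range N, y n j) ^ q) atTop
        (𝓝 (∑ j ∈ s, (∑' n, y n j) ^ q)) :=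
      tendsto_finsetSum _ fun j _ =>
        ((ENNReal.continuous_rpow_const (y := q)).tendsto _).comp (ENNReal.tendsto_nat_tsum _)
    refine le_of_tendsto ht (Eventually.of_forall fun N => ?_)
    calc _ ≤ ∑' j, (∑ n ∈ Finset.range N, y n j) ^ q := ENNReal.sum_le_tsum s
      _ = ((∑' j, (∑ n ∈ Finset.range N, y n j) ^ q) ^ (1 / q)) ^ q := by
          rw [← ENNReal.rpow_mul, one_div_mul_cancel hq0.ne', ENNReal.rpow_one]
      _ ≤ B ^ q := ENNReal.rpow_le_rpow ((hfin N).trans (ENNReal.sum_le_tsum _)) hq0.le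
  calc _ ≤ (B ^ q) ^ (1 / q) := ENNReal.rpow_le_rpow h1 (by positivity)
    _ = B := by rw [← ENNReal.rpow_mul, mul_one_div_cancel hq0.ne', ENNReal.rpow_one]

lemma rpow_inv_ne {q : ℝ} (hq : 0 < q) {x : ℝ≥0∞} : x ^ (1 / q) ≠ ⊤ ↔ x ≠ ⊤ := by
  constructor
  · intro h hx
    exact h (by rw [hx, ENNReal.top_rpow_of_pos (by positivity)])
  · intro h
    exact ENNReal.rpow_ne_top_of_nonneg (by positivity) h

lemma lqf_add {q : ℝ} (hq : 1 ≤ q) {y z : ℕ → ℝ≥0∞} (hy : ∑' j, y j ^ q ≠ ⊤) (hz : ∑' j, z j ^ q ≠ ⊤) :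
    ∑' j, (y j + z j) ^ q ≠ ⊤ := by
  have hq0 : 0 < q := by linarith
  rw [← rpow_inv_ne hq0] at hy hz ⊢
  exact ne_top_of_le_ne_top (ENNReal.add_ne_top.2 ⟨hy, hz⟩) (lq_add hq y z)

lemma lqf_mul {q : ℝ} (hq : 0 < q) {y : ℕ → ℝ≥0∞} (hy : ∑' j, y j ^ q ≠ ⊤) {a : ℝ≥0∞} (ha : a ≠ ⊤) :
    ∑' j, (a * y j) ^ q ≠ ⊤ := by
  simp_rw [ENNReal.mul_rpow_of_nonneg _ _ hq.le]
  rw [ENNReal.tsum_mul_left]
  exact ENNReal.mul_ne_top (ENNReal.rpow_ne_top_of_nonneg hq.le ha) hy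

lemma lqf_shift {q : ℝ} {y : ℕ → ℝ≥0∞} (hy : ∑' j, y j ^ q ≠ ⊤) : ∑' j, y (j + 1) ^ q ≠ ⊤ :=
  ne_top_of_le_ne_top hy (ENNReal.tsum_comp_le_tsum_of_injective (add_left_injective 1) fun j => y j ^ q)

lemma lqf_fin {q : ℝ} (hq : 0 < q) {M : ℝ≥0∞} (hM : M ≠ ⊤) (j0 : ℕ) : ∑' j, (if j < j0 then M else 0) ^ q ≠ ⊤ := by
  rw [tsum_eq_sum (s := Finset.range j0)]
  · refine (ENNReal.sum_lt_top.2 fun j hj => ?_).ne
    rw [if_pos (Finset.mem_range.1 hj)]
    exact ENNReal.rpow_lt_top_of_nonneg hq.le hM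
  · intro j hj
    rw [if_neg (by simpa using hj), ENNReal.zero_rpow_of_pos hq]

lemma LW_le_LV {t s : ℝ} (hs : 0 < s) (h1 : s / 4 < t) (h2 : t ≤ s) {x : Fam} (hx : CF x) :
    LW t x ≤ LV s x + LV (s / 4) x := by
  unfold LW LV
  have m1 : Measurable fun r => (Ioc (s / 4) s).indicator (fun s => NW (Wa Wt.one) (at' x s)) r :=
    (NW_meas _ hx).indicator measurableSet_Ioc
  have m2 : Measurable fun r => (Ioc (s / 4 / 4) (s / 4)).indicator (fun s => NW (Wa Wt.one) (at' x s)) r :=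
    (NW_meas _ hx).indicator measurableSet_Ioc
  refine (LN_mono fun r _ => ?_).trans (LN_add_le m1 m2)
  by_cases hr : r ∈ Ioo (t / 2) t
  · rw [indicator_of_mem hr]
    by_cases h3 : s / 4 < r
    · rw [indicator_of_mem (show r ∈ Ioc (s / 4) s from ⟨h3, hr.2.le.trans h2⟩)]
      exact le_self_add
    · rw [indicator_of_mem (show r ∈ Ioc (s / 4 / 4) (s / 4) from ⟨by have := hr.1; linarith, not_lt.1 h3⟩)]
      exact le_add_self
  · rw [indicator_of_notMem hr]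
    exact zero_le

end Pool.Agent.K1H11.NS
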