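import Pool.Agent.K1H11.NS6.Phys6

/-!
# Square summable norms
-/

open MeasureTheory Set Filter Topology
open scoped ENNReal NNReal

namespace Pool.Agent.K1H11.NS

open Pool.Agent.H356R3.NS (shellSum critNorm leiLin)

/-- the `ℓ²` norm -/
noncomputable def q2 (y : K → ℝ≥0∞) : ℝ≥0∞ := (∑' k, y k ^ (2 : ℝ)) ^ (1 / 2 : ℝ)

lemma q2_mono {y z : K → ℝ≥0∞} (h : ∀ k, y k ≤ z k) : q2 y ≤ q2 z :=
  ENNReal.rpow_le_rpow (ENNReal.tsum_le_tsum fun k => ENNReal.rpow_le_rpow (h k) (by norm_num)) (by norm_num)

lemma q2_add (y z : K → ℝ≥0∞) : q2 (fun k => y k + z k) ≤ q2 y + q2 z := by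
  have h := ENNReal.lintegral_Lp_add_le (μ := Measure.count) (p := 2)
    (measurable_of_countable y).aemeasurable (measurable_of_countable z).aemeasurable (by norm_num)
  rw [lintegral_count, lintegral_count, lintegral_count] at h
  exact h

lemma q2_mul (c : ℝ≥0∞) (y : K → ℝ≥0∞) : q2 (fun k => c * y k) = c * q2 y := by
  unfold q2
  simp_rw [ENNReal.mul_rpow_of_nonneg _ _ (by norm_num : (0 : ℝ) ≤ 2)]
  rw [ENNReal.tsum_mul_left, ENNReal.mul_rpow_of_nonneg _ _ (by norm_num), ← ENNReal.rpow_mul]
  norm_num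

lemma q2_le (y : K → ℝ≥0∞) : q2 y ≤ ∑' k, y k := by
  unfold q2
  calc _ ≤ ((∑' k, y k) ^ (2 : ℝ)) ^ (1 / 2 : ℝ) :=
        ENNReal.rpow_le_rpow (tsum_rpow_le y (by norm_num)) (by norm_num)
    _ = _ := by rw [← ENNReal.rpow_mul]; norm_num

lemma q2_sq (y : K → ℝ≥0∞) : q2 y ^ 2 = ∑' k, y k ^ 2 := by
  unfold q2
  rw [← ENNReal.rpow_two, ← ENNReal.rpow_mul]
  norm_num

lemma q2_zero : q2 (fun _ => 0) = 0 := by
  unfold q2
  simp

lemma q2_sum {n : ℕ} (y : ℕ → K → ℝ≥0∞) :
    q2 (fun k => ∑ i ∈ Finset.range n, y i k) ≤ ∑ i ∈ Finset.range n, q2 (y i) := by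
  induction n with
  | zero => simp [q2_zero]
  | succ n ih =>
    simp_rw [Finset.sum_range_succ]
    exact (q2_add _ _).trans (add_le_add ih le_rfl)

/-- the norm of the coefficients -/
noncomputable def E2 (x : K → C3) : ℝ≥0∞ := q2 fun k => ‖x k‖ₑ

lemma E2_add (x y : K → C3) : E2 (x + y) ≤ E2 x + E2 y :=
  (q2_mono fun k => enorm_add_le _ _).trans (q2_add _ _)

lemma E2_smul (c : ℝ) (x : K → C3) : E2 (c • x) = ENNReal.ofReal |c| * E2 x := by
  unfold E2
  rw [← q2_mul]
  congr 1
  funext k
  rw [Pi.smul_apply, enorm_smul, ← ofReal_norm c, Real.norm_eq_abs]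

lemma E2_le_tsum {x : K → C3} (hx : SN x) : E2 x ≤ ENNReal.ofReal (∑' k, ‖x k‖) := by
  refine (q2_le _).trans (le_of_eq ?_)
  rw [ENNReal.ofReal_tsum_of_nonneg (fun _ => norm_nonneg _) hx]
  exact tsum_congr fun k => (ofReal_norm _).symm

/-- the norm of `H⁻¹` -/
noncomputable def NH (x : K → C3) : ℝ≥0∞ := q2 fun k => if k = 0 then 0 else ‖x k‖ₑ / ENNReal.ofReal (nk k)

lemma NH_solid : SolidN NH where
  add := fun x y => by
    refine (q2_mono fun k => ?_).trans (q2_add _ _)
    by_cases hk : k = 0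
    · simp [hk]
    · rw [if_neg hk, if_neg hk, if_neg hk, ← ENNReal.add_div]
      exact ENNReal.div_le_div_right (enorm_add_le _ _) _
  smul := fun c x => by
    unfold NH
    rw [← q2_mul]
    refine q2_mono fun k => ?_
    by_cases hk : k = 0
    · simp [hk]
    · rw [if_neg hk, if_neg hk, Pi.smul_apply, enorm_smul, ← ofReal_norm c, Real.norm_eq_abs, mul_div_assoc]
  le := fun x => by
    refine (q2_le _).trans ?_
    refine le_trans (b := leiLin x) ?_ ?_
    · unfold leiLin
      refine ENNReal.tsum_le_tsum fun k => ?_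
      by_cases hk : k = 0
      · simp [hk]
      · rw [if_neg hk, if_neg hk]
        exact le_rfl
    · calc leiLin x = 1 * leiLin x := (one_mul _).symm
        _ ≤ _ := mul_le_mul' (by norm_num) le_rfl
  mono := fun x y h => by
    refine q2_mono fun k => ?_
    by_cases hk : k = 0
    · simp [hk]
    · rw [if_neg hk, if_neg hk]
      apply ENNReal.div_le_div_right
      rw [← ofReal_norm, ← ofReal_norm]
      exact ENNReal.ofReal_le_ofReal (h k hk)

lemma trc_NH {v : K → C3} (hv : NH v ≠ ⊤) : Tendsto (fun n => NH (trc n v - v)) atTop (𝓝 0) := by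
  have h1 : ∑' k, (if k = 0 then (0 : ℝ≥0∞) else ‖v k‖ₑ / ENNReal.ofReal (nk k)) ^ (2 : ℝ) ≠ ⊤ := by
    intro h2
    apply hv
    unfold NH q2
    rw [h2, ENNReal.top_rpow_of_pos (by norm_num)]
  have h2 : Tendsto (fun n => ∑' k, (if k = 0 then (0 : ℝ≥0∞) else
      ‖(trc n v - v) k‖ₑ / ENNReal.ofReal (nk k)) ^ (2 : ℝ)) atTop (𝓝 0) := by
    refine tail_tendsto h1 (fun n k => ?_) fun k => ?_
    · by_cases hk : k = 0
      · simp [hk]
      · rw [if_neg hk, if_neg hk]
        apply ENNReal.rpow_le_rpow _ (by norm_num)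
        apply ENNReal.div_le_div_right
        rw [← ofReal_norm, ← ofReal_norm]
        exact ENNReal.ofReal_le_ofReal (trc_sub_le n v k hk)
    · obtain ⟨n0, hn0⟩ := exists_nat_gt (nk k)
      filter_upwards [eventually_ge_atTop n0] with n hn
      by_cases hk : k = 0
      · simp [hk]
      · have h8 : (n0 : ℝ) ≤ n := by exact_mod_cast hn
        rw [if_neg hk, trc_sub_zero v hk (by linarith), enorm_zero, ENNReal.zero_div,
          ENNReal.zero_rpow_of_pos (by norm_num)]
  have h3 := ((ENNReal.continuous_rpow_const (y := (1 / 2 : ℝ))).tendsto 0).comp h2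
  rw [ENNReal.zero_rpow_of_pos (by norm_num)] at h3
  exact h3

/-- the norm of `L²((0, ∞); ℓ²)` -/
noncomputable def L2N (u : Fam) : ℝ≥0∞ := LN (fun t => E2 (at' u t))

lemma E2_meas {u : Fam} (hu : CF u) : Measurable fun t => E2 (at' u t) := by
  unfold E2 q2
  refine Measurable.pow_const (Measurable.tsum fun k => ?_) _
  exact ((hu k).enorm.measurable).pow_const _

lemma L2N_add {x y : Fam} (hx : CF x) (hy : CF y) : L2N (x + y) ≤ L2N x + L2N y :=
  (LN_mono fun t _ => E2_add _ _).trans (LN_add_le (E2_meas hx) (E2_meas hy))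

lemma L2N_le_XN (x : Fam) : L2N x ≤ XN x := by
  refine LN_mono fun t _ => ?_
  rw [NW_Wa_zero]
  exact q2_le _

lemma L2N_sum (n : ℕ) (x : ℕ → Fam) (hx : ∀ i, CF (x i)) :
    L2N (∑ i ∈ Finset.range n, x i) ≤ ∑ i ∈ Finset.range n, L2N (x i) := by
  induction n with
  | zero =>
    rw [Finset.sum_range_zero, Finset.sum_range_zero]
    have h0 : ∀ s, E2 (at' (0 : Fam) s) = 0 := fun s => by
      unfold E2
      have : ∀ k, ‖at' (0 : Fam) s k‖ₑ = 0 := fun k => by simp [at']
      simp_rw [this]
      exact q2_zero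
    simp [L2N, LN, h0]
  | succ n ih =>
    have c1 := (LW_sum 0 n x hx).1
    rw [Finset.sum_range_succ, Finset.sum_range_succ]
    exact (L2N_add c1 (hx n)).trans (add_le_add ih le_rfl)

/-- waves with separated frequencies are nearly orthogonal in time -/
lemma lint_waves {c : ℝ} (hc : 0 < c) {n : ℕ} {N : ℕ → ℕ} (hN1 : ∀ i < n, 1 ≤ N i)
    (hN : ∀ i j, i < j → j < n → 16 * N i ≤ N j) :
    ∫⁻ t in Ioi 0, ENNReal.ofReal ((∑ i ∈ Finset.range n, (N i : ℝ) * Real.exp (-(c * (N i : ℝ) ^ 2 * max t 0))) ^ 2)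
      ≤ ENNReal.ofReal (3 * n / c) := by
  have hsum : ∀ m < n, 15 * ∑ i ∈ Finset.range m, N i ≤ N m := by
    intro m
    induction m with
    | zero => intro _; simp
    | succ m ih =>
      intro hm
      have h1 := ih (by omega)
      have h2 := hN m (m + 1) (by omega) hm
      rw [Finset.sum_range_succ]
      omega
  have key : ∀ m ≤ n, ∫⁻ t in Ioi 0, ENNReal.ofReal ((∑ i ∈ Finset.range m, (N i : ℝ) *
      Real.exp (-(c * (N i : ℝ) ^ 2 * max t 0))) ^ 2) ≤ ENNReal.ofReal (3 * m / c) := by
    intro m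
    induction m with
    | zero => intro _; simp
    | succ m ih =>
      intro hm
      have hNm : (1 : ℝ) ≤ N m := by exact_mod_cast hN1 m (by omega)
      have h15 : 15 * ∑ i ∈ Finset.range m, (N i : ℝ) ≤ N m := by exact_mod_cast hsum m (by omega)
      have hpt : ∀ t : ℝ, (∑ i ∈ Finset.range (m + 1), (N i : ℝ) * Real.exp (-(c * (N i : ℝ) ^ 2 * max t 0))) ^ 2 ≤
          (∑ i ∈ Finset.range m, (N i : ℝ) * Real.exp (-(c * (N i : ℝ) ^ 2 * max t 0))) ^ 2 +
            3 * (N m : ℝ) ^ 2 * Real.exp (-(c * (N m : ℝ) ^ 2 * max t 0)) := by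
        intro t
        rw [Finset.sum_range_succ]
        set S := ∑ i ∈ Finset.range m, (N i : ℝ) * Real.exp (-(c * (N i : ℝ) ^ 2 * max t 0)) with hS
        set e := Real.exp (-(c * (N m : ℝ) ^ 2 * max t 0)) with he
        have he0 : 0 < e := Real.exp_pos _
        have he1 : e ≤ 1 := exp_le_one' (by positivity) t
        have hS0 : 0 ≤ S := Finset.sum_nonneg fun i _ => by positivity
        have hS1 : S ≤ N m := by
          refine le_trans (Finset.sum_le_sum fun i _ => ?_) (b := ∑ i ∈ Finset.range m, (N i : ℝ)) ?_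
          · exact mul_le_of_le_one_right (Nat.cast_nonneg _) (exp_le_one' (by positivity) t)
          · have : (0 : ℝ) ≤ ∑ i ∈ Finset.range m, (N i : ℝ) := Finset.sum_nonneg fun i _ => Nat.cast_nonneg _
            linarith
        have h1 : S * ((N m : ℝ) * e) ≤ N m * (N m * e) := mul_le_mul_of_nonneg_right hS1 (by positivity)
        have h2 : ((N m : ℝ) * e) * (N m * e) ≤ N m * (N m * e) := by
          apply mul_le_mul_of_nonneg_right _ (by positivity)
          exact mul_le_of_le_one_right (by positivity) he1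
        nlinarith
      have hmeas : Measurable fun t : ℝ => ENNReal.ofReal ((∑ i ∈ Finset.range m, (N i : ℝ) *
          Real.exp (-(c * (N i : ℝ) ^ 2 * max t 0))) ^ 2) := by
        apply ENNReal.measurable_ofReal.comp
        apply Continuous.measurable
        fun_prop
      calc _ ≤ ∫⁻ t in Ioi 0, (ENNReal.ofReal ((∑ i ∈ Finset.range m, (N i : ℝ) *
            Real.exp (-(c * (N i : ℝ) ^ 2 * max t 0))) ^ 2) +
            ENNReal.ofReal (3 * (N m : ℝ) ^ 2) * ENNReal.ofReal (Real.exp (-(c * (N m : ℝ) ^ 2 * max t 0)))) := by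
            refine lintegral_mono fun t => ?_
            rw [← ENNReal.ofReal_mul (by positivity), ← ENNReal.ofReal_add (by positivity) (by positivity)]
            exact ENNReal.ofReal_le_ofReal (hpt t)
        _ = (∫⁻ t in Ioi 0, ENNReal.ofReal ((∑ i ∈ Finset.range m, (N i : ℝ) *
            Real.exp (-(c * (N i : ℝ) ^ 2 * max t 0))) ^ 2)) +
            ENNReal.ofReal (3 * (N m : ℝ) ^ 2) * ENNReal.ofReal (1 / (c * (N m : ℝ) ^ 2)) := by
            rw [lintegral_add_left hmeas, lintegral_const_mul _ (by fun_prop), lint_exp' (by positivity)]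
        _ ≤ ENNReal.ofReal (3 * m / c) + ENNReal.ofReal (3 / c) := by
            refine add_le_add (ih (by omega)) (le_of_eq ?_)
            rw [← ENNReal.ofReal_mul (by positivity)]
            congr 1
            field_simp
        _ = _ := by
            rw [← ENNReal.ofReal_add (by positivity) (by positivity)]
            congr 1
            push_cast
            ring
  exact key n le_rfl

lemma L2N_waves {c : ℝ} (hc : 0 < c) {n : ℕ} {N : ℕ → ℕ} (hN1 : ∀ i < n, 1 ≤ N i)
    (hN : ∀ i j, i < j → j < n → 16 * N i ≤ N j) {W : ℕ → K → C3} {y : ℝ} (hy : 0 ≤ y)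
    (hb : ∀ i < n, E2 (W i) ≤ ENNReal.ofReal (y * N i)) :
    L2N (∑ i ∈ Finset.range n, Ex (c * (N i : ℝ) ^ 2) (W i)) ≤ ENNReal.ofReal (y * Real.sqrt (3 * n / c)) := by
  have h1 : ∀ t : ℝ, E2 (at' (∑ i ∈ Finset.range n, Ex (c * (N i : ℝ) ^ 2) (W i)) t) ≤
      ENNReal.ofReal y * ENNReal.ofReal (∑ i ∈ Finset.range n, (N i : ℝ) *
        Real.exp (-(c * (N i : ℝ) ^ 2 * max t 0))) := by
    intro t
    have e1 : ∀ k, ‖at' (∑ i ∈ Finset.range n, Ex (c * (N i : ℝ) ^ 2) (W i)) t k‖ₑ ≤
        ∑ i ∈ Finset.range n, ENNReal.ofReal (Real.exp (-(c * (N i : ℝ) ^ 2 * max t 0))) * ‖W i k‖ₑ := by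
      intro k
      have : at' (∑ i ∈ Finset.range n, Ex (c * (N i : ℝ) ^ 2) (W i)) t k =
          ∑ i ∈ Finset.range n, Ex (c * (N i : ℝ) ^ 2) (W i) k t := by
        simp [at', Finset.sum_apply]
      rw [this]
      refine (enorm_sum_le _ _).trans (Finset.sum_le_sum fun i _ => ?_)
      rw [enorm_Ex, mul_comm]
    refine (q2_mono e1).trans ((q2_sum (fun i k => ENNReal.ofReal (Real.exp (-(c * (N i : ℝ) ^ 2 * max t 0))) *
      ‖W i k‖ₑ)).trans ?_)
    rw [← ENNReal.ofReal_mul hy, Finset.mul_sum, ENNReal.ofReal_sum_of_nonneg (fun i _ => by positivity)]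
    refine Finset.sum_le_sum fun i hi => ?_
    rw [q2_mul]
    refine (mul_le_mul' le_rfl (hb i (Finset.mem_range.1 hi))).trans (le_of_eq ?_)
    rw [← ENNReal.ofReal_mul (Real.exp_pos _).le]
    congr 1
    ring
  unfold L2N
  refine (LN_mono fun t _ => h1 t).trans ?_
  rw [LN_const_mul _ (by
    apply ENNReal.measurable_ofReal.comp
    apply Continuous.measurable
    fun_prop), ENNReal.ofReal_mul hy]
  apply mul_le_mul' le_rfl
  unfold LN
  have h2 := lint_waves hc hN1 hN
  rw [Real.sqrt_eq_rpow, ← ENNReal.ofReal_rpow_of_nonneg (by positivity) (by norm_num)]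
  apply ENNReal.rpow_le_rpow _ (by norm_num)
  refine le_trans (le_of_eq (lintegral_congr fun t => ?_)) h2
  rw [ENNReal.rpow_two, ← ENNReal.ofReal_pow (Finset.sum_nonneg fun i _ => by positivity)]

/-- waves with separated frequencies are nearly orthogonal -/
lemma NH_waves {n : ℕ} {N : ℕ → ℕ} (hN1 : ∀ i < n, 1 ≤ N i) (hN : ∀ i j, i < j → j < n → 16 * N i ≤ N j)
    {w : ℕ → K → C3} (hw : ∀ i < n, SN (w i)) {y τ : ℝ} (hy : 0 ≤ y)
    (hA : ∀ i < n, E2 (w i) ≤ ENNReal.ofReal (y * N i))
    (hτ : ∀ i < n, ∑' k, (if nk k < (N i : ℝ) / 2 ∨ 2 * (N i : ℝ) ≤ nk k then ‖w i k‖ / nk k else 0) ≤ τ)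
    {b : ℕ → ℝ} (hb : ∀ i, |b i| ≤ 1) :
    NH (∑ i ∈ Finset.range n, b i • w i) ≤ ENNReal.ofReal (2 * y * Real.sqrt n) + n * ENNReal.ofReal τ := by
  classical
  set P : ℕ → K → Prop := fun i k => nk k < (N i : ℝ) / 2 ∨ 2 * (N i : ℝ) ≤ nk k with hP
  set near : ℕ → K → ℝ≥0∞ := fun i k => if P i k then 0 else if k = 0 then 0 else ‖w i k‖ₑ / ENNReal.ofReal (nk k)
  set far : ℕ → K → ℝ≥0∞ := fun i k => if P i k then (if k = 0 then 0 else ‖w i k‖ₑ / ENNReal.ofReal (nk k)) else 0
  have e1 : NH (∑ i ∈ Finset.range n, b i • w i) ≤ q2 (fun k => ∑ i ∈ Finset.range n, near i k) +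
      q2 (fun k => ∑ i ∈ Finset.range n, far i k) := by
    refine (q2_mono fun k => ?_).trans (q2_add _ _)
    by_cases hk : k = 0
    · simp [hk]
    · rw [if_neg hk, ← Finset.sum_add_distrib]
      have h1 : ∀ i ∈ Finset.range n, near i k + far i k = ‖w i k‖ₑ / ENNReal.ofReal (nk k) := by
        intro i _
        simp only [near, far]
        split_ifs <;> simp
      rw [Finset.sum_congr rfl h1, div_eq_mul_inv]
      simp_rw [div_eq_mul_inv]
      rw [← Finset.sum_mul]
      apply mul_le_mul' _ le_rfl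
      rw [Finset.sum_apply]
      refine (enorm_sum_le _ _).trans (Finset.sum_le_sum fun i _ => ?_)
      rw [Pi.smul_apply, enorm_smul]
      calc ‖b i‖ₑ * ‖w i k‖ₑ ≤ 1 * ‖w i k‖ₑ := by
            apply mul_le_mul' _ le_rfl
            rw [← ofReal_norm, ENNReal.ofReal_le_one, Real.norm_eq_abs]
            exact hb i
        _ = _ := one_mul _
  refine e1.trans (add_le_add ?_ ?_)
  · -- the near parts have disjoint supports
    have hdis : ∀ k, (∑ i ∈ Finset.range n, near i k) ^ 2 ≤ ∑ i ∈ Finset.range n, near i k ^ 2 := by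
      intro k
      by_cases hex : ∃ i ∈ Finset.range n, near i k ≠ 0
      · obtain ⟨i, hi, hik⟩ := hex
        have h1 : ∀ j ∈ Finset.range n, j ≠ i → near j k = 0 := by
          intro j hj hji
          by_contra hcon
          have a1 : ¬ P i k := by
            intro h; apply hik; simp only [near, if_pos h]
          have a2 : ¬ P j k := by
            intro h; apply hcon; simp only [near, if_pos h]
          simp only [hP, not_or, not_lt, not_le] at a1 a2
          have hi' := Finset.mem_range.1 hi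
          have hj' := Finset.mem_range.1 hj
          have b1 : (1 : ℝ) ≤ N i := by exact_mod_cast hN1 i hi'
          have b2 : (1 : ℝ) ≤ N j := by exact_mod_cast hN1 j hj'
          rcases lt_or_gt_of_ne hji with h | h
          · have h3 : (16 : ℝ) * N j ≤ N i := by exact_mod_cast hN j i h hi'
            linarith
          · have h3 : (16 : ℝ) * N i ≤ N j := by exact_mod_cast hN i j h hj'
            linarith
        rw [Finset.sum_eq_single i (fun j hj hji => h1 j hj hji) (fun h => absurd hi h)]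
        exact Finset.single_le_sum (f := fun i => near i k ^ 2) (fun _ _ => zero_le) hi
      · push Not at hex
        rw [Finset.sum_eq_zero hex]
        simp
    have h2 : q2 (fun k => ∑ i ∈ Finset.range n, near i k) ^ 2 ≤ ENNReal.ofReal (2 * y * Real.sqrt n) ^ 2 := by
      rw [q2_sq]
      calc _ ≤ ∑' k, ∑ i ∈ Finset.range n, near i k ^ 2 := ENNReal.tsum_le_tsum hdis
        _ = ∑ i ∈ Finset.range n, ∑' k, near i k ^ 2 := Summable.tsum_finsetSum fun i _ => ENNReal.summable
        _ ≤ ∑ _i ∈ Finset.range n, ENNReal.ofReal ((2 * y) ^ 2) := by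
            refine Finset.sum_le_sum fun i hi => ?_
            have hi' := Finset.mem_range.1 hi
            have b1 : (1 : ℝ) ≤ N i := by exact_mod_cast hN1 i hi'
            have b0 : (0 : ℝ) < N i := by linarith
            have h3 : ∀ k, near i k ≤ ENNReal.ofReal (2 / N i) * ‖w i k‖ₑ := by
              intro k
              simp only [near]
              split_ifs with h4 h5
              · exact zero_le
              · exact zero_le
              · simp only [hP, not_or, not_lt, not_le] at h4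
                have hn := nk_pos h5
                rw [div_eq_mul_inv, mul_comm, ← ENNReal.ofReal_inv_of_pos hn]
                apply mul_le_mul' _ le_rfl
                apply ENNReal.ofReal_le_ofReal
                rw [← one_div, div_le_div_iff₀ hn b0]
                linarith
            calc ∑' k, near i k ^ 2 = q2 (near i) ^ 2 := (q2_sq _).symm
              _ ≤ (ENNReal.ofReal (2 / N i) * ENNReal.ofReal (y * N i)) ^ 2 := by
                  apply pow_le_pow_left'
                  refine (q2_mono h3).trans ?_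
                  rw [q2_mul]
                  exact mul_le_mul' le_rfl (hA i hi')
              _ = _ := by
                  rw [← ENNReal.ofReal_mul (by positivity), ← ENNReal.ofReal_pow (by positivity)]
                  congr 1
                  field_simp
        _ = _ := by
            rw [Finset.sum_const, Finset.card_range, nsmul_eq_mul, ← ENNReal.ofReal_pow (by positivity),
              mul_pow (2 * y), Real.sq_sqrt (Nat.cast_nonneg n), mul_comm ((2 * y) ^ 2), ENNReal.ofReal_mul (by positivity),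
              ENNReal.ofReal_natCast]
    exact (ENNReal.pow_le_pow_left_iff two_ne_zero).1 h2
  · refine (q2_sum far).trans ?_
    have h3 : ∀ i ∈ Finset.range n, q2 (far i) ≤ ENNReal.ofReal τ := by
      intro i hi
      have hi' := Finset.mem_range.1 hi
      refine (q2_le _).trans ?_
      have h4 : ∀ k, far i k = ENNReal.ofReal (if P i k then ‖w i k‖ / nk k else 0) := by
        intro k
        simp only [far]
        by_cases h5 : P i k
        · rw [if_pos h5, if_pos h5]
          by_cases hk : k = 0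
          · subst hk; simp [nk_zero]
          · rw [if_neg hk, ENNReal.ofReal_div_of_pos (nk_pos hk), ofReal_norm]
        · rw [if_neg h5, if_neg h5]; simp
      simp_rw [h4]
      rw [← ENNReal.ofReal_tsum_of_nonneg]
      · exact ENNReal.ofReal_le_ofReal (hτ i hi')
      · intro k
        split_ifs
        · exact div_nonneg (norm_nonneg _) (nk_nonneg k)
        · exact le_rfl
      · refine (summ_div_nk (hw i hi')).of_nonneg_of_le (fun k => ?_) fun k => ?_
        · split_ifs
          · exact div_nonneg (norm_nonneg _) (nk_nonneg k)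
          · exact le_rfl
        · split_ifs
          · exact le_rfl
          · exact div_nonneg (norm_nonneg _) (nk_nonneg k)
    refine (Finset.sum_le_sum h3).trans (le_of_eq ?_)
    simp

end Pool.Agent.K1H11.NS
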