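import Pool.Agent.K1H11.NS7.Amp

/-!
# The stress of a fast wave
-/

open MeasureTheory Set Filter Topology
open scoped ENNReal NNReal ContDiff

namespace Pool.Agent.K1H11.NS

open H459R3.NS (ee fc fr cube S SP Per pd D Rap)
open Pool.Agent.H356R3.NS (shellSum critNorm leiLin)

lemma Wv_formula {β : ℝ} {f : E3 → ℝ} (hf : SP f) {e : Fin 3 → ℝ} {cc : Fin 3} (hcc : e cc = 0) (N : ℕ) (k : K)
    (i : Fin 3) : Wv β (fr f) e cc N k i = (β : ℂ) * (fr f (k - nn cc N) - fr f (k + nn cc N)) *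
        ((k cc : ℂ) * (e i : ℂ) - (if i = cc then ∑ j, (k j : ℂ) * (e j : ℂ) else 0)) := by
  rw [← cF_wave hf hcc]
  have hpi : (Real.pi : ℂ) ≠ 0 := by exact_mod_cast Real.pi_ne_zero
  have hI : Complex.I ≠ 0 := Complex.I_ne_zero
  have hcr := cross_id hcc k i
  have e1 : cF (fun i => fr (wave β f e cc N i)) k i =
      (β : ℂ) * (fr f (k - nn cc N) - fr f (k + nn cc N)) *
        ((k (i + 1) : ℂ) * (bvec e cc (i + 2) : ℂ) - (k (i + 2) : ℂ) * (bvec e cc (i + 1) : ℂ)) := by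
    show 2 * Real.pi * Complex.I * (k (i + 1) : ℂ) * fr (wave β f e cc N (i + 2)) k -
      2 * Real.pi * Complex.I * (k (i + 2) : ℂ) * fr (wave β f e cc N (i + 1)) k = _
    rw [fr_wave hf, fr_wave hf]
    push_cast
    field_simp
  rw [e1, hcr]

/-- the symmetric tensor `e ⊗ n + n ⊗ e` -/
def tv (e : Fin 3 → ℝ) (cc j m : Fin 3) : ℝ := e j * (if m = cc then 1 else 0) + (if j = cc then 1 else 0) * e m

lemma tv_comm (e : Fin 3 → ℝ) (cc j m : Fin 3) : tv e cc j m = tv e cc m j := by unfold tv; ring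

lemma tv_le {e : Fin 3 → ℝ} (he : ∀ i, |e i| ≤ 1) (cc j m : Fin 3) : |tv e cc j m| ≤ 2 := by
  unfold tv
  have h1 : |e j * (if m = cc then (1 : ℝ) else 0)| ≤ 1 := by
    rw [abs_mul]
    have h2 : |(if m = cc then (1 : ℝ) else 0)| ≤ 1 := by split_ifs <;> simp
    calc |e j| * |(if m = cc then (1 : ℝ) else 0)| ≤ 1 * 1 := mul_le_mul (he j) h2 (abs_nonneg _) zero_le_one
      _ = 1 := one_mul 1
  have h1' : |(if j = cc then (1 : ℝ) else 0) * e m| ≤ 1 := by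
    rw [abs_mul]
    have h2 : |(if j = cc then (1 : ℝ) else 0)| ≤ 1 := by split_ifs <;> simp
    calc |(if j = cc then (1 : ℝ) else 0)| * |e m| ≤ 1 * 1 := mul_le_mul h2 (he m) (abs_nonneg _) zero_le_one
      _ = 1 := one_mul 1
  exact (abs_add_le _ _).trans (by linarith)

/-- the local stress of the wave -/
noncomputable def Tw (β : ℝ) (f : E3 → ℝ) (e : Fin 3 → ℝ) (cc : Fin 3) (N : ℕ) : Fin 3 → Fin 3 → E3 → ℝ :=
  fun j m x => (-(β / Real.pi) * tv e cc j m) * (f x * sn cc N x)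

lemma Tw_SP {β : ℝ} {f : E3 → ℝ} (hf : SP f) (e : Fin 3 → ℝ) (cc : Fin 3) (N : ℕ) (j m : Fin 3) :
    SP (Tw β f e cc N j m) := SP.cmul (hf.mul (sn_SP cc N)) _

lemma fr_Tw {β : ℝ} {f : E3 → ℝ} (hf : SP f) (e : Fin 3 → ℝ) (cc : Fin 3) (N : ℕ) (j m : Fin 3) (k : K) :
    fr (Tw β f e cc N j m) k = ((-(β / Real.pi) * tv e cc j m : ℝ) : ℂ) *
      ((fr f (k - nn cc N) - fr f (k + nn cc N)) / (2 * Complex.I)) := by
  unfold Tw
  rw [fr_cmul, fr_sn hf]

lemma coef_tv (e : Fin 3 → ℝ) (cc : Fin 3) {k : K} (_hk : k ≠ 0) (i : Fin 3) :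
    ∑ j, ∑ m, coef k i j m * (tv e cc j m : ℂ) = -(2 * Real.pi * Complex.I) *
      ((k cc : ℂ) * (e i : ℂ) + (∑ j, (k j : ℂ) * (e j : ℂ)) * ((if i = cc then 1 else 0) -
        2 * ((k i : ℂ) * (k cc : ℂ) / ((sq k : ℝ) : ℂ)))) := by
  unfold coef tv
  simp only [Fin.sum_univ_three]
  fin_cases cc <;> fin_cases i <;> simp <;> ring

lemma wave_err {β : ℝ} {f : E3 → ℝ} (hf : SP f) {e : Fin 3 → ℝ} {cc : Fin 3} (hcc : e cc = 0) (N : ℕ) {k : K}
    (hk : k ≠ 0) (i : Fin 3) : (Wv β (fr f) e cc N - pdv (Tw β f e cc N)) k i =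
      (-2 * (β : ℂ) * (fr f (k - nn cc N) - fr f (k + nn cc N)) * (∑ j, (k j : ℂ) * (e j : ℂ))) *
        ((if i = cc then 1 else 0) - (k i : ℂ) * (k cc : ℂ) / ((sq k : ℝ) : ℂ)) := by
  have hpi : (Real.pi : ℂ) ≠ 0 := by exact_mod_cast Real.pi_ne_zero
  have hI : Complex.I ≠ 0 := Complex.I_ne_zero
  rw [Pi.sub_apply, Pi.sub_apply, Wv_formula hf hcc]
  have e1 : pdv (Tw β f e cc N) k i = (-((β : ℂ) / Real.pi) * ((fr f (k - nn cc N) - fr f (k + nn cc N)) /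
      (2 * Complex.I))) * ∑ j, ∑ m, coef k i j m * (tv e cc j m : ℂ) := by
    unfold pdv
    rw [Finset.mul_sum]
    refine Finset.sum_congr rfl fun j _ => ?_
    rw [Finset.mul_sum]
    refine Finset.sum_congr rfl fun m _ => ?_
    rw [fr_Tw hf]
    push_cast
    ring
  rw [e1, coef_tv e cc hk i]
  set Z := ∑ j, (k j : ℂ) * (e j : ℂ)
  have h2 : (-((β : ℂ) / Real.pi) * ((fr f (k - nn cc N) - fr f (k + nn cc N)) / (2 * Complex.I))) *
      (-(2 * Real.pi * Complex.I) * ((k cc : ℂ) * (e i : ℂ) + Z * ((if i = cc then 1 else 0) -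
        2 * ((k i : ℂ) * (k cc : ℂ) / ((sq k : ℝ) : ℂ))))) =
      (β : ℂ) * (fr f (k - nn cc N) - fr f (k + nn cc N)) * ((k cc : ℂ) * (e i : ℂ) + Z * ((if i = cc then 1 else 0) -
        2 * ((k i : ℂ) * (k cc : ℂ) / ((sq k : ℝ) : ℂ)))) := by
    field_simp
  rw [h2]
  by_cases hi : i = cc
  · simp only [if_pos hi]; ring
  · simp only [if_neg hi]; ring

lemma wave_err_LL {β : ℝ} (hβ : 0 ≤ β) {f : E3 → ℝ} (hf : SP f) {e : Fin 3 → ℝ} (he : ∀ i, |e i| ≤ 1) {cc : Fin 3}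
    (hcc : e cc = 0) {N : ℕ} (hN : 1 ≤ N) :
    ∑' k, ‖(Wv β (fr f) e cc N - pdv (Tw β f e cc N)) k‖ / nk k ≤ 16 * β * (∑' l, pw l ^ 3 * ‖fr f l‖) / N := by
  have hN1 : (1 : ℝ) ≤ N := by exact_mod_cast hN
  have hN0 : (0 : ℝ) < N := by linarith
  set g1 : K → ℝ := fun l => 2 / N * (pw l ^ 3 * ‖fr f l‖) with hg1
  have hg1s : Summable g1 := (rr_fr hf 3).mul_left _
  have hg10 : ∀ l, 0 ≤ g1 l := fun l => by have := pw_pos l; positivity
  have key : ∀ m : ℤ, |(m : ℝ)| = N → ∀ l : K, ‖fr f l‖ * l1 l * (1 / nk (l + nn cc m)) ≤ g1 l := by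
    intro m hm l
    have h1 := om4 cc hm hN1 l
    have h2 : l1 l ≤ pw l := by unfold pw; linarith
    have h3 : (1 : ℝ) ≤ pw l := by
      unfold pw
      have := l1_nonneg l
      linarith
    have h4 : 1 / (N : ℝ) + pw l ^ 2 / (N : ℝ) ^ 2 ≤ 2 / N * pw l ^ 2 := by
      have h5 : (1 : ℝ) ≤ pw l ^ 2 := one_le_pow₀ h3
      have h6 : pw l ^ 2 / (N : ℝ) ^ 2 ≤ pw l ^ 2 / N := by
        apply div_le_div_of_nonneg_left (by positivity) hN0
        nlinarith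
      have h7 : 1 / (N : ℝ) ≤ pw l ^ 2 / N := div_le_div_of_nonneg_right h5 hN0.le
      calc _ ≤ pw l ^ 2 / N + pw l ^ 2 / N := add_le_add h7 h6
        _ = _ := by ring
    have h0 : 0 ≤ 1 / nk (l + nn cc m) := div_nonneg zero_le_one (nk_nonneg _)
    calc ‖fr f l‖ * l1 l * (1 / nk (l + nn cc m)) ≤ ‖fr f l‖ * pw l * (2 / N * pw l ^ 2) := by
          apply mul_le_mul _ (h1.trans h4) h0 (by have := pw_pos l; positivity)
          exact mul_le_mul_of_nonneg_left h2 (norm_nonneg _)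
      _ = g1 l := by simp only [hg1]; ring
  have hke : ∀ l : K, ∀ m : ℤ, ∑ j, (((l + nn cc m) j : ℤ) : ℂ) * (e j : ℂ) = ∑ j, (l j : ℂ) * (e j : ℂ) := by
    intro l m
    refine Finset.sum_congr rfl fun j _ => ?_
    by_cases hj : j = cc
    · subst hj; simp [hcc]
    · simp [nn, hj]
  have hpt : ∀ k, ‖(Wv β (fr f) e cc N - pdv (Tw β f e cc N)) k‖ / nk k ≤
      4 * β * (g1 (k - nn cc N) + g1 (k + nn cc N)) := by
    intro k
    by_cases hk : k = 0
    · subst hk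
      rw [nk_zero, div_zero]
      have := hg10 (0 - nn cc N)
      have := hg10 (0 + nn cc N)
      positivity
    have hn := nk_pos hk
    have hP : ∀ i, ‖((if i = cc then 1 else 0) - (k i : ℂ) * (k cc : ℂ) / ((sq k : ℝ) : ℂ))‖ ≤ 2 := by
      intro i
      have h4 : ‖((if i = cc then 1 else 0) : ℂ)‖ ≤ 1 := by split_ifs <;> simp
      have h5 : ‖(k i : ℂ) * (k cc : ℂ) / ((sq k : ℝ) : ℂ)‖ ≤ 1 := by
        rw [norm_div, norm_mul, Complex.norm_real, Complex.norm_intCast, Complex.norm_intCast]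
        rw [Real.norm_of_nonneg (sq_nonneg' k)]
        apply div_le_one_of_le₀ _ (sq_nonneg' k)
        rw [← nk_mul_self]
        exact mul_le_mul (abs_le_nk k i) (abs_le_nk k cc) (abs_nonneg _) (nk_nonneg k)
      exact (norm_sub_le _ _).trans (by linarith)
    set Z := ∑ j, (k j : ℂ) * (e j : ℂ) with hZ
    have hB : ‖(Wv β (fr f) e cc N - pdv (Tw β f e cc N)) k‖ ≤
        4 * β * (‖fr f (k - nn cc N)‖ * ‖Z‖ + ‖fr f (k + nn cc N)‖ * ‖Z‖) := by
      rw [pi_norm_le_iff_of_nonneg (by positivity)]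
      intro i
      rw [wave_err hf hcc N hk i, norm_mul, norm_mul, norm_mul, norm_mul, norm_neg, Complex.norm_ofNat,
        Complex.norm_real, Real.norm_of_nonneg hβ]
      have h6 := norm_sub_le (fr f (k - nn cc N)) (fr f (k + nn cc N))
      calc 2 * β * ‖fr f (k - nn cc N) - fr f (k + nn cc N)‖ * ‖Z‖ * _
          ≤ 2 * β * (‖fr f (k - nn cc N)‖ + ‖fr f (k + nn cc N)‖) * ‖Z‖ * 2 := by
            have := hP i
            gcongr
        _ = _ := by ring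
    have hZ1 : ‖Z‖ ≤ l1 (k - nn cc N) := by
      have h7 := hke (k - nn cc N) N
      rw [sub_add_cancel] at h7
      rw [hZ, h7]
      exact dt_e_le he _
    have hZ2 : ‖Z‖ ≤ l1 (k + nn cc N) := by
      have h7 := hke (k + nn cc N) (-N)
      rw [nn_neg, ← sub_eq_add_neg, add_sub_cancel_right] at h7
      rw [hZ, h7]
      exact dt_e_le he _
    have k1 := key N (by simp) (k - nn cc N)
    rw [sub_add_cancel] at k1
    have k2 := key (-N) (by simp) (k + nn cc N)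
    rw [nn_neg, ← sub_eq_add_neg, add_sub_cancel_right] at k2
    have hn0 : 0 ≤ 1 / nk k := by positivity
    calc _ ≤ (4 * β * (‖fr f (k - nn cc N)‖ * ‖Z‖ + ‖fr f (k + nn cc N)‖ * ‖Z‖)) / nk k :=
          div_le_div_of_nonneg_right hB hn.le
      _ = 4 * β * (‖fr f (k - nn cc N)‖ * ‖Z‖ * (1 / nk k) + ‖fr f (k + nn cc N)‖ * ‖Z‖ * (1 / nk k)) := by ring
      _ ≤ 4 * β * (‖fr f (k - nn cc N)‖ * l1 (k - nn cc N) * (1 / nk k) +
          ‖fr f (k + nn cc N)‖ * l1 (k + nn cc N) * (1 / nk k)) := by gcongr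
      _ ≤ _ := by gcongr
  have s1 : Summable fun k => g1 (k - nn cc N) := (Equiv.subRight (nn cc (N : ℤ))).summable_iff.2 hg1s
  have s2 : Summable fun k => g1 (k + nn cc N) := (Equiv.addRight (nn cc (N : ℤ))).summable_iff.2 hg1s
  have t1 : ∑' k, g1 (k - nn cc N) = ∑' l, g1 l := (Equiv.subRight (nn cc (N : ℤ))).tsum_eq g1
  have t2 : ∑' k, g1 (k + nn cc N) = ∑' l, g1 l := (Equiv.addRight (nn cc (N : ℤ))).tsum_eq g1
  have s3 : Summable fun k => 4 * β * (g1 (k - nn cc N) + g1 (k + nn cc N)) := (s1.add s2).mul_left _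
  have s0 : Summable fun k => ‖(Wv β (fr f) e cc N - pdv (Tw β f e cc N)) k‖ / nk k :=
    s3.of_nonneg_of_le (fun k => div_nonneg (norm_nonneg _) (nk_nonneg k)) hpt
  refine (s0.tsum_le_tsum hpt s3).trans (le_of_eq ?_)
  rw [tsum_mul_left, s1.tsum_add s2, t1, t2]
  simp only [hg1]
  rw [tsum_mul_left]
  ring

end Pool.Agent.K1H11.NS
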