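import Pool.Agent.K1H11.NS7.Loc

/-!
# The stress of the sum of the fast waves
-/

open MeasureTheory Set Filter Topology
open scoped ENNReal NNReal ContDiff

namespace Pool.Agent.K1H11.NS

open H459R3.NS (ee fc fr cube S SP Per pd D Rap)
open Pool.Agent.H356R3.NS (shellSum critNorm leiLin)

/-- a bound for the coefficients -/
lemma fr_nn_le {f : E3 → ℝ} (hf : SP f) (cc : Fin 3) (m : ℤ) :
    ‖fr f (nn cc m)‖ * |(m : ℝ)| ≤ ∑' l, pw l ^ 3 * ‖fr f l‖ := by
  have h1 : ‖fr f (nn cc m)‖ * |(m : ℝ)| ≤ pw (nn cc m) ^ 3 * ‖fr f (nn cc m)‖ := by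
    rw [mul_comm]
    apply mul_le_mul_of_nonneg_right _ (norm_nonneg _)
    have h2 := nk_le_pw (nn cc m)
    rw [nk_nn] at h2
    have h3 := one_le_pw (nn cc m)
    calc |(m : ℝ)| ≤ pw (nn cc m) ^ 1 := by rw [pow_one]; exact h2
      _ ≤ _ := pow_le_pow_right₀ h3 (by norm_num)
  refine h1.trans ?_
  exact (rr_fr hf 3).le_tsum (nn cc m) fun l _ => mul_nonneg (pow_pos (pw_pos l) 3).le (norm_nonneg _)

lemma nn_add (cc : Fin 3) (a b : ℤ) : nn cc a + nn cc b = nn cc (a + b) := by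
  unfold nn; rw [← Pi.single_add]

/-- the product of two fast oscillations has small integrals -/
lemma sn_int {f : E3 → ℝ} (hf : SP f) (cc : Fin 3) {N N' : ℕ} (hN : 1 ≤ N) (hNN : 16 * N ≤ N') :
    |∫ x in cube, f x * (sn cc N x * sn cc N' x)| ≤ 2 * (∑' l, pw l ^ 3 * ‖fr f l‖) / N' := by
  set S3 := ∑' l, pw l ^ 3 * ‖fr f l‖ with hS3
  have hS0 : 0 ≤ S3 := tsum_nonneg fun l => mul_nonneg (pow_pos (pw_pos l) 3).le (norm_nonneg _)
  have hN1 : (1 : ℝ) ≤ N := by exact_mod_cast hN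
  have hN16 : (16 : ℝ) * N ≤ N' := by exact_mod_cast hNN
  have hN'0 : (0 : ℝ) < N' := by linarith
  set g : E3 → ℝ := fun x => f x * sn cc N x
  have hg : SP g := hf.mul (sn_SP cc N)
  have e1 : ((∫ x in cube, f x * (sn cc N x * sn cc N' x) : ℝ) : ℂ) =
      (fr g (0 - nn cc N') - fr g (0 + nn cc N')) / (2 * Complex.I) := by
    rw [← fr_sn hg, fr_zero]
    congr 2
    funext x
    simp only [g]; ring
  have hb : ∀ m : ℤ, (N' : ℝ) / 2 ≤ |(m : ℝ)| → ‖fr f (nn cc m)‖ ≤ 2 * S3 / N' := by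
    intro m hm
    have h1 := fr_nn_le hf cc m
    rw [le_div_iff₀ hN'0]
    have h2 : ‖fr f (nn cc m)‖ * ((N' : ℝ) / 2) ≤ ‖fr f (nn cc m)‖ * |(m : ℝ)| :=
      mul_le_mul_of_nonneg_left hm (norm_nonneg _)
    linarith
  have hg1 : ∀ m : ℤ, |(m : ℝ)| = N' → ‖fr g (nn cc m)‖ ≤ 2 * S3 / N' := by
    intro m hm
    simp only [g]
    rw [fr_sn hf, norm_div, norm_mul, Complex.norm_I, Complex.norm_ofNat, mul_one]
    have a1 : nn cc m - nn cc (N : ℤ) = nn cc (m - N) := by
      rw [sub_eq_add_neg, ← nn_neg, nn_add]; rfl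
    rw [a1, nn_add]
    have m1 : (N' : ℝ) / 2 ≤ |((m - N : ℤ) : ℝ)| := by
      push_cast
      have h1 := abs_sub_abs_le_abs_sub (m : ℝ) (N : ℝ)
      rw [hm, abs_of_nonneg (by linarith : (0 : ℝ) ≤ N)] at h1
      linarith
    have m2 : (N' : ℝ) / 2 ≤ |((m + N : ℤ) : ℝ)| := by
      push_cast
      have h1 := abs_sub_abs_le_abs_sub (m : ℝ) (-(N : ℝ))
      rw [hm, abs_neg, abs_of_nonneg (by linarith : (0 : ℝ) ≤ N), sub_neg_eq_add] at h1
      linarith
    have b1 := hb _ m1
    have b2 := hb _ m2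
    have h3 := norm_sub_le (fr f (nn cc (m - N))) (fr f (nn cc (m + N)))
    linarith
  have h4 : ‖((∫ x in cube, f x * (sn cc N x * sn cc N' x) : ℝ) : ℂ)‖ ≤ 2 * S3 / N' := by
    rw [e1, norm_div, norm_mul, Complex.norm_I, Complex.norm_ofNat, mul_one, zero_sub, zero_add]
    have b1 := hg1 (N' : ℤ) (by simp)
    have b2 := hg1 (-(N' : ℤ)) (by simp)
    rw [nn_neg] at b2
    have h3 := norm_sub_le (fr g (-nn cc (N' : ℤ))) (fr g (nn cc (N' : ℤ)))
    linarith
  rwa [Complex.norm_real, Real.norm_eq_abs] at h4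

/-- the sum of the oscillations -/
noncomputable def Sn (cc : Fin 3) (J : ℕ) (N : ℕ → ℕ) (x : E3) : ℝ := ∑ q ∈ Finset.range J, sn cc (N q) x

lemma Sn_SP (cc : Fin 3) (J : ℕ) (N : ℕ → ℕ) : SP (Sn cc J N) := SP.sum fun q _ => sn_SP cc (N q)

lemma int_SP {f : E3 → ℝ} (hf : SP f) : IntegrableOn f cube := H459R3.NS.integrableOn_cube hf.smooth.continuous

lemma int_Sn {f : E3 → ℝ} (hf : SP f) (h0 : ∀ x, 0 ≤ f x) {J : ℕ} {N : ℕ → ℕ} {N0 : ℕ} (hN0 : 1 ≤ N0)
    (hN1 : ∀ q < J, N0 ≤ N q) (hN : ∀ i j, i < j → j < J → 16 * N i ≤ N j) (cc : Fin 3) :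
    ∫ x in cube, f x * (Sn cc J N x * Sn cc J N x) ≤
      J * (∫ x in cube, f x) + J ^ 2 * (2 * (∑' l, pw l ^ 3 * ‖fr f l‖) / N0) := by
  set S3 := ∑' l, pw l ^ 3 * ‖fr f l‖ with hS3
  have hS0 : 0 ≤ S3 := tsum_nonneg fun l => mul_nonneg (pow_pos (pw_pos l) 3).le (norm_nonneg _)
  have hN0r : (1 : ℝ) ≤ N0 := by exact_mod_cast hN0
  have hI0 : 0 ≤ ∫ x in cube, f x := integral_nonneg h0
  have e1 : ∀ x, f x * (Sn cc J N x * Sn cc J N x) =
      ∑ q ∈ Finset.range J, ∑ q' ∈ Finset.range J, f x * (sn cc (N q) x * sn cc (N q') x) := by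
    intro x
    unfold Sn
    rw [Finset.sum_mul_sum, Finset.mul_sum]
    refine Finset.sum_congr rfl fun q _ => ?_
    rw [Finset.mul_sum]
  have hint : ∀ q q', IntegrableOn (fun x => f x * (sn cc (N q) x * sn cc (N q') x)) cube := fun q q' =>
    int_SP (hf.mul ((sn_SP cc _).mul (sn_SP cc _)))
  simp_rw [e1]
  rw [integral_finset_sum _ fun q _ => integrable_finset_sum _ fun q' _ => hint q q']
  have e2 : ∀ q ∈ Finset.range J, ∫ x in cube, ∑ q' ∈ Finset.range J, f x * (sn cc (N q) x * sn cc (N q') x) ≤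
      (∫ x in cube, f x) + J * (2 * S3 / N0) := by
    intro q hq
    have hq' := Finset.mem_range.1 hq
    rw [integral_finset_sum _ fun q' _ => hint q q']
    have e3 : ∀ q' ∈ Finset.range J, ∫ x in cube, f x * (sn cc (N q) x * sn cc (N q') x) ≤
        (if q' = q then ∫ x in cube, f x else 0) + 2 * S3 / N0 := by
      intro q' hqq
      have hqq' := Finset.mem_range.1 hqq
      have h2 : 0 ≤ 2 * S3 / N0 := by positivity
      by_cases h : q' = q
      · rw [if_pos h, h]
        refine le_trans (integral_mono (hint q q) (int_SP hf) fun x => ?_) (le_add_of_nonneg_right h2)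
        show f x * (sn cc (N q) x * sn cc (N q) x) ≤ f x
        apply mul_le_of_le_one_right (h0 x)
        unfold sn
        rw [← pow_two]
        exact Real.sin_sq_le_one _
      · rw [if_neg h, zero_add]
        refine (le_abs_self _).trans ?_
        rcases lt_or_gt_of_ne h with h3 | h3
        · have h4 := sn_int hf cc (N := N q') (N' := N q) (le_trans hN0 (hN1 _ hqq')) (hN _ _ h3 hq')
          have e5 : ∀ x, f x * (sn cc (N q) x * sn cc (N q') x) = f x * (sn cc (N q') x * sn cc (N q) x) := fun x => by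
            ring
          simp_rw [e5]
          refine h4.trans ?_
          apply div_le_div_of_nonneg_left (by positivity) (by linarith)
          exact_mod_cast hN1 q hq'
        · have h4 := sn_int hf cc (N := N q) (N' := N q') (le_trans hN0 (hN1 _ hq')) (hN _ _ h3 hqq')
          refine h4.trans ?_
          apply div_le_div_of_nonneg_left (by positivity) (by linarith)
          exact_mod_cast hN1 q' hqq'
    refine (Finset.sum_le_sum e3).trans (le_of_eq ?_)
    rw [Finset.sum_add_distrib, Finset.sum_ite_eq' (Finset.range J) q, if_pos hq, Finset.sum_const, Finset.card_range,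
      nsmul_eq_mul]
  refine (Finset.sum_le_sum e2).trans (le_of_eq ?_)
  rw [Finset.sum_const, Finset.card_range, nsmul_eq_mul]
  ring

lemma int_abs_Sn {f : E3 → ℝ} (hf : SP f) (h0 : ∀ x, 0 ≤ f x) {J : ℕ} (hJ : 1 ≤ J) {N : ℕ → ℕ} {N0 : ℕ}
    (hN0 : 1 ≤ N0) (hN1 : ∀ q < J, N0 ≤ N q) (hN : ∀ i j, i < j → j < J → 16 * N i ≤ N j) (cc : Fin 3)
    {β c : ℝ} (_hc : 0 < c) (hβ2 : β ^ 2 = c / J) :
    ∫ x in cube, f x * |β * Sn cc J N x| ≤
      (1 + c) * (∫ x in cube, f x) + c * J * (2 * (∑' l, pw l ^ 3 * ‖fr f l‖) / N0) := by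
  have hJ0 : (0 : ℝ) < J := by exact_mod_cast hJ
  have hI0 : 0 ≤ ∫ x in cube, f x := integral_nonneg h0
  set S3 := ∑' l, pw l ^ 3 * ‖fr f l‖ with hS3
  have hS0 : 0 ≤ S3 := tsum_nonneg fun l => mul_nonneg (pow_pos (pw_pos l) 3).le (norm_nonneg _)
  have i1 : IntegrableOn (fun x => f x * |β * Sn cc J N x|) cube :=
    H459R3.NS.integrableOn_cube (hf.smooth.continuous.mul (SP.cmul (Sn_SP cc J N) β).smooth.continuous.abs)
  have i2 : IntegrableOn (fun x => f x * (Sn cc J N x * Sn cc J N x)) cube :=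
    int_SP (hf.mul ((Sn_SP cc J N).mul (Sn_SP cc J N)))
  calc ∫ x in cube, f x * |β * Sn cc J N x| ≤ ∫ x in cube, (f x + β ^ 2 * (f x * (Sn cc J N x * Sn cc J N x))) := by
        refine integral_mono i1 ((int_SP hf).add (i2.const_mul _)) fun x => ?_
        show f x * |β * Sn cc J N x| ≤ f x + β ^ 2 * (f x * (Sn cc J N x * Sn cc J N x))
        have h1 : |β * Sn cc J N x| ≤ 1 + β ^ 2 * (Sn cc J N x * Sn cc J N x) := by
          have h2 : (β * Sn cc J N x) ^ 2 = β ^ 2 * (Sn cc J N x * Sn cc J N x) := by ring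
          rw [← h2, ← sq_abs]
          nlinarith [sq_nonneg (|β * Sn cc J N x| - 1), abs_nonneg (β * Sn cc J N x)]
        calc f x * |β * Sn cc J N x| ≤ f x * (1 + β ^ 2 * (Sn cc J N x * Sn cc J N x)) :=
              mul_le_mul_of_nonneg_left h1 (h0 x)
          _ = _ := by ring
    _ = (∫ x in cube, f x) + β ^ 2 * ∫ x in cube, f x * (Sn cc J N x * Sn cc J N x) := by
        rw [integral_add (int_SP hf) (i2.const_mul _), integral_const_mul]
    _ ≤ (∫ x in cube, f x) + β ^ 2 * (J * (∫ x in cube, f x) + J ^ 2 * (2 * S3 / N0)) := by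
        have := int_Sn hf h0 hN0 hN1 hN cc
        gcongr
    _ = _ := by
        rw [hβ2]; field_simp; ring

lemma sum_block {E : Type*} [AddCommMonoid E] (u : ℕ → E) (J : ℕ) :
    ∑ i ∈ Finset.range (15 * J), u i = ∑ s ∈ Finset.range 15, ∑ q ∈ Finset.range J, u (15 * q + s) := by
  induction J with
  | zero => simp
  | succ J ih =>
    rw [Nat.mul_succ, Finset.sum_range_add, ih, ← Finset.sum_add_distrib]
    refine Finset.sum_congr rfl fun s _ => ?_
    rw [Finset.sum_range_succ]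

lemma pdv_sum (n : ℕ) (R : ℕ → Fin 3 → Fin 3 → E3 → ℝ) (hR : ∀ i j m, SP (R i j m)) :
    pdv (fun j m x => ∑ i ∈ Finset.range n, R i j m x) = ∑ i ∈ Finset.range n, pdv (R i) := by
  funext k l
  rw [Finset.sum_apply, Finset.sum_apply]
  unfold pdv
  have e1 : ∀ j m, fr (fun x => ∑ i ∈ Finset.range n, R i j m x) k = ∑ i ∈ Finset.range n, fr (R i j m) k := fun j m =>
    fr_finsum _ (fun i => R i j m) (fun i _ => hR i j m) k
  simp_rw [e1, Finset.mul_sum]
  rw [Finset.sum_comm (s := Finset.range n)]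
  refine Finset.sum_congr rfl fun j _ => ?_
  rw [Finset.sum_comm]

/-- The stress of the sum of the waves. -/
theorem sum_str {c β : ℝ} {J : ℕ} (hc : 0 < c) (hβ : 0 ≤ β) (hβ2 : β ^ 2 = c / J) (hJ : 1 ≤ J) {f : ℕ → E3 → ℝ}
    (hf : ∀ s, SP (f s)) (hf0 : ∀ s x, 0 ≤ f s x) (hper : ∀ q s, f (15 * q + s) = f s) {N : ℕ → ℕ} {N0 : ℕ}
    (hN0 : 1 ≤ N0) (hN1 : ∀ i < 15 * J, N0 ≤ N i) (hN : ∀ i j, i < j → j < 15 * J → 16 * N i ≤ N j) {φ S3 : ℝ}
    (hφ : ∀ s, ∫ x in cube, f s x ≤ φ) (hS : ∀ s, ∑' l, pw l ^ 3 * ‖fr (f s) l‖ ≤ S3)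
    (hW : ∀ i < 15 * J, SD (Wv β (fr (f i)) (eP (cI i) (aI i)) (cI i) (N i))) :
    Str (∑ i ∈ Finset.range (15 * J), Wv β (fr (f i)) (eP (cI i) (aI i)) (cI i) (N i))
      (15 * ((1 + c) * φ + c * J * (2 * S3 / N0)) + 15 * J * (16 * β * S3 / N0)) := by
  have hJ0 : (0 : ℝ) < J := by exact_mod_cast hJ
  have hN0r : (1 : ℝ) ≤ N0 := by exact_mod_cast hN0
  have hpi := Real.pi_pos
  set n := 15 * J with hn
  set T : ℕ → Fin 3 → Fin 3 → E3 → ℝ := fun i => Tw β (f i) (eP (cI i) (aI i)) (cI i) (N i) with hT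
  have hTSP : ∀ i j m, SP (T i j m) := fun i j m => Tw_SP (hf i) _ _ _ j m
  set R : Fin 3 → Fin 3 → E3 → ℝ := fun j m x => ∑ i ∈ Finset.range n, T i j m x with hR
  have hRSP : ∀ j m, SP (R j m) := fun j m => SP.sum fun i _ => hTSP i j m
  have hS30 : 0 ≤ S3 := (tsum_nonneg fun l => mul_nonneg (pow_pos (pw_pos l) 3).le (norm_nonneg _)).trans (hS 0)
  -- the local part
  have s1 : Str (pdv R) (15 * ((1 + c) * φ + c * J * (2 * S3 / N0))) := by
    refine ⟨R, hRSP, fun j m => ?_, rfl, fun j m => ?_⟩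
    · funext x
      simp only [hR, hT, Tw]
      exact Finset.sum_congr rfl fun i _ => by rw [tv_comm]
    · have hpt : ∀ x, |R j m x| ≤ ∑ s ∈ Finset.range 15, f s x * |β * Sn (cI s) J (fun q => N (15 * q + s)) x| := by
        intro x
        simp only [hR]
        rw [hn, sum_block (fun i => T i j m x)]
        refine (Finset.abs_sum_le_sum_abs _ _).trans (Finset.sum_le_sum fun s hs => ?_)
        have hs' := Finset.mem_range.1 hs
        have hc1 : ∀ q, cI (15 * q + s) = cI s := by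
          intro q
          unfold cI
          rw [Fin.mk.injEq]
          omega
        have ha1 : ∀ q, aI (15 * q + s) = aI s := by
          intro q
          unfold aI
          rw [Fin.mk.injEq]
          omega
        have e1 : ∑ q ∈ Finset.range J, T (15 * q + s) j m x =
            (-(1 / Real.pi) * tv (eP (cI s) (aI s)) (cI s) j m) *
              (f s x * (β * Sn (cI s) J (fun q => N (15 * q + s)) x)) := by
          unfold Sn
          rw [Finset.mul_sum, Finset.mul_sum, Finset.mul_sum]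
          refine Finset.sum_congr rfl fun q _ => ?_
          simp only [hT, Tw]
          rw [hper, hc1, ha1]
          ring
        rw [e1, abs_mul, abs_mul (f s x), abs_of_nonneg (hf0 s x)]
        apply mul_le_of_le_one_left (mul_nonneg (hf0 s x) (abs_nonneg _))
        rw [abs_mul, abs_neg, abs_of_pos (by positivity)]
        have h1 := tv_le (eP_le (cI s) (aI s)) (cI s) j m
        have h2 : 2 ≤ Real.pi := Real.two_le_pi
        calc 1 / Real.pi * |tv (eP (cI s) (aI s)) (cI s) j m| ≤ 1 / Real.pi * Real.pi := by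
              apply mul_le_mul_of_nonneg_left (h1.trans h2) (by positivity)
          _ = 1 := by field_simp
      have hi : ∀ s, IntegrableOn (fun x => f s x * |β * Sn (cI s) J (fun q => N (15 * q + s)) x|) cube := fun s =>
        H459R3.NS.integrableOn_cube ((hf s).smooth.continuous.mul
          (SP.cmul (Sn_SP (cI s) J (fun q => N (15 * q + s))) β).smooth.continuous.abs)
      calc ∫ x in cube, |R j m x| ≤ ∫ x in cube, ∑ s ∈ Finset.range 15,
            f s x * |β * Sn (cI s) J (fun q => N (15 * q + s)) x| :=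
            integral_mono (int_abs (hRSP j m)) (integrable_finset_sum _ fun s _ => hi s) hpt
        _ = ∑ s ∈ Finset.range 15, ∫ x in cube, f s x * |β * Sn (cI s) J (fun q => N (15 * q + s)) x| :=
            integral_finset_sum _ fun s _ => hi s
        _ ≤ ∑ _s ∈ Finset.range 15, ((1 + c) * φ + c * J * (2 * S3 / N0)) := by
            refine Finset.sum_le_sum fun s hs => ?_
            have hs' := Finset.mem_range.1 hs
            have h1 := int_abs_Sn (hf s) (hf0 s) hJ (N := fun q => N (15 * q + s)) hN0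
              (fun q hq => hN1 _ (by omega)) (fun i j hij hj => hN _ _ (by omega) (by omega)) (cI s) hc hβ2
            refine h1.trans ?_
            have h2 := hφ s
            have h3 := hS s
            gcongr
        _ = _ := by
            rw [Finset.sum_const, Finset.card_range, nsmul_eq_mul]
            push_cast; ring
  -- the remainder
  set Wt := ∑ i ∈ Finset.range n, Wv β (fr (f i)) (eP (cI i) (aI i)) (cI i) (N i) with hWt
  have hWtSD : SD Wt := by
    have h1 : ∀ m ≤ n, SD (∑ i ∈ Finset.range m, Wv β (fr (f i)) (eP (cI i) (aI i)) (cI i) (N i)) := by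
      intro m
      induction m with
      | zero =>
        intro _
        rw [Finset.sum_range_zero]
        exact ⟨fun k i => by simp, rfl, fun m => by simpa using summable_zero, fun k => by simp [dt]⟩
      | succ m ih =>
        intro hm
        rw [Finset.sum_range_succ]
        exact (ih (by omega)).add (hW m (by omega))
    exact h1 n le_rfl
  have hE : SD (Wt - pdv R) := hWtSD.sub (pdv_SD hRSP)
  have hEb : ∑' k, ‖(Wt - pdv R) k‖ / nk k ≤ 15 * J * (16 * β * S3 / N0) := by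
    have e1 : Wt - pdv R = ∑ i ∈ Finset.range n, (Wv β (fr (f i)) (eP (cI i) (aI i)) (cI i) (N i) - pdv (T i)) := by
      rw [Finset.sum_sub_distrib, hR, pdv_sum n T hTSP]
    have hterm : ∀ i ∈ Finset.range n, ∑' k, ‖(Wv β (fr (f i)) (eP (cI i) (aI i)) (cI i) (N i) - pdv (T i)) k‖ / nk k ≤
        16 * β * S3 / N0 := by
      intro i hi
      have hi' := Finset.mem_range.1 hi
      have h1 := wave_err_LL hβ (hf i) (eP_le (cI i) (aI i)) (eP_zero _ _) (hN0.trans (hN1 i hi'))
      refine h1.trans ?_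
      have h2 := hS i
      have h3 : (N0 : ℝ) ≤ N i := by exact_mod_cast hN1 i hi'
      gcongr
    have hsn : ∀ i ∈ Finset.range n, SN (Wv β (fr (f i)) (eP (cI i) (aI i)) (cI i) (N i) - pdv (T i)) := fun i hi =>
      ((hW i (Finset.mem_range.1 hi)).sub (pdv_SD (hTSP i))).rr.summ
    have hs : ∀ i ∈ Finset.range n, Summable fun k =>
        ‖(Wv β (fr (f i)) (eP (cI i) (aI i)) (cI i) (N i) - pdv (T i)) k‖ / nk k := fun i hi => summ_div_nk (hsn i hi)
    have hle : ∀ k, ‖(Wt - pdv R) k‖ / nk k ≤ ∑ i ∈ Finset.range n,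
        ‖(Wv β (fr (f i)) (eP (cI i) (aI i)) (cI i) (N i) - pdv (T i)) k‖ / nk k := by
      intro k
      rw [← Finset.sum_div]
      apply div_le_div_of_nonneg_right _ (nk_nonneg k)
      rw [e1, Finset.sum_apply]
      exact norm_sum_le _ _
    calc _ ≤ ∑' k, ∑ i ∈ Finset.range n, ‖(Wv β (fr (f i)) (eP (cI i) (aI i)) (cI i) (N i) - pdv (T i)) k‖ / nk k :=
          (summ_div_nk hE.rr.summ).tsum_le_tsum hle (summable_sum hs)
      _ = ∑ i ∈ Finset.range n, ∑' k, ‖(Wv β (fr (f i)) (eP (cI i) (aI i)) (cI i) (N i) - pdv (T i)) k‖ / nk k :=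
          Summable.tsum_finsetSum hs
      _ ≤ ∑ _i ∈ Finset.range n, 16 * β * S3 / N0 := Finset.sum_le_sum hterm
      _ = _ := by
          rw [Finset.sum_const, Finset.card_range, nsmul_eq_mul, hn]
          push_cast; ring
  have h2 := s1.add (Str_of_LL hE hEb)
  rwa [add_sub_cancel] at h2

end Pool.Agent.K1H11.NS
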