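import Pool.Agent.K1H11.NS7.Rec7

/-!
# The physical form of the theorem on initial values
-/

open MeasureTheory Set Filter Topology
open scoped ENNReal NNReal ContDiff

namespace Pool.Agent.K1H11.NS

open H459R3.NS (ee fr cube S SP Per D Rap IsSol)
open Pool.Agent.H356R3.NS (AdmissiblePeriodic R3 shellSum critNorm leiLin)

lemma NH_sq (x : K → C3) : NH x ^ 2 = ∑' k, if k = 0 then 0 else ‖x k‖ₑ ^ 2 / ENNReal.ofReal (∑ i, (k i : ℝ) ^ 2) := by
  unfold NH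
  rw [q2_sq]
  refine tsum_congr fun k => ?_
  by_cases hk : k = 0
  · simp [hk]
  · rw [if_neg hk, if_neg hk, div_eq_mul_inv, mul_pow, div_eq_mul_inv, ← ENNReal.inv_pow,
      ← ENNReal.ofReal_pow (nk_nonneg k), nk_sq]
    rfl

lemma Uf_l2 {m : E3} {U : Fam} {t : ℝ} (hU : SD (at' U t)) :
    ∫⁻ x in cube, ‖Uf m U t x‖ₑ ^ 2 ≤ 3 * (‖m‖ₑ ^ 2 + ∑' k, ‖U k t‖ₑ ^ 2) := by
  have hSP : ∀ i, SP fun x => Uf m U t x i := fun i => Uf_SP hU i
  have h1 : ∀ x, ‖Uf m U t x‖ₑ ^ 2 ≤ ∑ i, ENNReal.ofReal (Uf m U t x i * Uf m U t x i) := by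
    intro x
    have h2 : ‖Uf m U t x‖ ^ 2 ≤ ∑ i, Uf m U t x i * Uf m U t x i := by
      have h3 : ‖Uf m U t x‖ ≤ Real.sqrt (∑ i, Uf m U t x i * Uf m U t x i) := by
        rw [pi_norm_le_iff_of_nonneg (Real.sqrt_nonneg _)]
        intro i
        rw [Real.norm_eq_abs]
        apply Real.abs_le_sqrt
        rw [pow_two]
        exact Finset.single_le_sum (f := fun i => Uf m U t x i * Uf m U t x i) (fun i _ => mul_self_nonneg _)
          (Finset.mem_univ i)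
      calc _ ≤ (Real.sqrt (∑ i, Uf m U t x i * Uf m U t x i)) ^ 2 := pow_le_pow_left₀ (norm_nonneg _) h3 2
        _ = _ := Real.sq_sqrt (Finset.sum_nonneg fun i _ => mul_self_nonneg _)
    rw [← ofReal_norm, ← ENNReal.ofReal_pow (norm_nonneg _), ← ENNReal.ofReal_sum_of_nonneg fun i _ => mul_self_nonneg _]
    exact ENNReal.ofReal_le_ofReal h2
  have h4 : ∀ i, ∫⁻ x in cube, ENNReal.ofReal (Uf m U t x i * Uf m U t x i) ≤ ‖m‖ₑ ^ 2 + ∑' k, ‖U k t‖ₑ ^ 2 := by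
    intro i
    have hint : IntegrableOn (fun x => Uf m U t x i * Uf m U t x i) cube := int_SP ((hSP i).mul (hSP i))
    obtain ⟨p1, p2⟩ := parseval (hSP i)
    rw [← ofReal_integral_eq_lintegral_ofReal hint (Eventually.of_forall fun x => mul_self_nonneg _), p2,
      ENNReal.ofReal_tsum_of_nonneg (fun _ => by positivity) p1]
    have h5 : ∀ k, ENNReal.ofReal (‖fr (fun x => Uf m U t x i) k‖ ^ 2) ≤
        (if k = 0 then ‖m‖ₑ ^ 2 else 0) + ‖U k t‖ₑ ^ 2 := by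
      intro k
      have e1 : fr (fun x => Uf m U t x i) k = Pool.Agent.H356R3.NS.fc (Uf m U t) k i := (fc_eq_fr _ _ _).symm
      rw [e1, Uf_fc hU]
      by_cases hk : k = 0
      · rw [if_pos hk, if_pos hk]
        refine le_trans ?_ le_self_add
        rw [Complex.norm_real, ← ofReal_norm, ← ENNReal.ofReal_pow (norm_nonneg _)]
        exact ENNReal.ofReal_le_ofReal (pow_le_pow_left₀ (norm_nonneg _) (norm_le_pi_norm m i) 2)
      · rw [if_neg hk, if_neg hk, zero_add, ← ofReal_norm, ← ENNReal.ofReal_pow (norm_nonneg _)]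
        apply ENNReal.ofReal_le_ofReal
        refine pow_le_pow_left₀ (norm_nonneg _) ?_ 2
        rw [Pi.smul_apply, norm_smul, norm_ex, one_mul]
        exact norm_le_pi_norm (U k t) i
    refine (ENNReal.tsum_le_tsum h5).trans (le_of_eq ?_)
    rw [ENNReal.tsum_add, tsum_ite_eq]
  calc ∫⁻ x in cube, ‖Uf m U t x‖ₑ ^ 2 ≤ ∫⁻ x in cube, ∑ i, ENNReal.ofReal (Uf m U t x i * Uf m U t x i) :=
        lintegral_mono h1
    _ = ∑ i, ∫⁻ x in cube, ENNReal.ofReal (Uf m U t x i * Uf m U t x i) := by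
        refine lintegral_finsetSum _ fun i _ => ?_
        exact ENNReal.measurable_ofReal.comp ((hSP i).mul (hSP i)).smooth.continuous.measurable
    _ ≤ ∑ _i : Fin 3, (‖m‖ₑ ^ 2 + ∑' k, ‖U k t‖ₑ ^ 2) := Finset.sum_le_sum fun i _ => h4 i
    _ = _ := by
        rw [Finset.sum_const, Finset.card_univ, Fintype.card_fin, nsmul_eq_mul]
        norm_num

lemma Uf_abs_le {m : E3} {U : Fam} {t : ℝ} (hU : SD (at' U t)) (x : E3) (i : Fin 3) :
    |Uf m U t x i| ≤ ∑ i, |m i| + ∑' k, ‖U k t‖ := by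
  unfold Uf
  refine (abs_add_le _ _).trans (add_le_add ?_ ?_)
  · exact Finset.single_le_sum (f := fun i => |m i|) (fun _ _ => abs_nonneg _) (Finset.mem_univ i)
  · refine (Complex.abs_re_le_norm _).trans ?_
    refine tsum_of_norm_bounded hU.rr.summ.hasSum fun k => ?_
    rw [norm_mul, norm_ex, mul_one]
    exact norm_le_pi_norm _ i

/-- The growth at time zero, in integral form. -/
lemma growth_int {m : E3} {U : Fam} (hU : ∀ t, 0 < t → SD (at' U t)) {G : ℕ → ℝ≥0∞}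
    (hG : ∀ (j : ℕ) (t : ℝ), (1 / 4) ^ (j + 1) < t → t ≤ (1 / 4) ^ j →
      ENNReal.ofReal (Real.sqrt t * ∑' k, ‖U k t‖) ≤ G j) {s : ℝ} (hs : 1 ≤ s) (hGs : ∑' j, G j ^ s ≠ ⊤) :
    ∫⁻ t in Ioc (0 : ℝ) 1, (ENNReal.ofReal (Real.sqrt t) * ⨆ x, ‖Uf m U t x‖ₑ) ^ s / ENNReal.ofReal t ≠ ⊤ := by
  have hs0 : 0 < s := by linarith
  set A := ∑ i, |m i| with hA
  have hA0 : 0 ≤ A := Finset.sum_nonneg fun i _ => abs_nonneg _
  set G' : ℕ → ℝ≥0∞ := fun j => ENNReal.ofReal (A * (1 / 2) ^ j) + G j with hG'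
  have hsq : ∀ j : ℕ, Real.sqrt ((1 / 4) ^ j) = (1 / 2) ^ j := by
    intro j
    rw [show ((1 : ℝ) / 4) ^ j = ((1 / 2) ^ j) ^ 2 by rw [← pow_mul, mul_comm j 2, pow_mul]; norm_num]
    exact Real.sqrt_sq (by positivity)
  have hle : ∀ (j : ℕ) (t : ℝ), (1 / 4) ^ (j + 1) < t → t ≤ (1 / 4) ^ j →
      ENNReal.ofReal (Real.sqrt t) * ⨆ x, ‖Uf m U t x‖ₑ ≤ G' j := by
    intro j t h1 h2
    have ht : 0 < t := lt_trans (by positivity) h1
    have hT : 0 ≤ ∑' k, ‖U k t‖ := tsum_nonneg fun _ => norm_nonneg _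
    have h3 : ⨆ x, ‖Uf m U t x‖ₑ ≤ ENNReal.ofReal (A + ∑' k, ‖U k t‖) := by
      refine iSup_le fun x => ?_
      rw [← ofReal_norm]
      apply ENNReal.ofReal_le_ofReal
      rw [pi_norm_le_iff_of_nonneg (by positivity)]
      exact fun i => Uf_abs_le (hU t ht) x i
    have h4 : Real.sqrt t ≤ (1 / 2) ^ j := by
      rw [← hsq]
      exact Real.sqrt_le_sqrt h2
    calc _ ≤ ENNReal.ofReal (Real.sqrt t) * ENNReal.ofReal (A + ∑' k, ‖U k t‖) := mul_le_mul' le_rfl h3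
      _ = ENNReal.ofReal (Real.sqrt t * A) + ENNReal.ofReal (Real.sqrt t * ∑' k, ‖U k t‖) := by
          rw [← ENNReal.ofReal_mul (Real.sqrt_nonneg t), mul_add, ENNReal.ofReal_add (by positivity) (by positivity)]
      _ ≤ _ := by
          refine add_le_add (ENNReal.ofReal_le_ofReal ?_) (hG j t h1 h2)
          rw [mul_comm]
          exact mul_le_mul_of_nonneg_left h4 hA0
  have hG's : ∑' j, G' j ^ s ≠ ⊤ := by
    refine lqf_add hs ?_ hGs
    have h1 : ∀ j : ℕ, ENNReal.ofReal (A * (1 / 2) ^ j) ^ s = ENNReal.ofReal A ^ s * ENNReal.ofReal (((1 / 2) ^ s) ^ j) := by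
      intro j
      rw [ENNReal.ofReal_mul hA0, ENNReal.mul_rpow_of_nonneg _ _ hs0.le]
      congr 1
      rw [ENNReal.ofReal_rpow_of_pos (by positivity)]
      congr 1
      rw [← Real.rpow_natCast, ← Real.rpow_natCast, ← Real.rpow_mul (by norm_num), ← Real.rpow_mul (by norm_num),
        mul_comm]
    simp_rw [h1]
    rw [ENNReal.tsum_mul_left]
    refine ENNReal.mul_ne_top (ENNReal.rpow_ne_top_of_nonneg hs0.le ENNReal.ofReal_ne_top) ?_
    rw [← ENNReal.ofReal_tsum_of_nonneg (fun n => by positivity)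
      (summable_geometric_of_lt_one (by positivity) (Real.rpow_lt_one (by norm_num) (by norm_num) hs0))]
    exact ENNReal.ofReal_ne_top
  have hcov : Ioc (0 : ℝ) 1 ⊆ ⋃ j : ℕ, Ioc ((1 / 4 : ℝ) ^ (j + 1)) ((1 / 4) ^ j) := by
    intro t ht
    obtain ⟨j, h1, h2⟩ := exists_nat_pow_near_of_lt_one ht.1 ht.2 (show (0 : ℝ) < 1 / 4 by norm_num) (by norm_num)
    exact mem_iUnion.2 ⟨j, h1, h2⟩
  refine ne_top_of_le_ne_top (ENNReal.mul_ne_top (show (3 : ℝ≥0∞) ≠ ⊤ by norm_num) hG's) ?_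
  refine (lintegral_mono_set hcov).trans ((lintegral_iUnion_le _ _).trans ?_)
  rw [← ENNReal.tsum_mul_left]
  refine ENNReal.tsum_le_tsum fun j => ?_
  have hp : (0 : ℝ) < (1 / 4) ^ (j + 1) := by positivity
  calc ∫⁻ t in Ioc ((1 / 4 : ℝ) ^ (j + 1)) ((1 / 4) ^ j),
        (ENNReal.ofReal (Real.sqrt t) * ⨆ x, ‖Uf m U t x‖ₑ) ^ s / ENNReal.ofReal t
      ≤ ∫⁻ _ in Ioc ((1 / 4 : ℝ) ^ (j + 1)) ((1 / 4) ^ j), G' j ^ s / ENNReal.ofReal ((1 / 4) ^ (j + 1)) := by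
        refine setLIntegral_mono' measurableSet_Ioc fun t ht => ?_
        exact ENNReal.div_le_div (ENNReal.rpow_le_rpow (hle j t ht.1 ht.2) hs0.le)
          (ENNReal.ofReal_le_ofReal ht.1.le)
    _ = G' j ^ s / ENNReal.ofReal ((1 / 4) ^ (j + 1)) * ENNReal.ofReal ((1 / 4) ^ j - (1 / 4) ^ (j + 1)) := by
        rw [setLIntegral_const, Real.volume_Ioc]
    _ = 3 * G' j ^ s := by
        have e1 : ((1 : ℝ) / 4) ^ j - (1 / 4) ^ (j + 1) = 3 * (1 / 4) ^ (j + 1) := by rw [pow_succ]; ring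
        rw [e1, ENNReal.ofReal_mul (by norm_num), mul_comm (ENNReal.ofReal 3), ← mul_assoc,
          ENNReal.div_mul_cancel (by rw [Ne, ENNReal.ofReal_eq_zero, not_le]; exact hp) ENNReal.ofReal_ne_top, mul_comm]
        norm_num

/-- Every divergence free Fourier series is an initial value. -/
theorem bif_main7 {ν : ℝ} (hν : 0 < ν) {w₀ : E3 → E3} {w : ℝ → E3 → E3} {q : ℝ → E3 → ℝ}
    (hw : AdmissiblePeriodic ν w₀ w q) {m : E3} (hm : ∀ i, ∫ x in cube, w₀ x i = m i) {v : K → C3}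
    (hvs : Sym v) (hvd : ∀ k, dt k (v k) = 0) (hv0 : ∀ i, v 0 i = (m i : ℂ)) {ε : ℝ} (hε : 0 < ε) :
    ∃ U : ℝ → E3 → E3,
      (∀ t₀, 0 < t₀ → ∃ p, AdmissiblePeriodic ν (U t₀) (fun t => U (t₀ + t)) p) ∧
      (∀ t, ε ≤ t → ∀ x i, |U t x i - w t x i| ≤ ε) ∧
      (∀ ρ : ℝ, 0 < ρ → ∃ δ : ℝ, 0 < δ ∧ ∀ t, 0 < t → t ≤ δ → ∀ x i, Real.sqrt t * |U t x i| ≤ ρ) ∧
      (∀ s : ℝ, 2 < s → ∫⁻ t in Ioc (0 : ℝ) 1, (ENNReal.ofReal (Real.sqrt t) * ⨆ x, ‖U t x‖ₑ) ^ s /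
        ENNReal.ofReal t ≠ ⊤) ∧
      (∀ r : ℝ, 2 < r → critNorm r v ≠ ⊤ →
        Tendsto (fun t => critNorm r (fun k => Pool.Agent.H356R3.NS.fc (U t) k - v k)) (𝓝[>] 0) (𝓝 0)) ∧
      (∀ wt : K → ℝ≥0∞, (∀ k, k ≠ 0 → wt k ≤ ENNReal.ofReal (1 / sq k)) → ∑' k, wt k * ‖v k‖ₑ ≠ ⊤ →
        Tendsto (fun t => ∑' k, wt k * ‖Pool.Agent.H356R3.NS.fc (U t) k - v k‖ₑ) (𝓝[>] 0) (𝓝 0)) ∧
      (∑' k, (if k = 0 then 0 else ‖v k‖ₑ ^ 2 / ENNReal.ofReal (∑ i, (k i : ℝ) ^ 2)) ≠ ⊤ →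
        Tendsto (fun t => ∑' k, if k = 0 then 0 else ‖Pool.Agent.H356R3.NS.fc (U t) k - v k‖ₑ ^ 2 /
          ENNReal.ofReal (∑ i, (k i : ℝ) ^ 2)) (𝓝[>] 0) (𝓝 0) ∧
        ∀ T : ℝ, ∫⁻ t in Ioc 0 T, ∫⁻ x in cube, ‖U t x‖ₑ ^ 2 ≠ ⊤) := by
  have hpi := Real.pi_pos
  have hc : 0 < 4 * Real.pi ^ 2 * ν := by positivity
  have hsp0 : ∀ i, SP fun x => w₀ x i := by
    intro i
    have := (adm_isSol hw 1).sp (t := 0) ⟨le_rfl, one_pos⟩ i
    rwa [hw.initial] at this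
  have hdw : ∀ x, ∑ i, H459R3.NS.pd i (fun y => w₀ y i) x = 0 := by
    intro x
    have := (adm_isSol hw 1).divfree 0 ⟨le_rfl, one_pos⟩ x
    rwa [hw.initial] at this
  obtain ⟨a, ha, W, hW, hWphys⟩ := conv_sol hν hw
  have hD : SD (FV w₀) := ⟨FV_sym w₀, funext fun i => FV_zero hsp0 i, FV_rr hsp0, FV_dt hsp0 hdw⟩
  -- the truncations
  obtain ⟨φ, hφ1, hφ2⟩ : ∃ φ : ℕ → ℕ, (∀ n, n ≤ φ n) ∧
      (NH v ≠ ⊤ → ∀ n, NH (trc (φ n) v - v) ≤ ENNReal.ofReal ((1 / 4) ^ (n + 1))) := by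
    by_cases hNH : NH v = ⊤
    · exact ⟨id, fun n => le_rfl, fun h => absurd hNH h⟩
    · have ht := trc_NH hNH
      have h1 : ∀ n : ℕ, ∃ k, n ≤ k ∧ NH (trc k v - v) ≤ ENNReal.ofReal ((1 / 4) ^ (n + 1)) := by
        intro n
        have h2 : (0 : ℝ≥0∞) < ENNReal.ofReal ((1 / 4) ^ (n + 1)) := by
          rw [ENNReal.ofReal_pos]; positivity
        obtain ⟨k, hk1, hk2⟩ := ((ht.eventually (gt_mem_nhds h2)).and (eventually_ge_atTop n)).exists
        exact ⟨k, hk2, hk1.le⟩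
      choose φ hφ using h1
      exact ⟨φ, fun n => (hφ n).1, fun _ n => (hφ n).2⟩
  have hφt : Tendsto φ atTop atTop := tendsto_atTop_mono hφ1 tendsto_id
  obtain ⟨U, hU1, hU2, hU3, ⟨G, hG1, hG2⟩, hU4, hU5⟩ := bif_F7 hc (fun n => trc_SD hvs hvd (φ n)) hD ha hW hε
  have hUSD : ∀ t, 0 < t → SD (at' U t) := fun t ht => (hU1 t ht).1
  have hem : (fun i => ∫ y in cube, w₀ y i) = m := funext hm
  refine ⟨Uf m U, fun t₀ ht₀ => Uf_adm hU1 ht₀, fun t ht x i => ?_, fun ρ hρ => ?_,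
    fun s hs => growth_int hUSD hG1 (by linarith) (hG2 s hs), fun r hr hrv => ?_,
    fun wt hwt hfin => ?_, fun hfin => ?_⟩
  · have ht0 : 0 < t := hε.trans_le ht
    have e1 := hWphys t ht0.le x i
    rw [hem, hm] at e1
    obtain ⟨q1, q2⟩ := hU2 t ht
    have s1 : Summable fun k => U k t i * ex k (x - t • m) := by
      refine Summable.of_norm_bounded (hUSD t ht0).rr.summ fun k => ?_
      rw [norm_mul, norm_ex, mul_one]; exact norm_le_pi_norm _ i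
    have s2 : Summable fun k => cf' W i k t * ex k (x - t • m) := by
      refine Summable.of_norm_bounded ((hW.dom' ha).sn t) fun k => ?_
      rw [norm_mul, norm_ex, mul_one]; exact norm_le_pi_norm _ i
    have e2 : Uf m U t x i - w t x i = (∑' k, (U k t i * ex k (x - t • m) - cf' W i k t * ex k (x - t • m))).re := by
      rw [← e1, s1.tsum_sub s2, Complex.sub_re]
      unfold Uf GS SF
      ring
    rw [e2]
    refine (Complex.abs_re_le_norm _).trans (le_trans ?_ q2)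
    refine tsum_of_norm_bounded q1.hasSum fun k => ?_
    rw [← sub_mul, norm_mul, norm_ex, mul_one]
    exact norm_le_pi_norm (U k t - W k t) i
  · obtain ⟨δ, hδ, h3⟩ := hU3 (ρ / 2) (by positivity)
    set A := ∑ i, |m i| with hA
    have hA0 : 0 ≤ A := Finset.sum_nonneg fun i _ => abs_nonneg _
    refine ⟨min δ ((ρ / (2 * (A + 1))) ^ 2), lt_min hδ (by positivity), fun t ht htd x i => ?_⟩
    have h4 := h3 t ht (htd.trans (min_le_left _ _))
    have h5 : Real.sqrt t ≤ ρ / (2 * (A + 1)) := by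
      rw [Real.sqrt_le_left (by positivity)]
      exact htd.trans (min_le_right _ _)
    have hst := Real.sqrt_nonneg t
    have h6 : |Uf m U t x i| ≤ A + ∑' k, ‖U k t‖ := Uf_abs_le (hUSD t ht) x i
    rw [le_div_iff₀ (by positivity)] at h5
    calc Real.sqrt t * |Uf m U t x i| ≤ Real.sqrt t * (A + ∑' k, ‖U k t‖) := mul_le_mul_of_nonneg_left h6 hst
      _ = Real.sqrt t * A + Real.sqrt t * ∑' k, ‖U k t‖ := by ring
      _ ≤ ρ / 2 + ρ / 2 := by
          refine add_le_add ?_ h4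
          nlinarith
      _ = ρ := by ring
  · have hr1 : 1 ≤ r := by linarith
    have hN := critNorm_solid hr1
    have hv := trc_crit hr1 hrv
    exact Uf_tendsto hUSD hN hv hvs hvd fun ρ hρ => hU4 r hr _ hN.toGoodN (fun _ => le_rfl) v (hv.comp hφt) ρ hρ
  · set wt' : K → ℝ≥0∞ := fun k => wt k / 2 with hwt'
    have hwt1 : ∀ k, k ≠ 0 → wt' k ≤ ENNReal.ofReal (1 / (2 * sq k)) := by
      intro k hk
      have hs := sq_pos hk
      have h1 : ENNReal.ofReal (1 / (2 * sq k)) = ENNReal.ofReal (1 / sq k) / 2 := by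
        rw [show (2 : ℝ≥0∞) = ENNReal.ofReal 2 by simp, ← ENNReal.ofReal_div_of_pos (by norm_num)]
        congr 1
        field_simp
      rw [h1]
      exact ENNReal.div_le_div_right (hwt k hk) _
    have hle : ∀ x : K → C3, WN wt' x ≤ ∑' k, wt k * ‖x k‖ₑ := by
      intro x
      unfold WN
      refine ENNReal.tsum_le_tsum fun k => ?_
      split_ifs
      · exact zero_le
      · apply mul_le_mul' _ le_rfl
        exact ENNReal.half_le_self
    have hfin' : WN wt' v ≠ ⊤ := ne_top_of_le_ne_top hfin (hle v)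
    have hN := WN_good hwt1
    have hv := trc_WN hfin'
    have h3 := Uf_tendsto (m := m) hUSD hN hv hvs hvd fun ρ hρ =>
      hU4 3 (by norm_num) _ hN.toGoodN (WN_le_crit hwt1 (by norm_num)) v (hv.comp hφt) ρ hρ
    have h4 := ENNReal.Tendsto.const_mul (a := 2) h3 (Or.inr (by norm_num))
    rw [mul_zero] at h4
    refine h4.congr' ?_
    filter_upwards [self_mem_nhdsWithin] with t ht
    have ht0 : 0 < t := ht
    unfold WN
    rw [← ENNReal.tsum_mul_left]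
    refine tsum_congr fun k => ?_
    by_cases hk : k = 0
    · subst hk
      rw [if_pos rfl, mul_zero, Uf_fc (hUSD t ht0), if_pos rfl]
      have : (fun i => (m i : ℂ)) - v 0 = 0 := by
        funext i
        rw [Pi.sub_apply, hv0 i, sub_self]
        rfl
      rw [this, enorm_zero, mul_zero]
    · rw [if_neg hk, ← mul_assoc]
      congr 1
      simp only [hwt']
      rw [mul_comm, ENNReal.div_mul_cancel (by norm_num) (by norm_num)]
  · rw [← NH_sq] at hfin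
    have hNv : NH v ≠ ⊤ := by
      intro h
      apply hfin
      rw [h]
      simp
    have hφ3 := hφ2 hNv
    have hN := NH_solid
    have hv := trc_NH hNv
    have hVn : ∀ n, NH (trc (φ n) v - trc (φ (n + 1)) v) ≤ ENNReal.ofReal ((1 / 4) ^ n) := by
      intro n
      have e1 : trc (φ n) v - trc (φ (n + 1)) v = (trc (φ n) v - v) + -(trc (φ (n + 1)) v - v) := by abel
      rw [e1]
      refine (hN.add _ _).trans ((add_le_add (hφ3 n) ((hN.toGoodN.neg _).trans (hφ3 (n + 1)))).trans ?_)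
      rw [← ENNReal.ofReal_add (by positivity) (by positivity)]
      apply ENNReal.ofReal_le_ofReal
      have h1 : (0 : ℝ) < (1 / 4) ^ n := by positivity
      have h2 : ((1 : ℝ) / 4) ^ (n + 1) = (1 / 4) ^ n * (1 / 4) := pow_succ _ _
      have h3 : ((1 : ℝ) / 4) ^ (n + 1 + 1) = (1 / 4) ^ n * (1 / 4) * (1 / 4) := by rw [pow_succ, pow_succ]
      rw [h2, h3]
      linarith
    obtain ⟨hL2, hcv⟩ := hU5 hVn
    refine ⟨?_, fun T => ?_⟩
    · have h3 := Uf_tendsto (m := m) hUSD hN hv hvs hvd fun ρ hρ => hcv v (hv.comp hφt) ρ hρ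
      have h4 : Tendsto (fun t => NH (fun k => Pool.Agent.H356R3.NS.fc (Uf m U t) k - v k) ^ 2) (𝓝[>] 0) (𝓝 0) := by
        have := ((ENNReal.continuous_pow 2).tendsto 0).comp h3
        rwa [zero_pow two_ne_zero] at this
      refine h4.congr fun t => ?_
      rw [NH_sq]
    · have h1 : ∫⁻ t in Ioi 0, ∑' k, ‖U k t‖ₑ ^ 2 ≠ ⊤ := by
        intro h
        apply hL2
        unfold L2N LN
        have e1 : ∀ t, E2 (at' U t) ^ (2 : ℝ) = ∑' k, ‖U k t‖ₑ ^ 2 := by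
          intro t
          rw [E2_rpow]
          exact tsum_congr fun k => ENNReal.rpow_two _
        simp_rw [e1]
        rw [h, ENNReal.top_rpow_of_pos (by norm_num)]
      have h2 : ∫⁻ t in Ioc 0 T, ∫⁻ x in cube, ‖Uf m U t x‖ₑ ^ 2 ≤
          3 * (‖m‖ₑ ^ 2 * ENNReal.ofReal T + ∫⁻ t in Ioi 0, ∑' k, ‖U k t‖ₑ ^ 2) := by
        calc _ ≤ ∫⁻ t in Ioc 0 T, 3 * (‖m‖ₑ ^ 2 + ∑' k, ‖U k t‖ₑ ^ 2) :=
              setLIntegral_mono' measurableSet_Ioc fun t ht => Uf_l2 (hUSD t ht.1)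
          _ = 3 * ∫⁻ t in Ioc 0 T, (‖m‖ₑ ^ 2 + ∑' k, ‖U k t‖ₑ ^ 2) := lintegral_const_mul' _ _ (by norm_num)
          _ = 3 * (‖m‖ₑ ^ 2 * ENNReal.ofReal T + ∫⁻ t in Ioc 0 T, ∑' k, ‖U k t‖ₑ ^ 2) := by
              rw [lintegral_add_left measurable_const, setLIntegral_const, Real.volume_Ioc, sub_zero]
          _ ≤ _ := by
              gcongr
              exact fun t ht => ht.1
      refine ne_top_of_le_ne_top ?_ h2
      refine ENNReal.mul_ne_top (by norm_num) (ENNReal.add_ne_top.2 ⟨ENNReal.mul_ne_top ?_ ENNReal.ofReal_ne_top, h1⟩)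
      exact ENNReal.pow_ne_top enorm_ne_top

end Pool.Agent.K1H11.NS
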