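import Pool.Agent.K1H11.NS7.Gr

/-!
# The construction with control of the stress
-/

open MeasureTheory Set Filter Topology
open scoped ENNReal NNReal ContDiff

namespace Pool.Agent.K1H11.NS

open H459R3.NS (ee fc fr cube S SP Per pd D Rap)
open Pool.Agent.H356R3.NS (shellSum critNorm leiLin)

lemma SD.NH_ne {x : K → C3} (hx : SD x) : NH x ≠ ⊤ := ne_top_of_le_ne_top ENNReal.ofReal_ne_top (NH_le_LL hx)

/-- the state of the construction, with the next target and its stress -/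
structure CSt (c : ℝ) where
  b : BSt c
  V : K → C3
  θ : ℝ
  hV : SD V
  hθ : 0 ≤ θ
  str : Str (b.D - V) θ

/-- consecutive states -/
structure CRel (c : ℝ) (V' : K → C3) (n : ℕ) (s s' : CSt c) : Prop where
  tgt : s'.V = V'
  base : BRel c s.V n s.b s'.b
  th : s'.θ ≤ (1 / 4) ^ n + (NH (s.V - V')).toReal
  l2 : L2N (s'.b.u - s.b.u) ≤ ENNReal.ofReal (14 * Real.sqrt (36 * s.θ + (1 / 4) ^ n) + (1 / 4) ^ n)
  nh1 : NH (s'.b.D - s.V) ≤ ENNReal.ofReal (16 * Real.sqrt c * Real.sqrt (36 * s.θ + (1 / 4) ^ n) + (1 / 4) ^ n)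
  nh2 : ∀ t, 0 ≤ t → t ≤ s'.b.dl → NH (at' s'.b.u t - s.V) ≤ NH (s.b.D - s.V) +
    ENNReal.ofReal (2 / ((n : ℝ) + 1) + (16 * Real.sqrt c * Real.sqrt (36 * s.θ + (1 / 4) ^ n) + (1 / 4) ^ n))
  dn : ∀ q : ℝ, 2 + 1 / ((n : ℝ) + 1) ≤ q → DN q (s'.b.u - s.b.u) ≤ ENNReal.ofReal ((1 / 4) ^ n)

lemma exists_next7 {c : ℝ} (hc : 0 < c) {V' : K → C3} (hV' : SD V') (n : ℕ) (s : CSt c) :
    ∃ s' : CSt c, CRel c V' n s s' := by
  set V := s.V with hVdef
  have hV := s.hV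
  set ρ : ℝ := 1 / ((n : ℝ) + 1) with hρdef
  have hρ : 0 < ρ := by positivity
  have h4n : (0 : ℝ) < (1 / 4) ^ n := by positivity
  obtain ⟨d1, hd1, hY⟩ := cont0 s.b.ha s.b.hu hρ
  have hsd := s.b.hu.dom' s.b.ha
  obtain ⟨b, hb, hb'⟩ := s.b.hu.dom' s.b.ha
  set M := ∑' k, b k + 1 with hM
  have hAb : ∀ t, An s.b.u t ≤ ∑' k, b k := fun t =>
    Summable.tsum_le_tsum (fun k => hb' k t) (hb.of_nonneg_of_le (fun _ => norm_nonneg _) fun k => hb' k t) hb
  have hM0 : 0 < M := by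
    have h1 := (An_nonneg s.b.u 0).trans (hAb 0)
    linarith
  set d2 := (ρ / M) ^ 2 with hd2def
  have hd2 : 0 < d2 := by positivity
  set dl' := min (min d1 d2) (s.b.dl / 2) with hdl'
  have hdlp : 0 < dl' := lt_min (lt_min hd1 hd2) (half_pos s.b.hdl)
  obtain ⟨ε', hε', hlate⟩ := late2 hc (half_pos hdlp) (half_pos s.b.hbe) s.b.ha s.b.hu
  set ρs := min ε' (min ρ ((1 / 4) ^ n)) with hρs
  have hρs0 : 0 < ρs := lt_min hε' (lt_min hρ h4n)
  have hρs1 : ρs ≤ ε' := min_le_left _ _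
  have hρs2 : ρs ≤ ρ := (min_le_right _ _).trans (min_le_left _ _)
  have hρs3 : ρs ≤ (1 / 4) ^ n := (min_le_right _ _).trans (min_le_right _ _)
  obtain ⟨D', hD', hStr', a', ha', u', hu', huL, huW, huD, hL2, hN1, hN2, hcr⟩ := step_all7 hc hV s.b.hD s.hθ s.str
    s.b.ha s.b.hu (r0 := 2 + ρ) (ρ := ρs) (dl := dl' / 2) (by linarith) hρs0 (half_pos hdlp)
  obtain ⟨δ, hδ, hopen⟩ := open_sol hc ha' (hu'.sh ha' hdlp.le) one_pos
  have hVV : SD (V - V') := hV.sub hV'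
  have hNVV : NH (V - V') ≤ ENNReal.ofReal (NH (V - V')).toReal := by rw [ENNReal.ofReal_toReal hVV.NH_ne]
  have hsq : Real.sqrt (36 * s.θ + ρs) ≤ Real.sqrt (36 * s.θ + (1 / 4) ^ n) := Real.sqrt_le_sqrt (by linarith)
  have hsc := Real.sqrt_nonneg c
  have hbd : 16 * Real.sqrt c * Real.sqrt (36 * s.θ + ρs) + ρs ≤
      16 * Real.sqrt c * Real.sqrt (36 * s.θ + (1 / 4) ^ n) + (1 / 4) ^ n := by
    have : 16 * Real.sqrt c * Real.sqrt (36 * s.θ + ρs) ≤ 16 * Real.sqrt c * Real.sqrt (36 * s.θ + (1 / 4) ^ n) :=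
      mul_le_mul_of_nonneg_left hsq (by positivity)
    linarith
  refine ⟨⟨⟨D', a', u', dl', min δ (s.b.be / 2), hD', ha', hu', hdlp, lt_min hδ (half_pos s.b.hbe)⟩,
    V', ρs + (NH (V - V')).toReal, hV', by positivity, ?_⟩, rfl,
    ⟨min_le_right _ _, min_le_right _ _, fun t ht => ?_, fun t ht => ?_, fun t ht0 ht => ?_, fun r hr => ?_,
      fun h h1 h2 h3 h4 => ?_⟩, ?_, ?_, ?_, fun t ht0 ht => ?_, fun q hq => ?_⟩
  · have h1 := hStr'.add (Str_of_NH hVV ENNReal.toReal_nonneg hNVV)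
    have e1 : D' - V + (V - V') = D' - V' := by abel
    rwa [e1] at h1
  · refine hlate a' ha' _ u' hu' (huL.trans (ENNReal.ofReal_le_ofReal hρs1)) t ?_
    have : dl' ≤ t := ht
    linarith
  · exact (huW t ht).trans (ENNReal.ofReal_le_ofReal hρs2)
  · have ht2 : t ≤ d2 := (show t ≤ dl' from ht).trans ((min_le_left _ _).trans (min_le_right _ _))
    refine (LW_le_of hsd ht0 hM0.le fun s' _ => ?_).trans (ENNReal.ofReal_le_ofReal ?_)
    · have := hAb s'
      linarith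
    · have h1 : Real.sqrt t ≤ ρ / M := by
        rw [Real.sqrt_le_left (by positivity)]
        exact ht2
      calc Real.sqrt t * M ≤ ρ / M * M := mul_le_mul_of_nonneg_right h1 hM0.le
        _ = ρ := by field_simp
  · obtain ⟨c1, c2⟩ := hcr r hr
    refine ⟨c1.trans (ENNReal.ofReal_le_ofReal hρs2), fun N hN hNr t ht0 ht => ?_⟩
    have h5 : N (at' s.b.u t - s.b.D) ≤ ENNReal.ofReal (2 * ρ) := by
      refine (hN.le _).trans ?_
      rw [ENNReal.ofReal_mul (by norm_num), ENNReal.ofReal_ofNat]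
      refine mul_le_mul' le_rfl (hY t ht0 ((show t ≤ dl' from ht).trans ((min_le_left _ _).trans (min_le_left _ _))))
    refine (c2 N hN hNr t ht0).trans ?_
    calc _ ≤ ENNReal.ofReal (2 * ρ) + N (s.b.D - V) + ENNReal.ofReal ρ :=
          add_le_add (add_le_add h5 le_rfl) (ENNReal.ofReal_le_ofReal hρs2)
      _ = N (s.b.D - V) + (ENNReal.ofReal (2 * ρ) + ENNReal.ofReal ρ) := by ring
      _ = _ := by
          rw [← ENNReal.ofReal_add (by positivity) hρ.le]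
          congr 2
          rw [hρdef]; ring
  · obtain ⟨a'', ha'', z, hz, -⟩ := hopen h h1 h2 h3 (h4.trans (min_le_left _ _))
    exact ⟨a'', ha'', z, hz⟩
  · show ρs + (NH (V - V')).toReal ≤ (1 / 4) ^ n + (NH (V - V')).toReal
    linarith
  · refine hL2.trans (ENNReal.ofReal_le_ofReal ?_)
    linarith
  · exact hN1.trans (ENNReal.ofReal_le_ofReal hbd)
  · have h5 : NH (at' s.b.u t - s.b.D) ≤ ENNReal.ofReal (2 * ρ) := by
      refine (NH_solid.le _).trans ?_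
      rw [ENNReal.ofReal_mul (by norm_num), ENNReal.ofReal_ofNat]
      refine mul_le_mul' le_rfl (hY t ht0 ((show t ≤ dl' from ht).trans ((min_le_left _ _).trans (min_le_left _ _))))
    refine (hN2 t ht0).trans ?_
    calc _ ≤ ENNReal.ofReal (2 * ρ) + NH (s.b.D - V) + ENNReal.ofReal (16 * Real.sqrt c *
          Real.sqrt (36 * s.θ + (1 / 4) ^ n) + (1 / 4) ^ n) :=
          add_le_add (add_le_add h5 le_rfl) (ENNReal.ofReal_le_ofReal hbd)
      _ = NH (s.b.D - V) + (ENNReal.ofReal (2 * ρ) + ENNReal.ofReal (16 * Real.sqrt c *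
          Real.sqrt (36 * s.θ + (1 / 4) ^ n) + (1 / 4) ^ n)) := by ring
      _ = _ := by
          rw [← ENNReal.ofReal_add (by positivity) (by positivity)]
          congr 2
          rw [hρdef]; ring
  · exact (huD q hq).trans (ENNReal.ofReal_le_ofReal hρs3)

/-- lower semicontinuity -/
lemma E2s_liminf {x : ℕ → K → C3} {x' : K → C3} (h : ∀ k, Tendsto (fun n => x n k) atTop (𝓝 (x' k))) :
    ∑' k, ‖x' k‖ₑ ^ (2 : ℝ) ≤ liminf (fun n => ∑' k, ‖x n k‖ₑ ^ (2 : ℝ)) atTop := by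
  have h1 := lintegral_liminf_le (μ := Measure.count (α := K)) (u := (atTop : Filter ℕ))
    (f := fun n k => ‖x n k‖ₑ ^ (2 : ℝ)) fun n => measurable_of_countable _
  simp_rw [lintegral_count] at h1
  refine le_trans (le_of_eq (tsum_congr fun k => ?_)) h1
  have h2 : Tendsto (fun n => ‖x n k‖ₑ ^ (2 : ℝ)) atTop (𝓝 (‖x' k‖ₑ ^ (2 : ℝ))) :=
    ((ENNReal.continuous_rpow_const (y := (2 : ℝ))).tendsto _).comp ((continuous_enorm.tendsto _).comp (h k))
  exact h2.liminf_eq.symm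

lemma E2_rpow (x : K → C3) : E2 x ^ (2 : ℝ) = ∑' k, ‖x k‖ₑ ^ (2 : ℝ) := by
  unfold E2 q2
  rw [← ENNReal.rpow_mul]
  norm_num

lemma L2N_lim {x : ℕ → Fam} {x' : Fam} (hx : ∀ n, CF (x n))
    (h : ∀ k t, 0 < t → Tendsto (fun n => x n k t) atTop (𝓝 (x' k t))) {B : ℝ≥0∞} (hB : ∀ n, L2N (x n) ≤ B) :
    L2N x' ≤ B := by
  have h1 : ∫⁻ t in Ioi 0, E2 (at' x' t) ^ (2 : ℝ) ≤ B ^ (2 : ℝ) := by
    calc ∫⁻ t in Ioi 0, E2 (at' x' t) ^ (2 : ℝ) ≤ ∫⁻ t in Ioi 0, liminf (fun n => E2 (at' (x n) t) ^ (2 : ℝ)) atTop := by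
          refine setLIntegral_mono' measurableSet_Ioi fun t ht => ?_
          simp_rw [E2_rpow]
          exact E2s_liminf fun k => h k t ht
      _ ≤ liminf (fun n => ∫⁻ t in Ioi 0, E2 (at' (x n) t) ^ (2 : ℝ)) atTop :=
          lintegral_liminf_le fun n => (E2_meas (hx n)).pow_const _
      _ ≤ liminf (fun _ : ℕ => B ^ (2 : ℝ)) atTop := by
          refine liminf_le_liminf (Eventually.of_forall fun n => ?_)
          have h2 : L2N (x n) ^ (2 : ℝ) = ∫⁻ t in Ioi 0, E2 (at' (x n) t) ^ (2 : ℝ) := by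
            unfold L2N LN
            rw [← ENNReal.rpow_mul]
            norm_num
          rw [← h2]
          exact ENNReal.rpow_le_rpow (hB n) (by norm_num)
      _ = _ := by simp
  unfold L2N LN
  calc _ ≤ (B ^ (2 : ℝ)) ^ (1 / 2 : ℝ) := ENNReal.rpow_le_rpow h1 (by norm_num)
    _ = B := by rw [← ENNReal.rpow_mul]; norm_num

/-- The Fourier form of the theorem. -/
theorem bif_F7 {c : ℝ} (hc : 0 < c) {V : ℕ → K → C3} (hV : ∀ n, SD (V n)) {D : K → C3} (hD : SD D)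
    {a : Wt} (ha : Sup a) {w : Fam} (hw : Sol c a D w) {ε : ℝ} (hε : 0 < ε) :
    ∃ U : Fam, (∀ t0, 0 < t0 → SD (at' U t0) ∧ ∃ a' : Wt, Sup a' ∧ ∃ z : Fam,
        Sol c a' (at' U t0) z ∧ ∀ k s, 0 ≤ s → z k s = U k (t0 + s)) ∧
      (∀ t, ε ≤ t → Summable (fun k => ‖U k t - w k t‖) ∧ ∑' k, ‖U k t - w k t‖ ≤ ε) ∧
      (∀ ρ : ℝ, 0 < ρ → ∃ δ : ℝ, 0 < δ ∧ ∀ t, 0 < t → t ≤ δ → Real.sqrt t * ∑' k, ‖U k t‖ ≤ ρ) ∧
      (∃ G : ℕ → ℝ≥0∞, (∀ (j : ℕ) (t : ℝ), (1 / 4) ^ (j + 1) < t → t ≤ (1 / 4) ^ j →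
        ENNReal.ofReal (Real.sqrt t * ∑' k, ‖U k t‖) ≤ G j) ∧ ∀ q : ℝ, 2 < q → ∑' j, G j ^ q ≠ ⊤) ∧
      (∀ r : ℝ, 2 < r → ∀ N : (K → C3) → ℝ≥0∞, GoodN N → (∀ x, N x ≤ critNorm r x) → ∀ v : K → C3,
        Tendsto (fun n => N (V n - v)) atTop (𝓝 0) → ∀ ρ : ℝ, 0 < ρ → ∃ δ : ℝ, 0 < δ ∧ ∀ t, 0 < t → t ≤ δ →
        N (at' U t - v) ≤ ENNReal.ofReal ρ) ∧
      ((∀ n, NH (V n - V (n + 1)) ≤ ENNReal.ofReal ((1 / 4) ^ n)) → L2N U ≠ ⊤ ∧
        ∀ v : K → C3, Tendsto (fun n => NH (V n - v)) atTop (𝓝 0) → ∀ ρ : ℝ, 0 < ρ → ∃ δ : ℝ, 0 < δ ∧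
          ∀ t, 0 < t → t ≤ δ → NH (at' U t - v) ≤ ENNReal.ofReal ρ) := by
  choose f hf using fun n s => exists_next7 hc (hV (n + 1)) n s
  have hD0 : SD (D - V 0) := hD.sub (hV 0)
  set b0 : BSt c := ⟨D, a, w, ε, ε, hD, ha, hw, hε, hε⟩ with hb0
  set c0 : CSt c := ⟨b0, V 0, (NH (D - V 0)).toReal, hV 0, ENNReal.toReal_nonneg,
    Str_of_NH hD0 ENNReal.toReal_nonneg (by rw [ENNReal.ofReal_toReal hD0.NH_ne])⟩ with hc0
  obtain ⟨S, hS0, hR⟩ : ∃ S : ℕ → CSt c, S 0 = c0 ∧ ∀ n, CRel c (V (n + 1)) n (S n) (S (n + 1)) :=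
    ⟨fun n => Nat.rec c0 f n, rfl, fun n => hf n _⟩
  have hSV : ∀ n, (S n).V = V n := by
    intro n
    cases n with
    | zero => rw [hS0]
    | succ m => exact (hR m).tgt
  have hRb : ∀ n, BRel c (V n) n (S n).b (S (n + 1)).b := fun n => by
    have := (hR n).base
    rwa [hSV n] at this
  obtain ⟨U, hU1, hU2, hU3, hU4, hU5⟩ := bif_seq hc (S := fun n => (S n).b) hRb
  have hS0b : (S 0).b = b0 := by rw [hS0]
  have hS0u : (S 0).b.u = w := by rw [hS0b]
  have hS0d : (S 0).b.dl = ε := by rw [hS0b]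
  have hS0e : (S 0).b.be = ε := by rw [hS0b]
  refine ⟨U, hU3, fun t ht => ?_, hU4, growth_seq hc hRb (fun n => (hR n).dn) (fun t ht => (hU3 t ht).1) hU2, hU5,
    fun hNV => ⟨?_, fun v hv ρ hρ => ?_⟩⟩
  · have h1 : (S 1).b.dl ≤ t := by
      have h2 := (hRb 0).dl
      have h3 := (S 0).b.hdl
      rw [zero_add] at h2
      rw [hS0d] at h2 h3
      linarith
    have h6 := hU2 0 t h1
    rw [hS0u, hS0e] at h6
    exact h6
  all_goals
    have hth : ∀ n, (S (n + 1)).θ ≤ 2 * (1 / 4) ^ n := by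
      intro n
      have h1 := (hR n).th
      rw [hSV n] at h1
      have h2 : (NH (V n - V (n + 1))).toReal ≤ (1 / 4) ^ n := ENNReal.toReal_le_of_le_ofReal (by positivity) (hNV n)
      linarith
    have hsq : ∀ n, Real.sqrt (36 * (S (n + 1)).θ + (1 / 4) ^ (n + 1)) ≤ 9 * (1 / 2) ^ n := by
      intro n
      rw [Real.sqrt_le_left (by positivity)]
      have h1 := hth n
      have e1 : ((1 : ℝ) / 2) ^ n * (1 / 2) ^ n = (1 / 4) ^ n := by
        rw [← mul_pow]; norm_num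
      have h2 : (0 : ℝ) < (1 / 4) ^ n := by positivity
      rw [pow_succ]
      nlinarith
    have h42 : ∀ n : ℕ, ((1 : ℝ) / 4) ^ n ≤ (1 / 2) ^ n := fun n =>
      pow_le_pow_left₀ (by norm_num) (by norm_num) n
  · -- the norm in `L²`
    set B0 := 14 * Real.sqrt (36 * (S 0).θ + (1 / 4) ^ 0) + (1 / 4) ^ 0 with hB0
    have hB00 : 0 ≤ B0 := by positivity
    have key : ∀ n, L2N ((S (n + 1)).b.u - w) ≤ ENNReal.ofReal (B0 + 254 * (1 - (1 / 2) ^ n)) := by
      intro n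
      induction n with
      | zero =>
        have h1 := (hR 0).l2
        rw [hS0u] at h1
        refine h1.trans (ENNReal.ofReal_le_ofReal ?_)
        simp [hB0]
      | succ n ih =>
        have e1 : (S (n + 1 + 1)).b.u - w = ((S (n + 1 + 1)).b.u - (S (n + 1)).b.u) + ((S (n + 1)).b.u - w) := by abel
        have c1 : CF ((S (n + 1 + 1)).b.u - (S (n + 1)).b.u) := fun k =>
          ((S (n + 1 + 1)).b.hu.cf k).sub ((S (n + 1)).b.hu.cf k)
        have c2 : CF ((S (n + 1)).b.u - w) := fun k => ((S (n + 1)).b.hu.cf k).sub (hw.cf k)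
        rw [e1]
        have h3 : (0 : ℝ) ≤ (1 / 2) ^ n := by positivity
        have h4 : ((1 : ℝ) / 2) ^ n ≤ 1 := pow_le_one₀ (by norm_num) (by norm_num)
        refine (L2N_add c1 c2).trans ((add_le_add (hR (n + 1)).l2 ih).trans ?_)
        rw [← ENNReal.ofReal_add (by positivity) (by nlinarith)]
        apply ENNReal.ofReal_le_ofReal
        have h1 := hsq n
        have h2 := h42 (n + 1)
        rw [pow_succ] at h2
        have h5 : ((1 : ℝ) / 2) ^ (n + 1) = (1 / 2) ^ n * (1 / 2) := pow_succ _ _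
        rw [h5]
        have h6 : ((1 : ℝ) / 4) ^ (n + 1) ≤ (1 / 2) ^ n * (1 / 2) := by
          have := h42 (n + 1)
          rwa [h5] at this
        linarith
    have hXfin : XN w ≠ ⊤ := by
      refine ne_top_of_le_ne_top hw.l2 (LN_mono fun t _ => ?_)
      have hone : ∀ k, om Wt.one k ≤ om a k := fun k => a.one_le k
      exact NW_mono (fun k => Wa_mono hone k) _
    refine ne_top_of_le_ne_top (ENNReal.add_ne_top.2 ⟨ENNReal.ofReal_ne_top (r := B0 + 254), hXfin⟩) ?_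
    refine L2N_lim (x := fun n => (S (n + 1)).b.u) (fun n => (S (n + 1)).b.hu.cf)
      (fun k t ht => (tendsto_add_atTop_iff_nat 1).2 (hU1 k t ht)) fun n => ?_
    have e1 : (S (n + 1)).b.u = ((S (n + 1)).b.u - w) + w := by abel
    have c2 : CF ((S (n + 1)).b.u - w) := fun k => ((S (n + 1)).b.hu.cf k).sub (hw.cf k)
    rw [e1]
    refine (L2N_add c2 hw.cf).trans (add_le_add ((key n).trans (ENNReal.ofReal_le_ofReal ?_)) (L2N_le_XN w))
    have : (0 : ℝ) ≤ (1 / 2) ^ n := by positivity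
    linarith
  · -- the initial value in `H⁻¹`
    have hsc := Real.sqrt_nonneg c
    set Kc := 16 * Real.sqrt c * 9 + 1 with hKc
    have hKc0 : 0 < Kc := by positivity
    have hbd : ∀ n, 16 * Real.sqrt c * Real.sqrt (36 * (S (n + 1)).θ + (1 / 4) ^ (n + 1)) + (1 / 4) ^ (n + 1) ≤
        Kc * (1 / 2) ^ n := by
      intro n
      have h1 := mul_le_mul_of_nonneg_left (hsq n) (show 0 ≤ 16 * Real.sqrt c by positivity)
      have h2 := h42 (n + 1)
      have h5 : ((1 : ℝ) / 2) ^ (n + 1) = (1 / 2) ^ n * (1 / 2) := pow_succ _ _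
      rw [h5] at h2
      have h3 : (0 : ℝ) ≤ (1 / 2) ^ n := by positivity
      rw [hKc]
      nlinarith
    have dl0 : ∀ n, 0 < (S n).b.dl := fun n => (S n).b.hdl
    have be0 : ∀ n, 0 < (S n).b.be := fun n => (S n).b.hbe
    have dlh : ∀ n, (S (n + 1)).b.dl ≤ (S n).b.dl / 2 := fun n => (hRb n).dl
    have beh : ∀ n, (S (n + 1)).b.be ≤ (S n).b.be / 2 := fun n => (hRb n).be
    have hanti : Antitone fun n => (S n).b.dl := half_anti dl0 dlh
    have hdl : Tendsto (fun n => (S n).b.dl) atTop (𝓝 0) := half_tendsto dl0 dlh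
    have hbe : Tendsto (fun n => (S n).b.be) atTop (𝓝 0) := half_tendsto be0 beh
    have hpow : Tendsto (fun n : ℕ => Kc * (1 / 2 : ℝ) ^ n) atTop (𝓝 0) := by
      have := (tendsto_pow_atTop_nhds_zero_of_lt_one (r := (1 / 2 : ℝ)) (by norm_num) (by norm_num)).const_mul Kc
      rwa [mul_zero] at this
    have hn3' : Tendsto (fun n : ℕ => 2 / ((n : ℝ) + 1)) atTop (𝓝 0) := by
      have := tendsto_one_div_add_atTop_nhds_zero_nat.const_mul (2 : ℝ)
      rw [mul_zero] at this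
      refine this.congr fun n => by ring
    have hρ8 : (0 : ℝ≥0∞) < ENNReal.ofReal (ρ / 8) := by
      rw [ENNReal.ofReal_pos]; positivity
    obtain ⟨n3, hn3⟩ := Filter.eventually_atTop.1 ((((hbe.eventually (gt_mem_nhds (show 0 < ρ / 16 by positivity))).and
      (hv.eventually (gt_mem_nhds hρ8))).and (hpow.eventually (gt_mem_nhds (show 0 < ρ / 16 by positivity)))).and
      (hn3'.eventually (gt_mem_nhds (show 0 < ρ / 16 by positivity))))
    set n1 := n3 + 3 with hn1def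
    refine ⟨(S n1).b.dl / 2, by have := dl0 n1; positivity, fun t ht htd => ?_⟩
    have htn : t < (S n1).b.dl := by have := dl0 n1; linarith
    -- the index
    obtain ⟨n, hnn, hm1, hm3⟩ : ∃ n, n1 ≤ n + 1 ∧ (S (n + 2)).b.dl ≤ t ∧ t < (S (n + 1)).b.dl := by
      classical
      have hex : ∃ m, (S m).b.dl ≤ t := by
        obtain ⟨m, hm⟩ := (hdl.eventually (gt_mem_nhds ht)).exists
        exact ⟨m, hm.le⟩
      set m := Nat.find hex with hm
      have hm1 : (S m).b.dl ≤ t := Nat.find_spec hex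
      have hm2 : n1 < m := by
        by_contra hcon
        push Not at hcon
        have : (S n1).b.dl ≤ (S m).b.dl := hanti hcon
        linarith
      obtain ⟨n, hn⟩ : ∃ n, m = n + 2 := ⟨m - 2, by omega⟩
      have hm3 : t < (S (n + 1)).b.dl := by
        have := Nat.find_min hex (m := n + 1) (by omega)
        push Not at this
        exact this
      rw [hn] at hm1
      exact ⟨n, by omega, hm1, hm3⟩
    obtain ⟨n', rfl⟩ : ∃ n', n = n' + 2 := ⟨n - 2, by omega⟩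
    obtain ⟨q1, q2⟩ := hU2 (n' + 2 + 1) t hm1
    obtain ⟨⟨⟨-, v1⟩, -⟩, w1⟩ := hn3 (n' + 2) (by omega)
    obtain ⟨⟨⟨-, v2⟩, p1⟩, -⟩ := hn3 (n' + 1) (by omega)
    obtain ⟨⟨⟨-, -⟩, p2⟩, -⟩ := hn3 n' (by omega)
    obtain ⟨⟨⟨b1, -⟩, -⟩, -⟩ := hn3 (n' + 2 + 1) (by omega)
    have hN := NH_solid.toGoodN
    have p3 := (hR (n' + 2)).nh2 t ht.le hm3.le
    have p5 := (hR (n' + 1)).nh1
    rw [hSV] at p3 p5
    have hb1 := hbd (n' + 1)
    have hb2 := hbd n'
    have p4 : NH ((S (n' + 2)).b.D - V (n' + 2)) ≤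
        ENNReal.ofReal (ρ / 16) + (ENNReal.ofReal (ρ / 8) + ENNReal.ofReal (ρ / 8)) := by
      have e3 : (S (n' + 2)).b.D - V (n' + 2) = ((S (n' + 2)).b.D - V (n' + 1)) +
          ((V (n' + 1) - v) + -(V (n' + 2) - v)) := by abel
      rw [e3]
      refine (hN.add _ _).trans (add_le_add ?_ ((hN.add _ _).trans (add_le_add v2.le ((hN.neg _).trans v1.le))))
      exact p5.trans (ENNReal.ofReal_le_ofReal (hb2.trans p2.le))
    have p3' : NH (at' (S (n' + 2 + 1)).b.u t - V (n' + 2)) ≤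
        ENNReal.ofReal (ρ / 16) + (ENNReal.ofReal (ρ / 8) + ENNReal.ofReal (ρ / 8)) + ENNReal.ofReal (ρ / 8) := by
      refine p3.trans (add_le_add p4 (ENNReal.ofReal_le_ofReal ?_))
      have h7 := hb1.trans p1.le
      have h8 : (2 : ℝ) / (((n' + 2 : ℕ) : ℝ) + 1) ≤ ρ / 16 := w1.le
      have e9 : n' + 1 + 1 = n' + 2 := rfl
      rw [e9] at h7
      linarith
    have e3 : at' U t - v = (at' U t - at' (S (n' + 2 + 1)).b.u t) +
        ((at' (S (n' + 2 + 1)).b.u t - V (n' + 2)) + (V (n' + 2) - v)) := by abel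
    rw [e3]
    have p6 : NH (at' U t - at' (S (n' + 2 + 1)).b.u t) ≤ ENNReal.ofReal (ρ / 8) := by
      have q3 : SN (at' U t - at' (S (n' + 2 + 1)).b.u t) := q1
      refine (hN.le _).trans ?_
      have q4 : leiLin (at' U t - at' (S (n' + 2 + 1)).b.u t) ≤ ENNReal.ofReal (ρ / 16) :=
        (LL_le_tsum q3).trans (ENNReal.ofReal_le_ofReal (le_trans q2 b1.le))
      calc 2 * leiLin (at' U t - at' (S (n' + 2 + 1)).b.u t) ≤ 2 * ENNReal.ofReal (ρ / 16) := mul_le_mul' le_rfl q4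
        _ = ENNReal.ofReal (ρ / 8) := by
            rw [show (2 : ℝ≥0∞) = ENNReal.ofReal 2 by simp, ← ENNReal.ofReal_mul (by norm_num)]
            congr 1; ring
    refine (hN.add _ _).trans ((add_le_add p6 ((hN.add _ _).trans (add_le_add p3' v1.le))).trans ?_)
    rw [← ENNReal.ofReal_add (by positivity) (by positivity), ← ENNReal.ofReal_add (by positivity) (by positivity),
      ← ENNReal.ofReal_add (by positivity) (by positivity), ← ENNReal.ofReal_add (by positivity) (by positivity),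
      ← ENNReal.ofReal_add (by positivity) (by positivity)]
    apply ENNReal.ofReal_le_ofReal
    linarith

end Pool.Agent.K1H11.NS
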