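import Pool.Agent.K1H11.NS7.Avg
import Pool.Agent.K1H11.NS7.DN

/-!
# Changing the initial velocity by fast waves with local amplitudes
-/

open MeasureTheory Set Filter Topology
open scoped ENNReal NNReal ContDiff

namespace Pool.Agent.K1H11.NS

open H459R3.NS (ee fc fr cube S SP Per pd D Rap)
open Pool.Agent.H356R3.NS (shellSum critNorm leiLin)

lemma cF_SD {B : Fin 3 → E3 → ℝ} (hB : ∀ i, SP (B i)) : SD (cF fun i => fr (B i)) := by
  have hcu : (cF fun i => fr (B i)) = fun k i => fr (cu B i) k := by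
    funext k i
    exact (fr_cu hB i k).symm
  refine ⟨?_, cF_zero _, ?_, cF_div _⟩
  · rw [hcu]
    intro k i
    exact fr_neg _ _
  · intro m
    have := rap_cF hB m
    simpa using this

theorem stage7 {c : ℝ} (hc : 0 < c) {η : ℝ} (hη0 : 0 < η) (hη1 : η ≤ 1 / 4) {g : ℝ → ℝ} (hg : Cut η g) {A Q Q1 : ℝ}
    (hA : ∀ cc M, wn (gM g cc M) ≤ A) (hQ : ∀ cc M, wn (gM (fun y => g y ^ 2 - 1) cc M) ≤ Q)
    (hQ1 : ∀ cc M, wn (gM (fun y => g y - ∫ z in (0 : ℝ)..1, g z) cc M) ≤ Q1)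
    {V0 Gf : K → C3} {F : Fin 3 → Fin 5 → E3 → ℝ} (hF : ∀ c a, SP (F c a)) (hF0 : ∀ c a x, 0 ≤ F c a x)
    {K1 : ℝ} (hK1 : 0 < K1) (hFw : ∀ c a, wn (F c a) ≤ 2 * Real.sqrt K1) {E : ℝ}
    (hE : ∀ c a, ∫ x in cube, F c a x * F c a x ≤ E)
    (hFs : ∀ k, ∑ c, ∑ a, fr (fun x => F c a x * F c a x) k • bt k (ec (eP c a)) (ec (eP c a)) = Gf k)
    {a : Wt} (ha : Sup a) {w : Fam} (hw : Sol c a (V0 + Gf) w)
    {J : ℕ} (hJ : 1 ≤ J) {τ dl : ℝ} (hτ : 0 < τ) (hdl : 0 < dl) :
    ∃ Wi : ℕ → K → C3, (∀ i, SD (Wi i)) ∧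
      ∃ a' : Wt, Sup a' ∧ ∃ u : Fam, Sol c a' (V0 + ∑ i ∈ Finset.range (15 * J), Wi i) u ∧
        LNd dl (u - w) ≤ ENNReal.ofReal τ ∧
        (∀ t, 0 < t → LW t (u - w) ≤ ENNReal.ofReal
          ((4 * Real.sqrt (c / J) * Real.sqrt K1 * A + τ) * Real.sqrt (2 / c) * 4 + 2 * τ)) ∧
        (∀ q : ℝ, 2 ≤ q → DN q (u - w) ≤ ENNReal.ofReal (Real.sqrt (4 / c)) * WvB c K1 A τ J q +
          2 * ENNReal.ofReal τ) ∧
        L2N (u - w) ≤ ENNReal.ofReal (14 * Real.sqrt (E + τ) + 3 * τ) ∧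
        Str (∑ i ∈ Finset.range (15 * J), Wi i) (15 * (1 + c) * (Real.sqrt (2 * η) * (1 + E)) + τ) ∧
        (∀ r : ℝ, 1 ≤ r → ∀ b : ℕ → ℝ, (∀ i, |b i| ≤ 1) →
          critNorm r (∑ i ∈ Finset.range (15 * J), b i • Wi i) ≤ WvB c K1 A τ J r) ∧
        (∀ b : ℕ → ℝ, (∀ i, |b i| ≤ 1) → NH (∑ i ∈ Finset.range (15 * J), b i • Wi i) ≤
          ENNReal.ofReal (16 * Real.sqrt c * Real.sqrt (E + τ) + 2 * τ)) ∧
        ∀ N : (K → C3) → ℝ≥0∞, GoodN N → ∀ Bd : ℝ≥0∞, (∀ b : ℕ → ℝ, (∀ i, |b i| ≤ 1) →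
          N (∑ i ∈ Finset.range (15 * J), b i • Wi i) ≤ Bd) → ∀ t, 0 ≤ t → N (at' u t - V0) ≤
            N (at' w t - (V0 + Gf)) + N Gf +
            (15 * (2 * ENNReal.ofReal (72 * Real.pi * K1 / J)) + Bd + 2 * ENNReal.ofReal τ) := by
  classical
  have hpi := Real.pi_pos
  have hJ1 : (1 : ℝ) ≤ J := by exact_mod_cast hJ
  have hJ0 : (0 : ℝ) < J := by linarith
  have hA0 : 0 ≤ A := (wn_nonneg _).trans (hA 0 0)
  have hQ0 : 0 ≤ Q := (wn_nonneg _).trans (hQ 0 0)
  set β := Real.sqrt (c / J) with hβdef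
  have hβ : 0 < β := Real.sqrt_pos.2 (by positivity)
  have hβ2 : β ^ 2 = c / J := Real.sq_sqrt (by positivity)
  set κ := Real.sqrt K1 with hκdef
  have hκ : 0 < κ := Real.sqrt_pos.2 hK1
  have hκ2 : κ ^ 2 = K1 := Real.sq_sqrt hK1.le
  set C1 := 4 * β * κ * A with hC1
  have hC10 : 0 ≤ C1 := by positivity
  set n := 15 * J with hn
  have hn0 : 0 < n := by omega
  have hn1 : (0 : ℝ) < n := by exact_mod_cast hn0
  set τ1 := τ / n
  have hτ1 : 0 < τ1 := by positivity
  have hτn : n * τ1 = τ := by simp only [τ1]; field_simp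
  have sc2 : 0 < Real.sqrt (2 * c) := Real.sqrt_pos.2 (by positivity)
  have hXfin : XN w ≠ ⊤ := by
    refine ne_top_of_le_ne_top hw.l2 (LN_mono fun t _ => ?_)
    have hone : ∀ k, om Wt.one k ≤ om a k := fun k => a.one_le k
    exact NW_mono (fun k => Wa_mono hone k) _
  set D1 := (XN w).toReal + n * (C1 / Real.sqrt (2 * c) + τ1) + C1 / Real.sqrt (2 * c) + 1 with hD1
  have hXr : 0 ≤ (XN w).toReal := ENNReal.toReal_nonneg
  have hD0 : 0 < D1 := by positivity
  obtain ⟨δ0, hδ0, hmany⟩ := many2 hc hD0 hτ1 hdl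
  -- the number of walls
  set T : Fin 3 → Fin 5 → ℝ := fun c a => ∑' l, pw l ^ 2 * ‖fr (fun x => F c a x * F c a x) l‖
  have hT0 : ∀ c a, 0 ≤ T c a := fun c a =>
    tsum_nonneg fun l => mul_nonneg (pow_pos (pw_pos l) 2).le (norm_nonneg _)
  set TT := ∑ c, ∑ a, T c a
  have hTT : ∀ c a, T c a ≤ TT := fun c a =>
    (Finset.single_le_sum (f := fun a => T c a) (fun a _ => hT0 c a) (Finset.mem_univ a)).trans
      (Finset.single_le_sum (f := fun c => ∑ a, T c a)
        (fun c _ => Finset.sum_nonneg fun a _ => hT0 c a) (Finset.mem_univ c))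
  have hTT0 : 0 ≤ TT := Finset.sum_nonneg fun c _ => Finset.sum_nonneg fun a _ => hT0 c a
  have hQ10 : 0 ≤ Q1 := (wn_nonneg _).trans (hQ1 0 0)
  set U1 : Fin 3 → Fin 5 → ℝ := fun c a => ∑' l, pw l ^ 1 * ‖fr (F c a) l‖
  have hU0 : ∀ c a, 0 ≤ U1 c a := fun c a =>
    tsum_nonneg fun l => mul_nonneg (pow_pos (pw_pos l) 1).le (norm_nonneg _)
  set UU1 := ∑ c, ∑ a, U1 c a
  have hUU : ∀ c a, U1 c a ≤ UU1 := fun c a =>
    (Finset.single_le_sum (f := fun a => U1 c a) (fun a _ => hU0 c a) (Finset.mem_univ a)).trans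
      (Finset.single_le_sum (f := fun c => ∑ a, U1 c a)
        (fun c _ => Finset.sum_nonneg fun a _ => hU0 c a) (Finset.mem_univ c))
  have hUU0 : 0 ≤ UU1 := Finset.sum_nonneg fun c _ => Finset.sum_nonneg fun a _ => hU0 c a
  obtain ⟨M, hM⟩ := exists_nat_gt (max (max 1 (12 * Real.pi * Q * TT * β ^ 2 / δ0))
    (max (TT * Q / τ) (30 * (1 + c) * (UU1 * Q1) / τ)))
  have hM1 : (1 : ℝ) ≤ M := ((le_max_left _ _).trans (le_max_left _ _)).trans hM.le
  have hM1' : 1 ≤ M := by exact_mod_cast hM1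
  have hM0 : (0 : ℝ) < M := by linarith
  have hM2 : 12 * Real.pi * Q * TT * β ^ 2 / M ≤ δ0 := by
    have h1 : 12 * Real.pi * Q * TT * β ^ 2 / δ0 ≤ M := ((le_max_right _ _).trans (le_max_left _ _)).trans hM.le
    rw [div_le_iff₀ hδ0] at h1
    rw [div_le_iff₀ hM0]; linarith
  have hM3 : TT * Q / M ≤ τ := by
    have h1 : TT * Q / τ ≤ M := ((le_max_left _ _).trans (le_max_right _ _)).trans hM.le
    rw [div_le_iff₀ hτ] at h1
    rw [div_le_iff₀ hM0]; linarith
  have hM4 : 15 * ((1 + c) * (UU1 * Q1 / M)) ≤ τ / 2 := by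
    have h1 : 30 * (1 + c) * (UU1 * Q1) / τ ≤ M := ((le_max_right _ _).trans (le_max_right _ _)).trans hM.le
    rw [div_le_iff₀ hτ] at h1
    have e1 : 15 * ((1 + c) * (UU1 * Q1 / M)) = (15 * (1 + c) * (UU1 * Q1)) / M := by ring
    rw [e1, div_le_iff₀ hM0]; linarith
  -- the profiles
  set fS : ℕ → E3 → ℝ := fun i x => F (cI i) (aI i) x * gM g (cI i) M x with hfS
  have hamp : ∀ i, SP (fS i) := fun i => (hF _ _).mul (gM_SP hg.smooth hg.per _ _)
  have hf0 : ∀ i x, 0 ≤ fS i x := fun i x => mul_nonneg (hF0 _ _ _) (hg.nonneg _)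
  have hfper : ∀ q s, fS (15 * q + s) = fS s := by
    intro q s
    have e1 : cI (15 * q + s) = cI s := by
      unfold cI
      rw [Fin.mk.injEq]
      omega
    have e2 : aI (15 * q + s) = aI s := by
      unfold aI
      rw [Fin.mk.injEq]
      omega
    simp only [hfS, e1, e2]
  have hE0 : 0 ≤ E := (integral_nonneg fun x => mul_self_nonneg _).trans (hE 0 0)
  have hfE : ∀ i, ∫ x in cube, fS i x * fS i x ≤ E + τ := by
    intro i
    refine (int_wall2 (hF (cI i) (aI i)) (hE _ _) hg (cI i) hM1' (hQ _ _)).trans ?_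
    have h1 : ∑' l, pw l ^ 1 * ‖fr (fun x => F (cI i) (aI i) x * F (cI i) (aI i) x) l‖ ≤ TT := by
      refine le_trans ?_ (hTT (cI i) (aI i))
      have hFF := (hF (cI i) (aI i)).mul (hF (cI i) (aI i))
      refine Summable.tsum_le_tsum (fun l => ?_) (rr_fr hFF 1) (rr_fr hFF 2)
      exact mul_le_mul_of_nonneg_right (pow_le_pow_right₀ (one_le_pw l) (by norm_num)) (norm_nonneg _)
    have h2 : (∑' l, pw l ^ 1 * ‖fr (fun x => F (cI i) (aI i) x * F (cI i) (aI i) x) l‖) * Q / M ≤ TT * Q / M := by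
      gcongr
    linarith
  have hfφ : ∀ i, ∫ x in cube, fS i x ≤ Real.sqrt (2 * η) * (1 + E) + UU1 * Q1 / M := by
    intro i
    refine (int_wall (hF (cI i) (aI i)) (hF0 _ _) (hE _ _) hη0 hη1 hg (cI i) hM1' (hQ1 _ _)).trans ?_
    have h1 := hUU (cI i) (aI i)
    have h2 : (∑' l, pw l ^ 1 * ‖fr (F (cI i) (aI i)) l‖) * Q1 / M ≤ UU1 * Q1 / M := by
      gcongr
    linarith
  obtain ⟨S3, hS30, hS3⟩ : ∃ S3 : ℝ, 0 ≤ S3 ∧ ∀ i, ∑' l, pw l ^ 3 * ‖fr (fS i) l‖ ≤ S3 := by
    have h0 : ∀ i, 0 ≤ ∑' l, pw l ^ 3 * ‖fr (fS i) l‖ := fun i =>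
      tsum_nonneg fun l => mul_nonneg (pow_pos (pw_pos l) 3).le (norm_nonneg _)
    refine ⟨∑ s ∈ Finset.range 15, ∑' l, pw l ^ 3 * ‖fr (fS s) l‖, Finset.sum_nonneg fun s _ => h0 s, fun i => ?_⟩
    have e1 : fS i = fS (i % 15) := by
      have := hfper (i / 15) (i % 15)
      rwa [Nat.div_add_mod] at this
    rw [e1]
    exact Finset.single_le_sum (f := fun s => ∑' l, pw l ^ 3 * ‖fr (fS s) l‖) (fun s _ => h0 s)
      (Finset.mem_range.2 (Nat.mod_lt _ (by norm_num)))
  have hprof := fun c' a' => profile hc hβ.le hg hA hQ (hF c' a') (eP_le c' a') (eP_zero c' a') hM1'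
  choose C2 hP2 hb4 hb5 using hprof
  have hC20 : ∀ c a, 0 ≤ C2 c a := fun c a => (hP2 c a).C2n
  set CC := ∑ c, ∑ a, C2 c a
  have hCC : ∀ c a, C2 c a ≤ CC := fun c a =>
    (Finset.single_le_sum (f := fun a => C2 c a) (fun a _ => hC20 c a) (Finset.mem_univ a)).trans
      (Finset.single_le_sum (f := fun c => ∑ a, C2 c a)
        (fun c _ => Finset.sum_nonneg fun a _ => hC20 c a) (Finset.mem_univ c))
  have hCC0 : 0 ≤ CC := Finset.sum_nonneg fun c _ => Finset.sum_nonneg fun a _ => hC20 c a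
  have hC1le : ∀ c' a', 2 * β * (wn (F c' a') * A) ≤ C1 := by
    intro c' a'
    calc 2 * β * (wn (F c' a') * A) ≤ 2 * β * (2 * κ * A) := by
          have := hFw c' a'
          gcongr
      _ = C1 := by rw [hC1]; ring
  -- all the waves
  set W : ℕ → ℕ → K → C3 := fun i => Wv β (fr (fS i)) (eP (cI i) (aI i)) (cI i)
  set h : ℕ → K → C3 := fun i => hv c β (fr fun x => F (cI i) (aI i) x * F (cI i) (aI i) x) (eP (cI i) (aI i))
  have hper : ∀ q s, h (15 * q + s) = h s := by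
    intro q s
    have e1 : cI (15 * q + s) = cI s := by
      unfold cI
      rw [Fin.mk.injEq]
      omega
    have e2 : aI (15 * q + s) = aI s := by
      unfold aI
      rw [Fin.mk.injEq]
      omega
    simp only [h, e1, e2]
  set HH : ℝ := ∑ s ∈ Finset.range 15, ∑' k, ‖h s k‖ with hHH
  have hHH0 : 0 ≤ HH := Finset.sum_nonneg fun s _ => tsum_nonneg fun k => norm_nonneg _
  have hHle : ∀ i, ∑' k, ‖h i k‖ ≤ HH := by
    intro i
    have e1 : h i = h (i % 15) := by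
      have := hper (i / 15) (i % 15)
      rwa [Nat.div_add_mod] at this
    rw [e1]
    exact Finset.single_le_sum (f := fun s => ∑' k, ‖h s k‖) (fun s _ => tsum_nonneg fun k => norm_nonneg _)
      (Finset.mem_range.2 (Nat.mod_lt _ (by norm_num)))
  have sc4 : 0 < Real.sqrt (4 * c) := Real.sqrt_pos.2 (by positivity)
  have hscn := Real.sqrt_nonneg c
  set ZZ1 := (28 + 32 * Real.sqrt c + 60 * c * J + 480 * J * β) * S3 with hZZ1
  have hZZ0 : 0 ≤ ZZ1 := by positivity
  obtain ⟨N0, hN0'⟩ := exists_nat_gt (max (max (CC / τ1) (n * HH / (Real.sqrt (4 * c) * τ))) (ZZ1 / τ))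
  have hN0 : CC / τ1 < N0 := ((le_max_left _ _).trans (le_max_left _ _)).trans_lt hN0'
  have hN0h : n * HH / (Real.sqrt (4 * c) * τ) < N0 := ((le_max_right _ _).trans (le_max_left _ _)).trans_lt hN0'
  have hN0z : ZZ1 / τ < N0 := (le_max_right _ _).trans_lt hN0'
  have hN01 : (0 : ℝ) < ((N0 + 1 : ℕ) : ℝ) := by positivity
  have hZN : ZZ1 / ((N0 + 1 : ℕ) : ℝ) ≤ τ := by
    rw [div_lt_iff₀ hτ] at hN0z
    rw [div_le_iff₀ hN01]
    push_cast
    nlinarith
  have hPrf : ∀ i < n, Prf c C1 CC δ0 (h i) (W i) := by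
    intro i _
    refine (hP2 (cI i) (aI i)).mono (hC1le _ _) (hCC _ _) ?_
    refine le_trans ?_ hM2
    have : T (cI i) (aI i) ≤ TT := hTT _ _
    calc 12 * Real.pi / M * Q * T (cI i) (aI i) * β ^ 2 ≤ 12 * Real.pi / M * Q * TT * β ^ 2 := by gcongr
      _ = _ := by ring
  obtain ⟨N, n1, n2, a', ha', u, hu, huL, huE, huY⟩ := hmany a _ w ha hw C1 CC δ0 n (N0 + 1) h W hPrf hC10
    (by rw [hD1]; have : 0 ≤ n * (C1 / Real.sqrt (2 * c) + τ1) := by positivity
        linarith) le_rfl (by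
      rw [← ENNReal.ofReal_toReal hXfin, ← ENNReal.ofReal_add hXr (by positivity)]
      apply ENNReal.ofReal_le_ofReal
      rw [hD1]
      have : 0 ≤ C1 / Real.sqrt (2 * c) := by positivity
      linarith)
  rw [hτn] at huL huE huY
  have hNpos : ∀ i < n, 1 ≤ N i := fun i hi => by have := n1 i hi; omega
  have hNτ1 : ∀ i < n, CC / N i ≤ τ1 := by
    intro i hi
    have h1 : (N0 : ℝ) ≤ N i := by exact_mod_cast (by have := n1 i hi; omega : N0 ≤ N i)
    have h2 : (0 : ℝ) < N i := by exact_mod_cast hNpos i hi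
    rw [div_le_iff₀ h2]
    rw [div_lt_iff₀ hτ1] at hN0
    nlinarith
  have hττ : τ1 ≤ τ := by
    have h1 : (1 : ℝ) ≤ n := by exact_mod_cast hn0
    nlinarith
  have hNτ : ∀ i < n, CC / N i ≤ τ := fun i hi => (hNτ1 i hi).trans hττ
  have hB1W : ∀ i, cF (fun j => fr (wave β (fS i) (eP (cI i) (aI i)) (cI i) (N i) j)) = W i (N i) := fun i =>
    cF_wave (hamp i) (eP_zero _ _) _
  have hWSD : ∀ i, SD (W i (N i)) := fun i => by
    rw [← hB1W]
    exact cF_SD fun j => wave_SP (hamp i) _ _ _ j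
  have hWsn : ∀ i < n, SN (W i (N i)) := fun i hi => ((hPrf i hi).Wr (N i)).summ
  have hW4 : ∀ i < n, ∑' k, ‖W i (N i) k‖ / nk k ≤ C1 + τ := by
    intro i hi
    refine (hb4 (cI i) (aI i) (N i) (hNpos i hi)).trans (add_le_add (hC1le _ _) ?_)
    refine le_trans ?_ (hNτ i hi)
    exact div_le_div_of_nonneg_right (hCC _ _) (Nat.cast_nonneg _)
  have hW6 : ∀ i < n, ∑' k, (if nk k < (N i : ℝ) / 2 ∨ 2 * (N i : ℝ) ≤ nk k then
      ‖W i (N i) k‖ / nk k else 0) ≤ τ1 := by
    intro i hi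
    refine (hb5 (cI i) (aI i) (N i) (hNpos i hi)).trans ?_
    refine le_trans ?_ (hNτ1 i hi)
    exact div_le_div_of_nonneg_right (hCC _ _) (Nat.cast_nonneg _)
  have hW5 : ∀ i < n, ∑' k, (if nk k < (N i : ℝ) / 2 ∨ 2 * (N i : ℝ) ≤ nk k then
      ‖W i (N i) k‖ / nk k else 0) ≤ τ := fun i hi => (hW6 i hi).trans hττ
  have hN0i : ∀ i < n, N0 + 1 ≤ N i := fun i hi => n1 i hi
  set y := 2 * β * Real.sqrt (E + τ) + 4 * β * S3 / ((N0 + 1 : ℕ) : ℝ) with hy
  have hy0 : 0 ≤ y := by positivity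
  have hWE : ∀ i < n, E2 (W i (N i)) ≤ ENNReal.ofReal (y * N i) := fun i hi =>
    E2_Wv hβ.le (hamp i) (eP_le _ _) (cI i) (hfE i) (hS3 i) (by omega) (hN0i i hi)
  have hsumJ : ∀ J' : ℕ, ∑ i ∈ Finset.range (15 * J'), h i = (-((J' : ℝ) / J)) • Gf := by
    intro J'
    have e1 := sum_index (fun c' a' => hv c β (fr fun x => F c' a' x * F c' a' x) (eP c' a')) J'
    rw [show (∑ i ∈ Finset.range (15 * J'), h i) = _ from e1]
    funext k
    have e2 : (J' • ∑ c', ∑ a', hv c β (fr fun x => F c' a' x * F c' a' x) (eP c' a')) k =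
        (J' : ℝ) • (-(β ^ 2 / c)) • ∑ c', ∑ a', fr (fun x => F c' a' x * F c' a' x) k •
          bt k (ec (eP c' a')) (ec (eP c' a')) := by
      rw [Pi.smul_apply, Finset.sum_apply, ← Nat.cast_smul_eq_nsmul ℝ]
      congr 1
      rw [Finset.smul_sum]
      refine Finset.sum_congr rfl fun c' _ => ?_
      rw [Finset.sum_apply, Finset.smul_sum]
      rfl
    rw [e2, hFs k, smul_smul]
    have e3 : (J' : ℝ) * -(β ^ 2 / c) = -((J' : ℝ) / J) := by
      rw [hβ2]; field_simp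
    rw [e3]
    rfl
  have hsumh : ∑ i ∈ Finset.range n, h i = -Gf := by
    rw [hn, hsumJ J, div_self hJ0.ne', neg_smul, one_smul]
  have hdata : (V0 + Gf) + ∑ i ∈ Finset.range n, (h i + W i (N i)) = V0 + ∑ i ∈ Finset.range n, W i (N i) := by
    rw [Finset.sum_add_distrib, hsumh]
    abel
  rw [hdata] at hu
  have hhLL : ∀ s, leiLin (h s) ≤ ENNReal.ofReal (72 * Real.pi * K1 / J) := by
    intro s
    refine (hv_LL hc ((hF _ _).mul (hF _ _)) (eP_le _ _) (eP_zero _ _)).trans (ENNReal.ofReal_le_ofReal ?_)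
    have e1 : β ^ 2 / c = 1 / J := by rw [hβ2]; field_simp
    rw [e1]
    have e2 : wn (fun x => F (cI s) (aI s) x * F (cI s) (aI s) x) ≤ 4 * K1 := by
      refine (wn_mul (hF _ _) (hF _ _)).trans ?_
      have h1 := hFw (cI s) (aI s)
      have h2 := wn_nonneg (F (cI s) (aI s))
      calc _ ≤ (2 * κ) * (2 * κ) := mul_le_mul h1 h1 h2 (by positivity)
        _ = 4 * K1 := by rw [← hκ2]; ring
    calc 1 / (J : ℝ) * (18 * Real.pi) * wn (fun x => F (cI s) (aI s) x * F (cI s) (aI s) x)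
        ≤ 1 / (J : ℝ) * (18 * Real.pi) * (4 * K1) := by gcongr
      _ = _ := by ring
  refine ⟨fun i => W i (N i), fun i => hWSD i, a', ha', u, hu, huL, fun t ht => ?_, fun q hq => ?_, ?_, ?_,
    fun r hr b hb => ?_, fun b hb => ?_, fun NN hN Bd hBd t ht => ?_⟩
  · -- the norms on the windows
    have eu : u - w = Tr c n N W h + (u - (w + Tr c n N W h)) := by abel
    rw [eu]
    have cT := Tr_cf c n N W h
    have cE : CF (u - (w + Tr c n N W h)) := fun k => (hu.cf k).sub ((hw.cf k).add (cT k))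
    have x1 : LW t (Tr c n N W h) ≤ ∑ i ∈ Finset.range n, LW t (Ex (c * (N i : ℝ) ^ 2) (W i (N i))) +
        ∑ i ∈ Finset.range n, LW t (Ex (2 * (c * (N i : ℝ) ^ 2)) (h i)) := by
      rw [← Finset.sum_add_distrib]
      refine (LW_sum t n (fun i => Ex (c * (N i : ℝ) ^ 2) (W i (N i)) + Ex (2 * (c * (N i : ℝ) ^ 2)) (h i))
        fun i k => (Ex_cf _ _ k).add (Ex_cf _ _ k)).2.trans ?_
      exact Finset.sum_le_sum fun i _ => LW_add t (Ex_cf _ _) (Ex_cf _ _)
    have x2 : ∑ i ∈ Finset.range n, LW t (Ex (c * (N i : ℝ) ^ 2) (W i (N i))) ≤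
        ENNReal.ofReal ((C1 + τ) * Real.sqrt (2 / c) * 4) := by
      refine LW_waves hc ht (by positivity) hNpos n2 (W := fun i => W i (N i)) hWsn fun i hi => ?_
      have h1 := (hPrf i hi).b1 (N i) (hNpos i hi)
      have h2 := hNτ i hi
      have h3 : (0 : ℝ) < N i := by exact_mod_cast hNpos i hi
      rw [div_le_iff₀ h3] at h2
      linarith
    have x3 : ∑ i ∈ Finset.range n, LW t (Ex (2 * (c * (N i : ℝ) ^ 2)) (h i)) ≤ ENNReal.ofReal τ := by
      have h1 : ∀ i ∈ Finset.range n, LW t (Ex (2 * (c * (N i : ℝ) ^ 2)) (h i)) ≤ ENNReal.ofReal τ1 := by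
        intro i hi
        have hi' : i < n := Finset.mem_range.1 hi
        have h3 : (0 : ℝ) < N i := by exact_mod_cast hNpos i hi'
        refine (LW_le_XN _ _).trans ((XN_Ex (by positivity) (hPrf i hi').hr.summ).trans
          (ENNReal.ofReal_le_ofReal ?_))
        rw [← mul_assoc, ← mul_assoc, show (2 : ℝ) * 2 * c = 4 * c by ring,
          sqrt_inv_sq (by positivity) (hNpos i hi')]
        have h4 : (N0 : ℝ) ≤ N i := by exact_mod_cast (by have := n1 i hi'; omega : N0 ≤ N i)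
        have h5 : n * HH / (Real.sqrt (4 * c) * τ) < N i := hN0h.trans_le h4
        rw [div_lt_iff₀ (by positivity)] at h5
        have h6 := hHle i
        simp only [τ1]
        rw [mul_one_div, div_le_div_iff₀ (by positivity) hn1]
        calc (∑' k, ‖h i k‖) * n ≤ HH * n := mul_le_mul_of_nonneg_right h6 hn1.le
          _ ≤ _ := by linarith
      refine (Finset.sum_le_sum h1).trans (le_of_eq ?_)
      rw [Finset.sum_const, Finset.card_range, nsmul_eq_mul, ← ENNReal.ofReal_natCast,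
        ← ENNReal.ofReal_mul hn1.le, hτn]
    refine (LW_add t cT cE).trans ((add_le_add (x1.trans (add_le_add x2 x3)) ((LW_le_XN _ _).trans huE)).trans
      (le_of_eq ?_))
    rw [← ENNReal.ofReal_add (by positivity) hτ.le, ← ENNReal.ofReal_add (by positivity) hτ.le]
    congr 1
    ring
  · -- the `ℓ^q` norm of the windows
    have hq1 : 1 ≤ q := by linarith
    have eu : u - w = ∑ i ∈ Finset.range n, Ex (c * (N i : ℝ) ^ 2) (W i (N i)) +
        (∑ i ∈ Finset.range n, Ex (2 * (c * (N i : ℝ) ^ 2)) (h i) + (u - (w + Tr c n N W h))) := by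
      have e1 : Tr c n N W h = ∑ i ∈ Finset.range n, Ex (c * (N i : ℝ) ^ 2) (W i (N i)) +
          ∑ i ∈ Finset.range n, Ex (2 * (c * (N i : ℝ) ^ 2)) (h i) := by
        unfold Tr
        rw [Finset.sum_add_distrib]
      rw [e1]
      abel
    have cE : CF (u - (w + Tr c n N W h)) := fun k => (hu.cf k).sub ((hw.cf k).add (Tr_cf c n N W h k))
    have cX : CF (∑ i ∈ Finset.range n, Ex (c * (N i : ℝ) ^ 2) (W i (N i))) :=
      (LW_sum 0 n (fun i => Ex (c * (N i : ℝ) ^ 2) (W i (N i))) fun i => Ex_cf _ _).1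
    have cH : CF (∑ i ∈ Finset.range n, Ex (2 * (c * (N i : ℝ) ^ 2)) (h i)) :=
      (LW_sum 0 n (fun i => Ex (2 * (c * (N i : ℝ) ^ 2)) (h i)) fun i => Ex_cf _ _).1
    have x2 : DN q (∑ i ∈ Finset.range n, Ex (c * (N i : ℝ) ^ 2) (W i (N i))) ≤
        ENNReal.ofReal (Real.sqrt (4 / c)) * WvB c K1 A τ J q := by
      have h0 : DN q (∑ i ∈ Finset.range n, Ex (c * (N i : ℝ) ^ 2) (W i (N i))) ≤
          (n : ℝ≥0∞) ^ (1 / q) * ENNReal.ofReal (4 * ((C1 + τ) * Real.sqrt (4 / c))) := by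
        refine DN_waves hc (by positivity) hq1 hNpos n2 (W := fun i => W i (N i)) hWsn fun i hi => ?_
        have h1 := (hPrf i hi).b1 (N i) (hNpos i hi)
        have h2 := hNτ i hi
        have h3 : (0 : ℝ) < N i := by exact_mod_cast hNpos i hi
        rw [div_le_iff₀ h3] at h2
        linarith
      refine h0.trans ?_
      have p1 : 0 ≤ C1 + τ := by positivity
      have e1 : ENNReal.ofReal (4 * ((C1 + τ) * Real.sqrt (4 / c))) =
          4 * (ENNReal.ofReal (C1 + τ) * ENNReal.ofReal (Real.sqrt (4 / c))) := by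
        rw [ENNReal.ofReal_mul (by norm_num), ENNReal.ofReal_mul p1]
        norm_num
      have e2 : (n : ℝ≥0∞) ^ (1 / q) * ENNReal.ofReal (4 * ((C1 + τ) * Real.sqrt (4 / c))) =
          ENNReal.ofReal (Real.sqrt (4 / c)) * (2 * ((n : ℝ≥0∞) ^ (1 / q) * (2 * ENNReal.ofReal (C1 + τ)))) := by
        rw [e1]
        ring
      rw [e2]
      unfold WvB
      rw [← hn]
      exact mul_le_mul' le_rfl (mul_le_mul' le_rfl le_self_add)
    have x3 : XN (∑ i ∈ Finset.range n, Ex (2 * (c * (N i : ℝ) ^ 2)) (h i)) ≤ ENNReal.ofReal τ := by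
      have hsumX : ∀ m, XN (∑ i ∈ Finset.range m, Ex (2 * (c * (N i : ℝ) ^ 2)) (h i)) ≤
          ∑ i ∈ Finset.range m, XN (Ex (2 * (c * (N i : ℝ) ^ 2)) (h i)) := by
        intro m
        induction m with
        | zero =>
          rw [Finset.sum_range_zero, Finset.sum_range_zero]
          have h0 : ∀ s, NW (Wa Wt.one) (at' (0 : Fam) s) = 0 := fun s => NW_zero _
          simp [XN, LN, h0]
        | succ m ih =>
          rw [Finset.sum_range_succ, Finset.sum_range_succ]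
          exact (XN_add (LW_sum 0 m (fun i => Ex (2 * (c * (N i : ℝ) ^ 2)) (h i)) fun i => Ex_cf _ _).1
            (Ex_cf _ _)).trans (add_le_add ih le_rfl)
      refine (hsumX n).trans ?_
      have h1 : ∀ i ∈ Finset.range n, XN (Ex (2 * (c * (N i : ℝ) ^ 2)) (h i)) ≤ ENNReal.ofReal τ1 := by
        intro i hi
        have hi' : i < n := Finset.mem_range.1 hi
        have h3 : (0 : ℝ) < N i := by exact_mod_cast hNpos i hi'
        refine (XN_Ex (by positivity) (hPrf i hi').hr.summ).trans (ENNReal.ofReal_le_ofReal ?_)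
        rw [← mul_assoc, ← mul_assoc, show (2 : ℝ) * 2 * c = 4 * c by ring,
          sqrt_inv_sq (by positivity) (hNpos i hi')]
        have h4 : (N0 : ℝ) ≤ N i := by exact_mod_cast (by have := n1 i hi'; omega : N0 ≤ N i)
        have h5 : n * HH / (Real.sqrt (4 * c) * τ) < N i := hN0h.trans_le h4
        rw [div_lt_iff₀ (by positivity)] at h5
        have h6 := hHle i
        simp only [τ1]
        rw [mul_one_div, div_le_div_iff₀ (by positivity) hn1]
        calc (∑' k, ‖h i k‖) * n ≤ HH * n := mul_le_mul_of_nonneg_right h6 hn1.le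
          _ ≤ _ := by linarith
      refine (Finset.sum_le_sum h1).trans (le_of_eq ?_)
      rw [Finset.sum_const, Finset.card_range, nsmul_eq_mul, ← ENNReal.ofReal_natCast,
        ← ENNReal.ofReal_mul hn1.le, hτn]
    rw [eu]
    refine (DN_add hq1 cX fun k => (cH k).add (cE k)).trans (add_le_add x2 ?_)
    refine (DN_le_XN hq _ fun k => (cH k).add (cE k)).trans ((XN_add cH cE).trans
      ((add_le_add x3 huE).trans (le_of_eq ?_)))
    rw [two_mul]
  · -- the norm in `L²`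
    have eu : u - w = ∑ i ∈ Finset.range n, Ex (c * (N i : ℝ) ^ 2) (W i (N i)) +
        (∑ i ∈ Finset.range n, Ex (2 * (c * (N i : ℝ) ^ 2)) (h i) + (u - (w + Tr c n N W h))) := by
      have e1 : Tr c n N W h = ∑ i ∈ Finset.range n, Ex (c * (N i : ℝ) ^ 2) (W i (N i)) +
          ∑ i ∈ Finset.range n, Ex (2 * (c * (N i : ℝ) ^ 2)) (h i) := by
        unfold Tr
        rw [Finset.sum_add_distrib]
      rw [e1]
      abel
    have cE : CF (u - (w + Tr c n N W h)) := fun k => (hu.cf k).sub ((hw.cf k).add (Tr_cf c n N W h k))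
    have cX : CF (∑ i ∈ Finset.range n, Ex (c * (N i : ℝ) ^ 2) (W i (N i))) :=
      (LW_sum 0 n (fun i => Ex (c * (N i : ℝ) ^ 2) (W i (N i))) fun i => Ex_cf _ _).1
    have cH : CF (∑ i ∈ Finset.range n, Ex (2 * (c * (N i : ℝ) ^ 2)) (h i)) :=
      (LW_sum 0 n (fun i => Ex (2 * (c * (N i : ℝ) ^ 2)) (h i)) fun i => Ex_cf _ _).1
    have x2 : L2N (∑ i ∈ Finset.range n, Ex (c * (N i : ℝ) ^ 2) (W i (N i))) ≤
        ENNReal.ofReal (14 * Real.sqrt (E + τ) + τ) := by
      refine (L2N_waves hc hNpos n2 hy0 hWE).trans (ENNReal.ofReal_le_ofReal ?_)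
      have e2 : β * Real.sqrt (3 * n / c) ≤ 7 := by
        rw [hβdef, ← Real.sqrt_mul (by positivity)]
        have e3 : c / J * (3 * n / c) = 45 := by
          rw [hn]; push_cast; field_simp; norm_num
        rw [e3, Real.sqrt_le_left (by norm_num)]
        norm_num
      have e4 : 28 * S3 / ((N0 + 1 : ℕ) : ℝ) ≤ τ := by
        refine le_trans ?_ hZN
        apply div_le_div_of_nonneg_right _ hN01.le
        rw [hZZ1]
        apply mul_le_mul_of_nonneg_right _ hS30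
        have : 0 ≤ 32 * Real.sqrt c + 60 * c * J + 480 * J * β := by positivity
        linarith
      have e5 : 0 ≤ 2 * Real.sqrt (E + τ) + 4 * S3 / ((N0 + 1 : ℕ) : ℝ) := by positivity
      calc y * Real.sqrt (3 * n / c) = (2 * Real.sqrt (E + τ) + 4 * S3 / ((N0 + 1 : ℕ) : ℝ)) *
            (β * Real.sqrt (3 * n / c)) := by rw [hy]; ring
        _ ≤ (2 * Real.sqrt (E + τ) + 4 * S3 / ((N0 + 1 : ℕ) : ℝ)) * 7 := mul_le_mul_of_nonneg_left e2 e5
        _ = 14 * Real.sqrt (E + τ) + 28 * S3 / ((N0 + 1 : ℕ) : ℝ) := by ring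
        _ ≤ _ := by linarith
    have x3 : L2N (∑ i ∈ Finset.range n, Ex (2 * (c * (N i : ℝ) ^ 2)) (h i)) ≤ ENNReal.ofReal τ := by
      refine (L2N_sum n _ fun i => Ex_cf _ _).trans ?_
      have h1 : ∀ i ∈ Finset.range n, L2N (Ex (2 * (c * (N i : ℝ) ^ 2)) (h i)) ≤ ENNReal.ofReal τ1 := by
        intro i hi
        have hi' : i < n := Finset.mem_range.1 hi
        have h3 : (0 : ℝ) < N i := by exact_mod_cast hNpos i hi'
        refine (L2N_le_XN _).trans ((XN_Ex (by positivity) (hPrf i hi').hr.summ).trans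
          (ENNReal.ofReal_le_ofReal ?_))
        rw [← mul_assoc, ← mul_assoc, show (2 : ℝ) * 2 * c = 4 * c by ring,
          sqrt_inv_sq (by positivity) (hNpos i hi')]
        have h4 : (N0 : ℝ) ≤ N i := by exact_mod_cast (by have := n1 i hi'; omega : N0 ≤ N i)
        have h5 : n * HH / (Real.sqrt (4 * c) * τ) < N i := hN0h.trans_le h4
        rw [div_lt_iff₀ (by positivity)] at h5
        have h6 := hHle i
        simp only [τ1]
        rw [mul_one_div, div_le_div_iff₀ (by positivity) hn1]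
        calc (∑' k, ‖h i k‖) * n ≤ HH * n := mul_le_mul_of_nonneg_right h6 hn1.le
          _ ≤ _ := by linarith
      refine (Finset.sum_le_sum h1).trans (le_of_eq ?_)
      rw [Finset.sum_const, Finset.card_range, nsmul_eq_mul, ← ENNReal.ofReal_natCast,
        ← ENNReal.ofReal_mul hn1.le, hτn]
    rw [eu]
    refine (L2N_add cX fun k => (cH k).add (cE k)).trans ((add_le_add x2 ((L2N_add cH cE).trans
      (add_le_add x3 ((L2N_le_XN _).trans huE)))).trans (le_of_eq ?_))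
    rw [← ENNReal.ofReal_add hτ.le hτ.le, ← ENNReal.ofReal_add (by positivity) (by positivity)]
    congr 1
    ring
  · -- the stress
    refine (sum_str hc hβ.le hβ2 hJ hamp hf0 hfper (N0 := N0 + 1) (by omega) hN0i n2 hfφ hS3
      (fun i _ => hWSD i)).mono ?_
    have e1 : 15 * ((1 + c) * (Real.sqrt (2 * η) * (1 + E) + UU1 * Q1 / M) +
        c * J * (2 * S3 / ((N0 + 1 : ℕ) : ℝ))) + 15 * J * (16 * β * S3 / ((N0 + 1 : ℕ) : ℝ)) =
        15 * (1 + c) * (Real.sqrt (2 * η) * (1 + E)) + 15 * ((1 + c) * (UU1 * Q1 / M)) +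
          (60 * c * J + 480 * J * β) * S3 / ((N0 + 1 : ℕ) : ℝ) / 2 := by
      ring
    rw [e1]
    have e2 : (60 * c * J + 480 * J * β) * S3 / ((N0 + 1 : ℕ) : ℝ) ≤ τ := by
      refine le_trans ?_ hZN
      apply div_le_div_of_nonneg_right _ hN01.le
      rw [hZZ1]
      apply mul_le_mul_of_nonneg_right _ hS30
      linarith
    linarith
  · exact wave_crit' hNpos n2 hWsn hW4 hW5 hb hr
  · -- the norm in `H⁻¹`
    refine (NH_waves hNpos n2 hWsn hy0 hWE hW6 hb).trans ?_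
    rw [← ENNReal.ofReal_natCast, ← ENNReal.ofReal_mul hn1.le, hτn, ← ENNReal.ofReal_add (by positivity) hτ.le]
    apply ENNReal.ofReal_le_ofReal
    have e2 : β * Real.sqrt n ≤ 4 * Real.sqrt c := by
      rw [hβdef, ← Real.sqrt_mul (by positivity)]
      have e3 : c / J * (n : ℝ) = c * 15 := by
        rw [hn]; push_cast; field_simp
      rw [e3, Real.sqrt_mul hc.le, mul_comm]
      apply mul_le_mul_of_nonneg_right _ hscn
      rw [Real.sqrt_le_left (by norm_num)]
      norm_num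
    have e4 : 32 * Real.sqrt c * S3 / ((N0 + 1 : ℕ) : ℝ) ≤ τ := by
      refine le_trans ?_ hZN
      apply div_le_div_of_nonneg_right _ hN01.le
      rw [hZZ1]
      apply mul_le_mul_of_nonneg_right _ hS30
      have : 0 ≤ 60 * c * J + 480 * J * β := by positivity
      linarith
    have e5 : 0 ≤ 4 * Real.sqrt (E + τ) + 8 * S3 / ((N0 + 1 : ℕ) : ℝ) := by positivity
    calc 2 * y * Real.sqrt n + τ = (4 * Real.sqrt (E + τ) + 8 * S3 / ((N0 + 1 : ℕ) : ℝ)) * (β * Real.sqrt n) + τ := by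
          rw [hy]; ring
      _ ≤ (4 * Real.sqrt (E + τ) + 8 * S3 / ((N0 + 1 : ℕ) : ℝ)) * (4 * Real.sqrt c) + τ := by
          have := mul_le_mul_of_nonneg_left e2 e5
          linarith
      _ = 16 * Real.sqrt c * Real.sqrt (E + τ) + 32 * Real.sqrt c * S3 / ((N0 + 1 : ℕ) : ℝ) + τ := by ring
      _ ≤ _ := by linarith
  · -- the factors
    set al : ℕ → ℝ := fun i => if i < n then Real.exp (-(2 * (c * (N i : ℝ) ^ 2) * t)) else 0 with hal
    set be : ℕ → ℝ := fun i => Real.exp (-(c * (N i : ℝ) ^ 2 * t)) with hbe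
    have al0 : ∀ i, 0 ≤ al i := fun i => by
      simp only [al]
      split_ifs
      · exact (Real.exp_pos _).le
      · exact le_rfl
    have al1 : ∀ i, al i ≤ 1 := fun i => by
      simp only [al]
      split_ifs
      · rw [Real.exp_le_one_iff]
        have : 0 ≤ 2 * (c * (N i : ℝ) ^ 2) * t := by positivity
        linarith
      · exact zero_le_one
    have hNmono : ∀ i j, i ≤ j → j < n → (N i : ℝ) ≤ N j := by
      intro i j hij hj
      rcases Nat.lt_or_ge i j with h1 | h1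
      · have := n2 i j h1 hj
        have h2 : N i ≤ N j := by omega
        exact_mod_cast h2
      · have : i = j := le_antisymm hij h1
        rw [this]
    have alm : Antitone al := by
      intro i j hij
      simp only [al]
      by_cases hj : j < n
      · rw [if_pos hj, if_pos (lt_of_le_of_lt hij hj)]
        apply Real.exp_le_exp.2
        have h1 := hNmono i j hij hj
        have h2 : (0 : ℝ) ≤ N i := Nat.cast_nonneg _
        have h3 : (N i : ℝ) ^ 2 ≤ (N j : ℝ) ^ 2 := pow_le_pow_left₀ h2 h1 2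
        have h4 : 2 * (c * (N i : ℝ) ^ 2) * t ≤ 2 * (c * (N j : ℝ) ^ 2) * t := by gcongr
        linarith
      · rw [if_neg hj]
        exact al0 i
    have be1 : ∀ i, |be i| ≤ 1 := fun i => by
      rw [abs_of_pos (Real.exp_pos _), Real.exp_le_one_iff]
      have : 0 ≤ c * (N i : ℝ) ^ 2 * t := by positivity
      linarith
    have eTr : at' (Tr c n N W h) t = ∑ i ∈ Finset.range n, be i • W i (N i) +
        ∑ i ∈ Finset.range n, al i • h i := by
      rw [← Finset.sum_add_distrib]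
      funext k
      have e1 : at' (Tr c n N W h) t k = ∑ i ∈ Finset.range n,
          (Ex (c * (N i : ℝ) ^ 2) (W i (N i)) k t + Ex (2 * (c * (N i : ℝ) ^ 2)) (h i) k t) := by
        simp [at', Tr, Finset.sum_apply]
      rw [e1, Finset.sum_apply]
      refine Finset.sum_congr rfl fun i hi => ?_
      have hi' : i < n := Finset.mem_range.1 hi
      simp only [Ex, Pi.add_apply, Pi.smul_apply, al, be, if_pos hi', max_eq_left ht]
    have edec : at' u t - V0 = (at' w t - (V0 + Gf)) + ((Gf + ∑ i ∈ Finset.range n, al i • h i) +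
        (∑ i ∈ Finset.range n, be i • W i (N i) + at' (u - (w + Tr c n N W h)) t)) := by
      have e1 : at' (u - (w + Tr c n N W h)) t = at' u t - (at' w t + at' (Tr c n N W h) t) := rfl
      rw [e1, eTr]
      abel
    rw [edec]
    have b1 : NN (Gf + ∑ i ∈ Finset.range n, al i • h i) ≤
        NN Gf + 15 * (2 * ENNReal.ofReal (72 * Real.pi * K1 / J)) := by
      refine corr_bound hN alm al0 al1 h hper hJ (x := Gf) ?_ fun s =>
        (hN.le _).trans (mul_le_mul' le_rfl (hhLL s))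
      have := hsumJ 1
      simpa using this
    have b2 : NN (∑ i ∈ Finset.range n, be i • W i (N i)) ≤ Bd := hBd be be1
    have b3 : NN (at' (u - (w + Tr c n N W h)) t) ≤ 2 * ENNReal.ofReal τ :=
      (hN.le _).trans (mul_le_mul' le_rfl ((leiLin_le_YN _).trans (huY t)))
    calc _ ≤ NN (at' w t - (V0 + Gf)) + ((NN Gf +
          15 * (2 * ENNReal.ofReal (72 * Real.pi * K1 / J))) + (Bd + 2 * ENNReal.ofReal τ)) :=
          (hN.add _ _).trans (add_le_add le_rfl ((hN.add _ _).trans (add_le_add b1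
            ((hN.add _ _).trans (add_le_add b2 b3)))))
      _ = _ := by ring

end Pool.Agent.K1H11.NS
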