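import Pool.Agent.K1H11.NS7.L2

/-!
# Stresses with small integrals
-/

open MeasureTheory Set Filter Topology
open scoped ENNReal NNReal ContDiff

namespace Pool.Agent.K1H11.NS

open H459R3.NS (ee fc fr cube S SP Per pd D Rap)
open Pool.Agent.H356R3.NS (shellSum critNorm leiLin)

/-- `P div R` on the Fourier side -/
noncomputable def pdv (R : Fin 3 → Fin 3 → E3 → ℝ) : K → C3 := fun k i => ∑ j, ∑ m, coef k i j m * fr (R j m) k

lemma RR.sum {ι : Type*} {s : Finset ι} {f : ι → K → ℝ} (h : ∀ i ∈ s, RR (f i)) : RR fun k => ∑ i ∈ s, f i k := by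
  intro m
  have h1 : Summable fun k => ∑ i ∈ s, NS.pw k ^ m * f i k := summable_sum fun i hi => h i hi m
  exact h1.congr fun k => (Finset.mul_sum _ _ _).symm

lemma coef_div (k : K) (j m : Fin 3) : ∑ i, (k i : ℂ) * coef k i j m = 0 := by
  by_cases hk : k = 0
  · subst hk; simp
  have hs : ((sq k : ℝ) : ℂ) ≠ 0 := by exact_mod_cast (sq_pos hk).ne'
  have hsq : ∑ i, (k i : ℂ) * (k i : ℂ) = ((sq k : ℝ) : ℂ) := by
    unfold sq
    push_cast
    exact Finset.sum_congr rfl fun i _ => by ring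
  have e1 : ∀ i, (k i : ℂ) * coef k i j m = -(2 * Real.pi * Complex.I) * (k j : ℂ) *
      ((if i = m then (k i : ℂ) else 0) - ((k i : ℂ) * (k i : ℂ)) * ((k m : ℂ) / ((sq k : ℝ) : ℂ))) := by
    intro i
    unfold coef
    by_cases hi : m = i
    · rw [if_pos hi, if_pos hi.symm]; ring
    · rw [if_neg hi, if_neg fun h => hi h.symm]; ring
  simp_rw [e1]
  rw [← Finset.mul_sum, Finset.sum_sub_distrib, ← Finset.sum_mul, hsq]
  simp only [Finset.sum_ite_eq', Finset.mem_univ, if_true]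
  field_simp
  ring

lemma pdv_SD {R : Fin 3 → Fin 3 → E3 → ℝ} (hR : ∀ i j, SP (R i j)) : SD (pdv R) where
  sym := by
    intro k i
    unfold pdv
    rw [star_sum]
    refine Finset.sum_congr rfl fun j _ => ?_
    rw [star_sum]
    refine Finset.sum_congr rfl fun m _ => ?_
    rw [coef_neg, fr_neg, star_mul']
  z := by
    funext i
    simp [pdv, coef_zero]
  rr := by
    have h1 : RR fun k => ∑ j, ∑ m, 4 * Real.pi * (pw k ^ 1 * ‖fr (R j m) k‖) :=
      RR.sum fun j _ => RR.sum fun m _ => ((rr_fr (hR j m)).pw 1).mul (4 * Real.pi)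
    refine h1.mono (fun _ => norm_nonneg _) fun k => ?_
    have hpi := Real.pi_pos
    have hpk := pw_pos k
    rw [pi_norm_le_iff_of_nonneg (Finset.sum_nonneg fun _ _ => Finset.sum_nonneg fun _ _ => by positivity)]
    intro i
    refine (norm_sum_le _ _).trans (Finset.sum_le_sum fun j _ => (norm_sum_le _ _).trans
      (Finset.sum_le_sum fun m _ => ?_))
    rw [norm_mul]
    calc ‖coef k i j m‖ * ‖fr (R j m) k‖ ≤ (4 * Real.pi * pw k) * ‖fr (R j m) k‖ := by
          apply mul_le_mul_of_nonneg_right _ (norm_nonneg _)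
          refine (norm_coef_le k i j m).trans ?_
          have := nk_le_pw k
          gcongr
      _ = _ := by ring
  dt := by
    intro k
    unfold NS.dt pdv
    have e1 : ∀ i, (k i : ℂ) * ∑ j, ∑ m, coef k i j m * fr (R j m) k =
        ∑ j, ∑ m, ((k i : ℂ) * coef k i j m) * fr (R j m) k := by
      intro i
      rw [Finset.mul_sum]
      refine Finset.sum_congr rfl fun j _ => ?_
      rw [Finset.mul_sum]
      exact Finset.sum_congr rfl fun m _ => by ring
    simp_rw [e1]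
    rw [Finset.sum_comm]
    refine Finset.sum_eq_zero fun j _ => ?_
    rw [Finset.sum_comm]
    refine Finset.sum_eq_zero fun m _ => ?_
    rw [← Finset.sum_mul, coef_div, zero_mul]

lemma pdv_add {R R' : Fin 3 → Fin 3 → E3 → ℝ} (hR : ∀ i j, SP (R i j)) (hR' : ∀ i j, SP (R' i j)) :
    pdv (fun i j x => R i j x + R' i j x) = pdv R + pdv R' := by
  funext k i
  show ∑ j, ∑ m, coef k i j m * fr (fun x => R j m x + R' j m x) k =
    (∑ j, ∑ m, coef k i j m * fr (R j m) k) + ∑ j, ∑ m, coef k i j m * fr (R' j m) k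
  rw [← Finset.sum_add_distrib]
  refine Finset.sum_congr rfl fun j _ => ?_
  rw [← Finset.sum_add_distrib]
  refine Finset.sum_congr rfl fun m _ => ?_
  rw [fr_add (hR j m) (hR' j m)]
  ring

/-- `x` is the divergence of a symmetric stress with integrals at most `θ` -/
def Str (x : K → C3) (θ : ℝ) : Prop := ∃ R : Fin 3 → Fin 3 → E3 → ℝ, (∀ i j, SP (R i j)) ∧
  (∀ i j, R i j = R j i) ∧ pdv R = x ∧ ∀ i j, ∫ y in cube, |R i j y| ≤ θ

lemma Str.mono {x : K → C3} {θ θ' : ℝ} (h : Str x θ) (hle : θ ≤ θ') : Str x θ' := by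
  obtain ⟨R, h1, h2, h3, h4⟩ := h
  exact ⟨R, h1, h2, h3, fun i j => (h4 i j).trans hle⟩

lemma int_abs {f : E3 → ℝ} (hf : SP f) : IntegrableOn (fun y => |f y|) cube :=
  H459R3.NS.integrableOn_cube (hf.smooth.continuous.abs)

lemma Str.add {x x' : K → C3} {θ θ' : ℝ} (h : Str x θ) (h' : Str x' θ') : Str (x + x') (θ + θ') := by
  obtain ⟨R, h1, h2, h3, h4⟩ := h
  obtain ⟨R', h1', h2', h3', h4'⟩ := h'
  refine ⟨fun i j y => R i j y + R' i j y, fun i j => (h1 i j).add (h1' i j), fun i j => ?_, ?_, fun i j => ?_⟩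
  · funext y
    show R i j y + R' i j y = R j i y + R' j i y
    rw [h2 i j, h2' i j]
  · rw [pdv_add h1 h1', h3, h3']
  · calc ∫ y in cube, |R i j y + R' i j y| ≤ ∫ y in cube, (|R i j y| + |R' i j y|) := by
          refine integral_mono (int_abs ((h1 i j).add (h1' i j))) ((int_abs (h1 i j)).add (int_abs (h1' i j))) ?_
          intro y
          exact abs_add_le _ _
      _ = (∫ y in cube, |R i j y|) + ∫ y in cube, |R' i j y| := integral_add (int_abs (h1 i j)) (int_abs (h1' i j))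
      _ ≤ _ := add_le_add (h4 i j) (h4' i j)

lemma cube_real : (volume.restrict cube).real univ = 1 := by
  rw [Measure.real, Measure.restrict_apply_univ, H459R3.NS.volume_cube, ENNReal.toReal_one]

lemma l1_le_l2 {f : E3 → ℝ} (hf : SP f) : (∫ y in cube, |f y|) ^ 2 ≤ ∫ y in cube, f y * f y := by
  set I := ∫ y in cube, |f y| with hI
  have i2 : IntegrableOn (fun y => f y * f y) cube := H459R3.NS.integrableOn_cube (hf.mul hf).smooth.continuous
  have ic : IntegrableOn (fun _ : E3 => I ^ 2) cube := H459R3.NS.integrableOn_cube continuous_const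
  have h0 : 0 ≤ ∫ y in cube, (|f y| - I) ^ 2 := integral_nonneg fun y => sq_nonneg _
  have e1 : ∀ y, (|f y| - I) ^ 2 = f y * f y - 2 * I * |f y| + I ^ 2 := fun y => by
    rw [sub_sq, sq_abs]; ring
  simp_rw [e1] at h0
  rw [integral_add, integral_sub, integral_const_mul, integral_const, cube_real, ← hI] at h0
  · simp only [smul_eq_mul] at h0
    linarith
  · exact i2
  · exact (int_abs hf).const_mul _
  · exact i2.sub ((int_abs hf).const_mul _)
  · exact ic

lemma parseval {f : E3 → ℝ} (hf : SP f) : Summable (fun k => ‖fr f k‖ ^ 2) ∧ ∫ y in cube, f y * f y = ∑' k, ‖fr f k‖ ^ 2 := by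
  have hs : Summable fun k => ‖fr f k‖ := (rr_fr hf).summ
  have hs2 : Summable fun k => ‖fr f k‖ ^ 2 := by
    have hb : ∀ k, ‖fr f k‖ ≤ wn f := fun k => hs.le_tsum k fun _ _ => norm_nonneg _
    refine (hs.mul_left (wn f)).of_nonneg_of_le (fun _ => by positivity) fun k => ?_
    rw [pow_two]
    exact mul_le_mul_of_nonneg_right (hb k) (norm_nonneg _)
  refine ⟨hs2, ?_⟩
  have h1 := fr_mul hf hf 0
  rw [fr_zero] at h1
  have h2 : ∀ l, fr f l * fr f (0 - l) = ((‖fr f l‖ ^ 2 : ℝ) : ℂ) := by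
    intro l
    rw [zero_sub, fr_neg, Complex.star_def, Complex.mul_conj, Complex.normSq_eq_norm_sq]
  simp_rw [h2] at h1
  rw [← Complex.ofReal_tsum] at h1
  exact_mod_cast h1

lemma SD.rc_str {x : K → C3} (hx : SD x) : ∃ R : Fin 3 → Fin 3 → E3 → ℝ, (∀ i j, SP (R i j)) ∧
    (∀ i j, R i j = R j i) ∧ pdv R = x ∧ ∀ i j k, ‖fr (R i j) k‖ ≤ ‖x k‖ / nk k := by
  set b : Fin 3 → K → ℂ := fun i k => -(x k i) with hb
  have hbr : ∀ i, Rap (b i) := by
    intro i n
    refine (hx.rr n).of_nonneg_of_le (fun k => by positivity) fun k => ?_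
    have h1 := N_le_pw k
    have h2 : (0 : ℝ) ≤ H459R3.NS.N k := Nat.cast_nonneg _
    simp only [hb, norm_neg]
    exact mul_le_mul (pow_le_pow_left₀ h2 h1 n) (norm_le_pi_norm _ i) (norm_nonneg _)
      (pow_nonneg (pw_pos k).le n)
  have hbs : ∀ i k, b i (-k) = star (b i k) := fun i k => by
    simp only [hb, star_neg]
    rw [hx.sym k i]
  have hex : ∀ i j, ∃ B : E3 → ℝ, SP B ∧ (∀ y, (B y : ℂ) = S (rc b i j) y) ∧ fr B = rc b i j := fun i j =>
    exists_SP (rap_rc hbr i j) (rc_sym hbs i j)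
  choose R hR hRS hRf using hex
  refine ⟨R, hR, fun i j => ?_, ?_, fun i j k => ?_⟩
  · funext y
    have : (R i j y : ℂ) = (R j i y : ℂ) := by rw [hRS, hRS, rc_comm]
    exact_mod_cast this
  · funext k i
    unfold pdv
    by_cases hk : k = 0
    · subst hk
      rw [hx.z]
      simp [coef_zero]
    · have h1 := coef_rc (b := b) hk (by
        have := hx.dt k
        unfold NS.dt at this
        simp only [hb, mul_neg, Finset.sum_neg_distrib, this, neg_zero]) i
      simp_rw [hRf]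
      rw [h1]
      simp [hb]
  · rw [hRf]
    refine (norm_rc_le b i j k).trans (le_of_eq ?_)
    have : (fun i => b i k : C3) = -x k := rfl
    rw [this, norm_neg]

lemma sum_sq_NH {x : K → C3} (hx : SD x) {θ : ℝ} (hθ : 0 ≤ θ) (h : NH x ≤ ENNReal.ofReal θ) :
    Summable (fun k => (‖x k‖ / nk k) ^ 2) ∧ ∑' k, (‖x k‖ / nk k) ^ 2 ≤ θ ^ 2 := by
  have hs1 := summ_div_nk (hx.rr.summ : SN x)
  have hs : Summable (fun k => (‖x k‖ / nk k) ^ 2) := by
    have hb : ∀ k, ‖x k‖ / nk k ≤ ∑' k, ‖x k‖ / nk k := fun k =>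
      hs1.le_tsum k fun _ _ => div_nonneg (norm_nonneg _) (nk_nonneg _)
    refine (hs1.mul_left (∑' k, ‖x k‖ / nk k)).of_nonneg_of_le (fun _ => by positivity) fun k => ?_
    rw [pow_two]
    exact mul_le_mul_of_nonneg_right (hb k) (div_nonneg (norm_nonneg _) (nk_nonneg _))
  refine ⟨hs, ?_⟩
  have h1 : NH x ^ 2 ≤ ENNReal.ofReal (θ ^ 2) := by
    rw [ENNReal.ofReal_pow hθ]
    exact pow_le_pow_left' h 2
  unfold NH at h1
  rw [q2_sq] at h1
  have h2 : ∀ k, (if k = 0 then (0 : ℝ≥0∞) else ‖x k‖ₑ / ENNReal.ofReal (nk k)) ^ 2 =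
      ENNReal.ofReal ((‖x k‖ / nk k) ^ 2) := by
    intro k
    by_cases hk : k = 0
    · subst hk; simp [nk_zero]
    · rw [if_neg hk, ENNReal.ofReal_pow (div_nonneg (norm_nonneg _) (nk_nonneg k)),
        ENNReal.ofReal_div_of_pos (nk_pos hk), ofReal_norm]
  simp_rw [h2] at h1
  rw [← ENNReal.ofReal_tsum_of_nonneg (fun _ => by positivity) hs] at h1
  exact (ENNReal.ofReal_le_ofReal_iff (by positivity)).1 h1

lemma Str_of_NH {x : K → C3} (hx : SD x) {θ : ℝ} (hθ : 0 ≤ θ) (h : NH x ≤ ENNReal.ofReal θ) : Str x θ := by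
  obtain ⟨R, h1, h2, h3, h4⟩ := hx.rc_str
  obtain ⟨s1, s2⟩ := sum_sq_NH hx hθ h
  refine ⟨R, h1, h2, h3, fun i j => ?_⟩
  have h5 := l1_le_l2 (h1 i j)
  obtain ⟨p1, p2⟩ := parseval (h1 i j)
  rw [p2] at h5
  have h6 : ∑' k, ‖fr (R i j) k‖ ^ 2 ≤ θ ^ 2 := (p1.tsum_le_tsum (fun k =>
    pow_le_pow_left₀ (norm_nonneg _) (h4 i j k) 2) s1).trans s2
  exact abs_le_of_sq_le_sq' (h5.trans h6) hθ |>.2

lemma NH_le_LL {x : K → C3} (hx : SD x) : NH x ≤ ENNReal.ofReal (∑' k, ‖x k‖ / nk k) := by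
  rw [← leiLin_eq (hx.rr.summ : SN x)]
  refine (q2_le _).trans ?_
  unfold leiLin
  refine ENNReal.tsum_le_tsum fun k => ?_
  by_cases hk : k = 0
  · simp [hk]
  · rw [if_neg hk, if_neg hk]
    exact le_rfl

lemma Str_of_LL {x : K → C3} (hx : SD x) {θ : ℝ} (h : ∑' k, ‖x k‖ / nk k ≤ θ) : Str x θ :=
  Str_of_NH hx ((tsum_nonneg fun k => div_nonneg (norm_nonneg _) (nk_nonneg k)).trans h)
    ((NH_le_LL hx).trans (ENNReal.ofReal_le_ofReal h))

end Pool.Agent.K1H11.NS
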