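import Pool.Agent.H356R3.NS.Defs

/-!
# Definitions for the weak formulation
-/

open MeasureTheory Set
open scoped ContDiff ENNReal

namespace Pool.Agent.K1H11.NS

open Pool.Agent.H356R3.NS (R3 fc pd)

/-- Smooth, spatially periodic, divergence free test fields which vanish for large times. -/
structure TestField (φ : ℝ → R3 → R3) : Prop where
  smooth : ContDiff ℝ ∞ (fun z : ℝ × R3 => φ z.1 z.2)
  periodic : ∀ t x (j : Fin 3), φ t (x + Pi.single j 1) = φ t x
  divFree : ∀ t x, ∑ i, pd i (fun y => φ t y i) x = 0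
  support : ∃ T : ℝ, ∀ t, T ≤ t → ∀ x, φ t x = 0

/-- The integrand `u · ∂_t φ + ν u · Δφ + ∑ u_i u_j ∂_j φ_i` of the weak formulation. -/
noncomputable def weakInt (ν : ℝ) (u φ : ℝ → R3 → R3) (t : ℝ) (x : R3) : ℝ :=
  ∑ i, u t x i * (deriv (fun s => φ s x i) t + ν * ∑ j, pd j (pd j fun y => φ t y i) x) +
    ∑ i, ∑ j, u t x i * u t x j * pd j (fun y => φ t y i) x

/-- The pairing `∑ a(k) · conj(fc g k)` of a Fourier series with a field. -/
noncomputable def pairing (a : (Fin 3 → ℤ) → Fin 3 → ℂ) (g : R3 → R3) : ℝ :=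
  (∑' k, ∑ i, a k i * star (fc g k i)).re

end Pool.Agent.K1H11.NS
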